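import Pool.Agent.Q44.MX.StmB

/-!
# Project MX, part VI: the upper bound when the operators do not generate all endomorphisms
-/

set_option autoImplicit false
set_option linter.unusedVariables false

namespace Q44.MX

open Finset Module
open Pool.Agent.Y703.CQ (prs ext)
open Q44.JQ (Dj Bk Sel)
open Q44.LD (sb ra)
open scoped Classical

/-- MX-UBR: the upper bound without the hypothesis that the operators generate all endomorphisms. Proof: as `S_UB`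
(file StmB), with two cases. For `σ` let `𝒮` be the set of the labels `φ` with at least `C (k + 1)` elements `i`, `σ i ≠ 0`,
`b.hJ i = φ`. (i) All the `T φ`, `φ ∈ 𝒮`, are scalars. If `T φ` is a scalar `e` then `D.Sym.adj` gives `φ s₀ * ω x y = 0` for all `x`, `y`, so
`φ s₀ = 0` (`ω` is not zero). Hence `#𝒮 ≤ 2 ^ #s / 2`, and the number of these `σ` is at most
`2 ^ #U * 2 ^ (∑ φ ∈ 𝒮, #{i | b.hJ i = φ}) * (n + 1) ^ (C (k + 1) 2 ^ #s) ≤ 2 ^ (n / 2 + ε n / 4)`; use `S_TAILB` with `c = 4`, `S = ∅`: the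
contribution is at most `2 ^ (n / 2 - k ^ 2 / 8 + ε n / 2)`, and `y / 2 ≤ max y (y / 4)` for `y = n - k ^ 2 / 4`. (ii) Some `T φ`, `φ ∈ 𝒮`, is not a
scalar: `c = 2`, `S = {T φ | φ ∈ 𝒮}`, there are at most `2 ^ (#U + n)` such `σ`, the contribution is at most
`2 ^ (n - k ^ 2 / 4 + ε n / 2)`. -/
def S_UBR : Prop := ∀ (s V : Type) [Fintype s] [AddCommGroup V] [Module (ZMod 2) V] [Finite V]
  (D : Dj s V), Pl D.ω → D.Sym →
  ∀ ε : ℝ, 0 < ε → ∃ δ : ℝ, 0 < δ ∧ ∃ n₀ : ℕ, ∀ (U ι : Type) [Fintype U] [Fintype ι] [LinearOrder ι]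
    (b : Bk s U ι), n₀ ≤ Fintype.card ι → (Fintype.card U : ℝ) ^ 2 ≤ δ * Fintype.card ι →
    (∀ φ : s → ZMod 2, ((univ.filter fun i => b.hJ i = φ).card : ℝ) ≤
      (1 / 2 ^ Fintype.card s + δ) * Fintype.card ι) → ∀ k : ℕ, k ^ 2 ≤ 9 * Fintype.card ι →
    (∑ α : prs (univ : Finset ι) → ZMod 2,
        ((univ.filter fun σ : U ⊕ ι → ZMod 2 => k ≤ rkB D b σ α).card : ℝ)) ≤
      2 ^ (prs (univ : Finset ι)).card * (2 : ℝ) ^ (ε * Fintype.card ι) *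
        ((2 : ℝ) ^ ((Fintype.card ι : ℝ) - (k : ℝ) ^ 2 / 4) +
          (2 : ℝ) ^ (((Fintype.card ι : ℝ) - (k : ℝ) ^ 2 / 4) / 4))

/-- MX-UBPR: almost all symbols. Proof: as `S_UBP` (theorem `Q252.MX.t_UBP`, file Pool/Agent/Q252/MX/UBP.lean), with `k ^ 2 / 4` in
place of `k ^ 2 / 2` and `S_UBR` in place of `S_UB`. -/
def S_UBPR : Prop := ∀ (s V : Type) [Fintype s] [AddCommGroup V] [Module (ZMod 2) V] [Finite V]
  (D : Dj s V), Pl D.ω → D.Sym →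
  ∀ ε : ℝ, 0 < ε → ∃ δ : ℝ, 0 < δ ∧ ∃ n₀ : ℕ, ∀ (U ι : Type) [Fintype U] [Fintype ι] [LinearOrder ι]
    (b : Bk s U ι), n₀ ≤ Fintype.card ι → (Fintype.card U : ℝ) ^ 2 ≤ δ * Fintype.card ι →
    (∀ φ : s → ZMod 2, ((univ.filter fun i => b.hJ i = φ).card : ℝ) ≤
      (1 / 2 ^ Fintype.card s + δ) * Fintype.card ι) →
    ((univ.filter fun α : prs (univ : Finset ι) → ZMod 2 => ∃ k : ℕ, k ^ 2 ≤ 9 * Fintype.card ι ∧
        (2 : ℝ) ^ (ε * Fintype.card ι) *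
          ((2 : ℝ) ^ ((Fintype.card ι : ℝ) - (k : ℝ) ^ 2 / 4) +
            (2 : ℝ) ^ (((Fintype.card ι : ℝ) - (k : ℝ) ^ 2 / 4) / 4)) <
          ((univ.filter fun σ : U ⊕ ι → ZMod 2 => k ≤ rkB D b σ α).card : ℝ)).card : ℝ) ≤
      ε * 2 ^ (prs (univ : Finset ι)).card

end Q44.MX
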