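import Pool.Agent.Q44.MX.Fld
import Pool.Agent.W683.AT.Chi
import Pool.Agent.W605.AT.DSC

/-!
# Project MX: the characters of the Galois groups of the multiquadratic fields
-/

set_option autoImplicit false
set_option linter.unusedSectionVars false
set_option linter.unusedVariables false

open scoped Classical

namespace Q44.MX

open Finset Module Filter Topology
open Q44.JQ hiding cnt
open Q44.JQ.W Q44.JQ.M Q44.JQ.X
open Q44.LD
open Pool.Agent.Y723.PT (tw)
open Pool.Agent.W307.AT (Part)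

/-! ### Squarefree integers -/

theorem dvd_of_sq {a b z : ℤ} (ha : Squarefree a) (h : a * b = z * z) (hb : b ≠ 0) : a ∣ b := by
  rw [← Int.natAbs_dvd_natAbs, ← Nat.prod_primeFactors_of_squarefree (Int.squarefree_natAbs.2 ha)]
  refine Finset.prod_primes_dvd _ (fun p hp => (Nat.prime_of_mem_primeFactors hp).prime)
    fun p hp => ?_
  have hp' := Nat.prime_of_mem_primeFactors hp
  have hpi : Prime (p : ℤ) := Nat.prime_iff_prime_int.1 hp'
  have h1 : (p : ℤ) ∣ a := Int.natCast_dvd.2 (Nat.dvd_of_mem_primeFactors hp)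
  have h2 : (p : ℤ) ∣ z := by
    have : (p : ℤ) ∣ z * z := h ▸ h1.mul_right b
    rcases hpi.dvd_or_dvd this with h | h <;> exact h
  obtain ⟨w, rfl⟩ := h2
  obtain ⟨c, rfl⟩ := h1
  have h3 : c * b = p * (w * w) := by
    have h4 : (p : ℤ) * (c * b) = p * (p * (w * w)) := by
      rw [← mul_assoc, h]
      ring
    exact mul_left_cancel₀ hpi.ne_zero h4
  have h5 : (p : ℤ) ∣ c * b := ⟨_, h3⟩
  rcases hpi.dvd_or_dvd h5 with h6 | h6
  · exfalso
    obtain ⟨c', rfl⟩ := h6
    have h7 := ha (p : ℤ) ⟨c', by ring⟩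
    exact hpi.not_isUnit h7
  · exact Int.natCast_dvd.1 h6

theorem sqf_eq {a b : ℤ} (ha : Squarefree a) (hb : Squarefree b) (h : IsSquare (a * b)) : a = b := by
  obtain ⟨z, hz⟩ := h
  have h1 := dvd_of_sq ha hz hb.ne_zero
  have h2 := dvd_of_sq hb (by rw [mul_comm]; exact hz) ha.ne_zero
  have h3 : a.natAbs = b.natAbs := Nat.dvd_antisymm (Int.natAbs_dvd_natAbs.2 h1)
    (Int.natAbs_dvd_natAbs.2 h2)
  rcases Int.natAbs_eq_natAbs_iff.1 h3 with h4 | h4
  · exact h4
  · exfalso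
    have h5 : 0 ≤ a * b := by
      rw [hz]
      exact mul_self_nonneg z
    rw [h4] at h5
    have h6 : 0 < b * b := mul_self_pos.2 hb.ne_zero
    linarith

/-! ### The square roots in the field -/

section field

variable {D : ℕ} {F : Type} [Field F] [NumberField F]

theorem sub_ex (hD : Squarefree D) {d : ℤ} (hd : d ∈ sd D) :
    ∃ T ⊆ insert (-1) (Pz D), ∏ b ∈ T, b = d := by
  by_contra hc
  push Not at hc
  have h1 := sum_Pz' hD (R := ℕ) fun z => if z = d then 1 else 0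
  rw [Finset.sum_eq_zero fun T hT => if_neg (hc T (Finset.mem_powerset.1 hT))] at h1
  have h2 := Finset.sum_eq_zero_iff.1 h1.symm d hd
  rw [if_pos rfl] at h2
  exact one_ne_zero h2

theorem sub_mem (hD : Squarefree D) {T : Finset ℤ} (hT : T ⊆ insert (-1) (Pz D)) :
    ∏ b ∈ T, b ∈ sd D := by
  by_contra hc
  have h1 := sum_Pz' hD (R := ℕ) fun z => if z ∈ sd D then 0 else 1
  rw [Finset.sum_eq_zero (s := sd D) fun z hz => if_pos hz] at h1
  have h2 := Finset.sum_eq_zero_iff.1 h1 T (Finset.mem_powerset.2 hT)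
  rw [if_neg hc] at h2
  exact one_ne_zero h2

theorem sqrt_ex (hD : Squarefree D) (h : GenA F (insert (-1) (Pz D) : Finset ℤ)) {d : ℤ}
    (hd : d ∈ sd D) : ∃ s : F, s ^ 2 = (d : F) := by
  obtain ⟨T, hT, rfl⟩ := sub_ex hD hd
  obtain ⟨x, hx, -⟩ := h
  refine ⟨∏ b ∈ T, x b, ?_⟩
  rw [← Finset.prod_pow, Int.cast_prod]
  exact Finset.prod_congr rfl fun b hb => hx b (hT hb)

theorem mem_sd_of (hD : Squarefree D) (h : GenA F (insert (-1) (Pz D) : Finset ℤ)) {d : ℤ}
    (hd : Squarefree d) {s : F} (hs : s ^ 2 = (d : F)) : d ∈ sd D := by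
  by_contra hc
  obtain ⟨A, hA⟩ : ∃ A : Finset ℤ, A = insert (-1) (Pz D) := ⟨_, rfl⟩
  rw [← hA] at h
  have hAs : ∀ b ∈ A, b ∈ sd D := by
    intro b hb
    have h1 := sub_mem hD (T := {b}) (by
      rw [← hA]
      exact Finset.singleton_subset_iff.2 hb)
    rw [Finset.prod_singleton] at h1
    exact h1
  have hdA : d ∉ A := fun h' => hc (hAs d h')
  have h1 : finrank ℚ F = 2 ^ A.card := deg_of h (hA ▸ ind_Pz')
  have h2 : finrank ℚ F = 2 ^ (insert d A).card := by
    obtain ⟨x, hx, hF⟩ := h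
    refine deg_of ⟨fun b => if b = d then s else x b, fun b hb => ?_, ?_⟩ fun T hT hne => ?_
    · rw [Finset.mem_coe, Finset.mem_insert] at hb
      rcases hb with rfl | hb
      · simp only [if_true]
        exact hs
      · have : b ≠ d := fun h' => hdA (h' ▸ hb)
        simp only [if_neg this]
        exact hx b hb
    · rw [eq_top_iff, ← hF]
      refine IntermediateField.adjoin.mono _ _ _ ?_
      rintro _ ⟨b, hb, rfl⟩
      have : b ≠ d := fun h' => hdA (h' ▸ hb)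
      refine ⟨b, Finset.mem_coe.2 (Finset.mem_insert_of_mem hb), ?_⟩
      simp only [if_neg this]
    · by_cases hdT : d ∈ T
      · intro hsq
        rw [← Finset.mul_prod_erase T _ hdT] at hsq
        have h3 : T.erase d ⊆ insert (-1) (Pz D) := by
          rw [← hA]
          intro b hb
          obtain ⟨h4, h5⟩ := Finset.mem_erase.1 hb
          exact Finset.mem_of_mem_insert_of_ne (hT h5) h4
        have h4 := sub_mem hD h3
        have h5 := sqf_eq hd (sd_sq hD h4) hsq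
        exact hc (h5 ▸ h4)
      · refine ind_Pz' (D := D) T ?_ hne
        rw [← hA]
        intro b hb
        exact Finset.mem_of_mem_insert_of_ne (hT hb) fun h' => hdT (h' ▸ hb)
  rw [Finset.card_insert_of_notMem hdA, h1] at h2
  have h3 := Nat.pow_right_injective le_rfl h2
  omega

theorem gal_A (h : GenA F (insert (-1) (Pz D) : Finset ℤ)) : IsGalois ℚ F := by
  obtain ⟨x, hx, hF⟩ := gen_of h (insert (-1) (Pz D)).equivFin
  exact Pool.Agent.Y73.QMQ1.gal_of (K := F) hx hF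

/-! ### The characters -/

/-- the character of a square root -/
noncomputable def chr (s : F) (hs0 : s ≠ 0) (h : ∀ σ : F ≃ₐ[ℚ] F, σ s = s ∨ σ s = -s) :
    (F ≃ₐ[ℚ] F) →* ℤˣ where
  toFun σ := if σ s = s then 1 else -1
  map_one' := by
    rw [if_pos]
    rfl
  map_mul' σ τ := by
    have hne : -s ≠ s := fun h' => hs0 (by
      have : (2 : F) * s = 0 := by linear_combination -h'
      exact (mul_eq_zero.1 this).resolve_left two_ne_zero)
    have e : (σ * τ) s = σ (τ s) := rfl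
    rcases h σ with h1 | h1 <;> rcases h τ with h2 | h2
    · rw [if_pos (by rw [e, h2, h1]), if_pos h1, if_pos h2, one_mul]
    · rw [if_neg (by rw [e, h2, map_neg, h1]; exact hne), if_pos h1, if_neg (by rw [h2]; exact hne),
        one_mul]
    · rw [if_neg (by rw [e, h2, h1]; exact hne), if_neg (by rw [h1]; exact hne), if_pos h2, mul_one]
    · rw [if_pos (by rw [e, h2, map_neg, h1, neg_neg]), if_neg (by rw [h1]; exact hne),
        if_neg (by rw [h2]; exact hne)]
      rfl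

theorem chr_spec (s : F) (hs0 : s ≠ 0) (h : ∀ σ : F ≃ₐ[ℚ] F, σ s = s ∨ σ s = -s)
    (σ : F ≃ₐ[ℚ] F) : σ s = (((chr s hs0 h σ : ℤˣ) : ℤ) : F) * s := by
  show σ s = (((if σ s = s then (1 : ℤˣ) else -1 : ℤˣ) : ℤ) : F) * s
  by_cases h1 : σ s = s
  · rw [if_pos h1, h1]
    simp
  · rw [if_neg h1, (h σ).resolve_left h1]
    simp

theorem sgn_sq {s : F} {d : ℤ} (hs : s ^ 2 = (d : F)) (σ : F ≃ₐ[ℚ] F) : σ s = s ∨ σ s = -s := by
  have h1 : (σ s) ^ 2 = s ^ 2 := by
    rw [← map_pow, hs, map_intCast]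
  exact sq_eq_sq_iff_eq_or_eq_neg.1 h1

/-- **The characters of the Galois group correspond to the divisors.** -/
theorem chr_bij (hD : Squarefree D) (h : GenA F (insert (-1) (Pz D) : Finset ℤ)) :
    ∃ δ : ((F ≃ₐ[ℚ] F) →* ℤˣ) → ℤ, Function.Injective δ ∧ Set.range δ = (sd D : Finset ℤ) ∧
      ∀ χ, ∃ s : F, s ^ 2 = (δ χ : F) ∧ ∀ σ : F ≃ₐ[ℚ] F, σ s = (((χ σ : ℤˣ) : ℤ) : F) * s := by
  have := gal_A h
  have h1 := fun χ => Pool.Agent.W683.AT.chi F χ
  choose δ s hsq hs hσ using h1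
  have hs0 : ∀ χ, s χ ≠ 0 := fun χ h0 => by
    have h2 := hs χ
    rw [h0, zero_pow two_ne_zero] at h2
    exact (hsq χ).ne_zero (by exact_mod_cast h2.symm)
  have key : ∀ (χ : (F ≃ₐ[ℚ] F) →* ℤˣ) (d : ℤ) (t : F), Squarefree d → t ^ 2 = (d : F) →
      (∀ σ : F ≃ₐ[ℚ] F, σ t = (((χ σ : ℤˣ) : ℤ) : F) * t) → δ χ = d := by
    intro χ d t hd ht hσt
    refine sqf_eq (hsq χ) hd ?_
    have h2 : ∀ σ : F ≃ₐ[ℚ] F, σ (s χ * t) = s χ * t := by
      intro σ
      rw [map_mul, hσ χ σ, hσt σ]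
      have h3 : (((χ σ : ℤˣ) : ℤ) : F) * (((χ σ : ℤˣ) : ℤ) : F) = 1 := by
        rcases Int.units_eq_one_or (χ σ) with h4 | h4 <;> rw [h4] <;> simp
      linear_combination (s χ * t) * h3
    obtain ⟨q, hq⟩ := (IsGalois.mem_range_algebraMap_iff_fixed (F := ℚ) (E := F) (s χ * t)).2 h2
    have h3 : ((δ χ * d : ℤ) : F) = algebraMap ℚ F (q * q) := by
      rw [map_mul, hq]
      push_cast
      rw [← hs χ, ← ht]
      ring
    have h4 : ((δ χ * d : ℤ) : ℚ) = q * q := by
      apply (algebraMap ℚ F).injective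
      rw [← h3, map_intCast]
    exact Rat.isSquare_intCast_iff.1 ⟨q, h4⟩
  refine ⟨δ, fun χ χ' he => ?_, ?_, fun χ => ⟨s χ, hs χ, hσ χ⟩⟩
  · have h2 : s χ' = s χ ∨ s χ' = -s χ := by
      refine sq_eq_sq_iff_eq_or_eq_neg.1 ?_
      rw [hs χ, hs χ', he]
    refine MonoidHom.ext fun σ => ?_
    have h3 : (((χ σ : ℤˣ) : ℤ) : F) = (((χ' σ : ℤˣ) : ℤ) : F) := by
      have h4 := hσ χ σ
      have h5 := hσ χ' σ
      rcases h2 with h2 | h2
      · rw [h2, h4] at h5
        exact mul_right_cancel₀ (hs0 χ) h5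
      · rw [h2, map_neg, h4, mul_neg] at h5
        exact mul_right_cancel₀ (hs0 χ) (neg_injective h5)
    have h4 : ((χ σ : ℤˣ) : ℤ) = ((χ' σ : ℤˣ) : ℤ) := by exact_mod_cast h3
    exact Units.ext h4
  · ext d
    constructor
    · rintro ⟨χ, rfl⟩
      exact mem_sd_of hD h (hsq χ) (hs χ)
    · intro hd
      obtain ⟨t, ht⟩ := sqrt_ex hD h (Finset.mem_coe.1 hd)
      have hdq := sd_sq hD (Finset.mem_coe.1 hd)
      have ht0 : t ≠ 0 := fun h0 => by
        rw [h0, zero_pow two_ne_zero] at ht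
        exact hdq.ne_zero (by exact_mod_cast ht.symm)
      exact ⟨chr t ht0 fun σ => sgn_sq ht σ, key _ d t hdq ht (chr_spec t ht0 _)⟩

end field

end Q44.MX
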