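import Pool.Agent.Q44.MX.Chr

/-!
# Project MX: the multiplicities of the characters
-/

set_option autoImplicit false
set_option linter.unusedSectionVars false
set_option linter.unusedVariables false

open scoped Classical

namespace Q44.MX

open Finset Module Filter Topology
open Q44.JQ hiding cnt
open Q44.JQ.W Q44.JQ.M Q44.JQ.X
open Q44.LD
open Pool.Agent.Y723.PT (tw)
open Pool.Agent.W307.AT (Part)
open Pool.Agent.W307.RT (Sh)

variable {a : Fin 3 → ℤ} {D : ℕ} {F : Type} [Field F] [NumberField F]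

/-- the multiplicity of a character -/
noncomputable def mul (F : Type) [Field F] [NumberField F] (χ : (F ≃ₐ[ℚ] F) →* ℤˣ)
    (a : Fin 3 → ℤ) : ℕ := Module.finrank ℤ (Part F χ (cv a))

theorem rk_le (H : FactsZ) (ha : Mz a) {d : ℤ} (hd : d ≠ 0) :
    Module.finrank ℤ (cv (tw d a)).toAffine.Point ≤ wr a d := by
  have h4 := (fctG H ha d hd).2.2.2.2
  have h5 : 2 ^ Module.finrank ℤ (cv (tw d a)).toAffine.Point ∣ 2 ^ wr a d := ⟨_, h4.symm⟩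
  exact (Nat.pow_dvd_pow_iff_le_right (by norm_num)).1 h5

theorem mul_le (H : FactsZ) (ha : Mz a) [IsGalois ℚ F] {χ : (F ≃ₐ[ℚ] F) →* ℤˣ} {d : ℤ} {s : F}
    (hd : d ≠ 0) (hs : s ^ 2 = (d : F))
    (hσ : ∀ σ : F ≃ₐ[ℚ] F, σ s = (((χ σ : ℤˣ) : ℤ) : F) * s) : mul F χ a ≤ wr a d := by
  refine le_trans ?_ (rk_le H ha hd)
  obtain ⟨φ, hφ⟩ := Pool.Agent.W605.AT.dsc F χ d s hd hs hσ (cA a) (cB a)
  rw [Pool.Agent.Q154.LD.cv_tw]
  have hfin := Pool.Agent.W307.RG.fin_tw (disc_ne ha.h0 ha.ha) (poly_eq ha.h0) hd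
  exact LinearMap.finrank_le_finrank_of_injective (f := φ.toIntLinearMap) hφ

/-- **The correspondence.** -/
theorem chr_equiv (H : FactsZ) (ha : Mz a) (hD : Squarefree D)
    (h : GenA F (insert (-1) (Pz D) : Finset ℤ)) :
    ∃ e : ((F ≃ₐ[ℚ] F) →* ℤˣ) ≃ sd D, ∀ χ, mul F χ a ≤ wr a (e χ : ℤ) := by
  have := gal_A h
  obtain ⟨δ, h1, h2, h3⟩ := chr_bij hD h
  have h4 : ∀ χ, δ χ ∈ sd D := fun χ => by
    have : δ χ ∈ Set.range δ := ⟨χ, rfl⟩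
    rw [h2] at this
    exact this
  refine ⟨Equiv.ofBijective (fun χ => ⟨δ χ, h4 χ⟩) ⟨fun χ χ' he => h1 (congrArg Subtype.val he),
    fun d => ?_⟩, fun χ => ?_⟩
  · have h5 : (d : ℤ) ∈ Set.range δ := by
      rw [h2]
      exact d.2
    obtain ⟨χ, hχ⟩ := h5
    exact ⟨χ, Subtype.ext hχ⟩
  · obtain ⟨s, hs, hσ⟩ := h3 χ
    have h5 : δ χ ≠ 0 := (sd_sq hD (h4 χ)).ne_zero
    exact mul_le H ha h5 hs hσ

theorem chr_card (H : FactsZ) (ha : Mz a) (hD : Squarefree D)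
    (h : GenA F (insert (-1) (Pz D) : Finset ℤ)) :
    Nat.card ((F ≃ₐ[ℚ] F) →* ℤˣ) = (sd D).card := by
  obtain ⟨e, -⟩ := chr_equiv H ha hD h
  rw [Nat.card_congr e, Nat.card_eq_fintype_card, Fintype.card_coe]

theorem chr_sum (H : FactsZ) (ha : Mz a) (hD : Squarefree D)
    (h : GenA F (insert (-1) (Pz D) : Finset ℤ)) {f : ℕ → ℝ} (hf : Monotone f) :
    ∑ᶠ χ : (F ≃ₐ[ℚ] F) →* ℤˣ, f (mul F χ a) ≤ ∑ d ∈ sd D, f (wr a d) := by
  obtain ⟨e, he⟩ := chr_equiv H ha hD h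
  have hfin : Finite ((F ≃ₐ[ℚ] F) →* ℤˣ) := Finite.of_equiv _ e.symm
  have := Fintype.ofFinite ((F ≃ₐ[ℚ] F) →* ℤˣ)
  rw [finsum_eq_sum_of_fintype, ← Finset.sum_coe_sort (sd D), ← Equiv.sum_comp e]
  exact Finset.sum_le_sum fun χ _ => hf (he χ)

theorem chr_up (H : FactsZ) (ha : Mz a) (hD : Squarefree D)
    (h : GenA F (insert (-1) (Pz D) : Finset ℤ)) (k : ℕ) :
    Nat.card {χ : (F ≃ₐ[ℚ] F) →* ℤˣ // k ≤ mul F χ a} ≤ ((sd D).filter fun d => k ≤ wr a d).card := by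
  obtain ⟨e, he⟩ := chr_equiv H ha hD h
  rw [← Fintype.card_coe, ← Nat.card_eq_fintype_card]
  refine Nat.card_le_card_of_injective (fun χ => ⟨(e χ.1 : ℤ), mem_filter.2
    ⟨(e χ.1).2, χ.2.trans (he χ.1)⟩⟩) fun χ χ' h' => ?_
  have h1 : (e χ.1 : ℤ) = e χ'.1 := (Subtype.mk.injEq _ _ _ _).mp h'
  exact Subtype.ext (e.injective (Subtype.ext h1))

theorem chr_zero (H : FactsZ) (ha : Mz a) (hD : Squarefree D)
    (h : GenA F (insert (-1) (Pz D) : Finset ℤ)) :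
    ((sd D).filter fun d => wr a d = 0).card ≤
      Nat.card {χ : (F ≃ₐ[ℚ] F) →* ℤˣ // mul F χ a = 0} := by
  obtain ⟨e, he⟩ := chr_equiv H ha hD h
  have hfin : Finite ((F ≃ₐ[ℚ] F) →* ℤˣ) := Finite.of_equiv _ e.symm
  rw [← Fintype.card_coe, ← Nat.card_eq_fintype_card]
  refine Nat.card_le_card_of_injective (fun d => ⟨e.symm ⟨d.1, (mem_filter.1 d.2).1⟩, ?_⟩)
    fun d d' h' => ?_
  · have h1 := he (e.symm ⟨d.1, (mem_filter.1 d.2).1⟩)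
    rw [Equiv.apply_symm_apply] at h1
    have h2 : wr a d.1 = 0 := (mem_filter.1 d.2).2
    exact Nat.le_zero.1 (h1.trans h2.le)
  · have h1 := e.symm.injective ((Subtype.mk.injEq _ _ _ _).mp h')
    exact Subtype.ext ((Subtype.mk.injEq _ _ _ _).mp h1)

end Q44.MX
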