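import Pool.Agent.Q44.MX.Nat
import Pool.Agent.Q44.LD.Ub

/-!
# Project MX: one elliptic curve with full rational 2-torsion (possibly with cyclic subgroups of order 4)
-/

set_option autoImplicit false
set_option linter.unusedSectionVars false
set_option linter.unusedVariables false

open scoped Classical

namespace Q44.MX

open Finset Module Filter Topology
open Pool.Agent.Y703.CQ (nr prs ext)
open Pool.Agent.TH344.JG (SelJ)
open Pool.Agent.Y723.PT (tw)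
open Pool.Agent.Y667.SX (Sel2H)
open Pool.Agent.TH841.SH.D (Sha)
open Q44.JQ hiding cnt
open Q44.JQ.W Q44.JQ.M Q44.JQ.X
open Q44.LD
open Q155.NL (Alm alm_mono alm_finset alm_and)

/-- the curve and the set of primes -/
structure Vz (a : Fin 3 → ℤ) (T : Finset ℕ) : Prop where
  ha : Function.Injective a
  h0 : a 0 + a 1 + a 2 = 0
  pr : ∀ p ∈ T, p.Prime
  two : 2 ∈ T
  sup : ∀ i j, i ≠ j → ∀ p : ℕ, p.Prime → (p : ℤ) ∣ a i - a j → p ∈ T

variable {a : Fin 3 → ℤ} {T : Finset ℕ}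

/-- the curve -/
def Vz.cr (hv : Vz a T) : Cr T where
  g := 1
  hg := le_rfl
  a := a
  inj := hv.ha
  supp := hv.sup

theorem Vz.LB (hv : Vz a T) (H : FactsZ) : LB T := LB.of H.lbl ⟨hv.pr, hv.two⟩

/-- the curve with the roots `Uo γ * a i` -/
noncomputable def Vz.cu (hv : Vz a T) (L : Q44.JQ.LB T) (γ : Option T → ZMod 2) : Cr T :=
  hv.cr.mul (Uo γ) (L.U0 γ) (L.uo γ).2.1

/-- the spaces of the local conditions -/
structure Vz.Lo (hv : Vz a T) (L : Q44.JQ.LB T) where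
  𝓛 : ∀ (γ : Option T → ZMod 2), (Option T → ZMod 2) →
    Submodule (ZMod 2) ((Option T → (hv.cu L γ).V) × (Option T → (hv.cu L γ).V))
  ok : ∀ γ ρ, ((hv.cu L γ).dj (𝓛 γ ρ)).Ok ρ
  sel : ∀ γ ρ, ∀ S : Finset ℕ, (∀ p ∈ S, p.Prime ∧ p ∉ T) → ∑ p ∈ S, lbl T p = ρ →
      (SelJ (tw ((∏ q ∈ S, q : ℕ) : ℤ) (hv.cu L γ).a)).Finite ∧
      (SelJ (tw ((∏ q ∈ S, q : ℕ) : ℤ) (hv.cu L γ).a)).ncard =
        Nat.card (Sel ((hv.cu L γ).dj (𝓛 γ ρ)) (fun p q : S => nr p q) (fun p : S => lbl T p))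

theorem Vz.exLo (hv : Vz a T) (L : Q44.JQ.LB T) (hARXE : S_ARXE) : Nonempty (hv.Lo L) := by
  have h1 := fun (γ : Option T → ZMod 2) => hARXE T L.pr L.two (hv.cu L γ) rfl
  choose 𝓛 hO _hm hS using h1
  exact ⟨⟨𝓛, hO, hS⟩⟩

variable {hv : Vz a T} {L : Q44.JQ.LB T}

/-- the system -/
noncomputable def Vz.Lo.d (P : hv.Lo L) (γ ρ : Option T → ZMod 2) :
    Dj (Option T) (hv.cu L γ).V := (hv.cu L γ).dj (P.𝓛 γ ρ)

theorem Vz.Lo.sel1 (P : hv.Lo L) {S : Finset ℕ} (hS : ∀ p ∈ S, p.Prime ∧ p ∉ T)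
    (γ : Option T → ZMod 2) (σ : S → ZMod 2) (Q : S → Prop) (hQ : ∀ x, Q x ↔ σ x ≠ 0) :
    (SelJ (tw (tt γ σ) a)).Finite ∧ (SelJ (tw (tt γ σ) a)).ncard =
      2 ^ finrank (ZMod 2) (Sel (P.d γ (∑ p, σ p • lbl T p))
        (fun a b : {x : S // Q x} => nr (a : S) (b : S)) (fun a => lbl T (a : S))) := by
  have hp : ∀ p ∈ acS σ, p.Prime ∧ p ∉ T := fun p h => hS p (mem_acS.1 h).1
  have h1 : ∑ p ∈ acS σ, lbl T p = ∑ p, σ p • lbl T p := by
    unfold acS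
    rw [Finset.sum_image fun a _ b _ h => Subtype.ext h, Finset.sum_filter]
    refine Finset.sum_congr rfl fun p _ => ?_
    have h01 : σ p = 0 ∨ σ p = 1 := by
      generalize σ p = x
      revert x
      decide
    rcases h01 with h | h
    · rw [h, if_neg (by simp), zero_smul]
    · rw [h, if_pos one_ne_zero, one_smul]
  obtain ⟨h2, h3⟩ := P.sel γ _ (acS σ) hp h1
  have e : tw (tt γ σ) a = tw ((∏ q ∈ acS σ, q : ℕ) : ℤ) (hv.cu L γ).a := by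
    rw [tt_eq]
    funext i
    show Uo γ * ((∏ p ∈ acS σ, p : ℕ) : ℤ) * a i =
      ((∏ p ∈ acS σ, p : ℕ) : ℤ) * (Uo γ * a i)
    ring
  rw [e]
  refine ⟨h2, h3.trans ?_⟩
  rw [Module.natCard_eq_pow_finrank (K := ZMod 2), Nat.card_zmod]
  congr 1
  symm
  exact sel_reindex (P.d γ (∑ p, σ p • lbl T p))
    ((Equiv.subtypeEquivRight hQ).trans (eqAc σ)) _ _ _ _ (fun p => rfl) (fun p q _ => rfl)

/-- the facts on the twists over the rationals -/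
theorem Vz.Lo.fct (P : hv.Lo L) (hELL : S_ELL) :
    ∀ D : ℤ, D ≠ 0 → (SelJ (tw D a)).ncard = 2 ^ (2 + wr a D) ∧
      Finite (Sel2H (cv (tw D a))) ∧
      Nat.card (Sel2H (cv (tw D a))) = 2 ^ (2 + wr a D) ∧
      Finite {x : Sha (cv (tw D a)) // x + x = 0} ∧
      2 ^ Module.finrank ℤ (cv (tw D a)).toAffine.Point *
        Nat.card {x : Sha (cv (tw D a)) // x + x = 0} = 2 ^ wr a D := by
  intro D hD
  obtain ⟨q, w, hq, hw, he⟩ := sq_dec hD
  have h1 := P.sel1 (nD_prime L hq) (ct q) (fun p : (nD T q).primeFactors =>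
    if (p : ℕ) ∈ (nD T q).primeFactors then (1 : ZMod 2) else 0) _ (fun x => Iff.rfl)
  rw [tt_of L hq (Finset.Subset.refl _)] at h1
  have h2 : SelJ (tw D a) = SelJ (tw q a) := by
    rw [he]
    exact selJ_sq hw
  have h3 : (SelJ (tw D a)).Finite := by
    rw [h2]
    exact h1.1
  have h4 : ∃ d, (SelJ (tw D a)).ncard = 2 ^ d := by
    rw [h2]
    exact ⟨_, h1.2⟩
  obtain ⟨d, hd⟩ := h4
  obtain ⟨r, b1, b2, b3, b4, b5⟩ := sel_eq hELL (tw_sum hv.h0 D)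
    (Pool.Agent.Y723.PT.tw_inj hD hv.ha) h3 hd
  have b6 : wr a D = r := sr_eq b3
  rw [b6]
  exact ⟨by rw [hd, b1], b2, b3, b4, b5⟩

end Q44.MX
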