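import Pool.Agent.Q44.MX.Crv

/-!
# Project MX: the Selmer ranks of the twists by the divisors of one integer
-/

set_option autoImplicit false
set_option linter.unusedSectionVars false
set_option linter.unusedVariables false

open scoped Classical

namespace Q44.MX

open Finset Module Filter Topology
open Pool.Agent.Y703.CQ (nr prs ext)
open Pool.Agent.TH344.JG (SelJ)
open Pool.Agent.Y723.PT (tw)
open Q44.JQ hiding cnt
open Q44.JQ.W Q44.JQ.M Q44.JQ.X
open Q44.LD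
open Q155.NL (Alm alm_mono alm_finset alm_and)

/-! ### Two data which differ in `𝓛` -/

theorem sel_diff {s V P : Type} [Fintype s] [AddCommGroup V] [Module (ZMod 2) V] [Finite V] [Fintype P]
    (D D' : Dj s V) (hT : D.T = D'.T) (hc : Nat.card D'.𝓛 = Nat.card V ^ Fintype.card s)
    (hV : finrank (ZMod 2) V = 2) (N : P → P → ZMod 2) (h : P → s → ZMod 2) :
    finrank (ZMod 2) (Sel D N h) ≤ finrank (ZMod 2) (Sel D' N h) + 2 * Fintype.card s := by
  have e1 : rowL D N h = rowL D' N h := by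
    refine LinearMap.ext fun e => funext fun p => ?_
    show ∑ q, N p q • (e.2 q + e.2 p) + D.T (h p) (e.2 p) + ∑ t, h p t • e.1 t =
      ∑ q, N p q • (e.2 q + e.2 p) + D'.T (h p) (e.2 p) + ∑ t, h p t • e.1 t
    rw [hT]
  set K := LinearMap.ker (rowL D' N h) with hK
  have h1 : finrank (ZMod 2) (Sel D N h) ≤ finrank (ZMod 2) K := by
    refine Submodule.finrank_mono ?_
    unfold Sel
    rw [e1]
    exact inf_le_right
  set f : K →ₗ[ZMod 2] (((s → V) × (s → V)) ⧸ D'.𝓛) :=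
    D'.𝓛.mkQ.comp ((clL h).comp K.subtype) with hf
  have h2 : finrank (ZMod 2) (LinearMap.ker f) ≤ finrank (ZMod 2) (Sel D' N h) := by
    have h3 : ∀ x : LinearMap.ker f, (x.1.1 : (s → V) × (P → V)) ∈ Sel D' N h := by
      intro x
      have h4 := x.2
      rw [LinearMap.mem_ker] at h4
      have h5 : D'.𝓛.mkQ (clL h x.1.1) = 0 := h4
      rw [Submodule.mkQ_apply, Submodule.Quotient.mk_eq_zero] at h5
      exact ⟨h5, x.1.2⟩
    refine LinearMap.finrank_le_finrank_of_injective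
      (f := ((K.subtype.comp (LinearMap.ker f).subtype).codRestrict (Sel D' N h) h3)) ?_
    intro x y hxy
    have h6 := congrArg Subtype.val hxy
    exact Subtype.ext (Subtype.ext h6)
  have h3 := LinearMap.finrank_range_add_finrank_ker f
  have h4 : finrank (ZMod 2) (LinearMap.range f) ≤
      finrank (ZMod 2) (((s → V) × (s → V)) ⧸ D'.𝓛) := Submodule.finrank_le _
  have h5 := Submodule.finrank_quotient_add_finrank D'.𝓛
  have h6 : finrank (ZMod 2) ((s → V) × (s → V)) = 4 * Fintype.card s := by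
    rw [Module.finrank_prod, Module.finrank_pi_fintype, Finset.sum_const, card_univ, smul_eq_mul, hV]
    ring
  have h7 : finrank (ZMod 2) D'.𝓛 = 2 * Fintype.card s := by
    rw [Module.natCard_eq_pow_finrank (K := ZMod 2),
      Module.natCard_eq_pow_finrank (K := ZMod 2) (V := V), Nat.card_zmod, hV, ← pow_mul] at hc
    exact Nat.pow_right_injective le_rfl hc
  omega

theorem dZ_diff {T : Finset ℕ} {V : Type} [AddCommGroup V] [Module (ZMod 2) V] [Finite V]
    (D D' : Dj (Option T) V) (hT : D.T = D'.T)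
    (hc : Nat.card D'.𝓛 = Nat.card V ^ Fintype.card (Option T)) (hV : finrank (ZMod 2) V = 2)
    (S : Finset ℕ) (Z : S → Prop) : dZ D S Z ≤ dZ D' S Z + 2 * Fintype.card (Option T) :=
  sel_diff D D' hT hc hV _ _

/-! ### Prime factors outside `T` -/

section primes

variable {T : Finset ℕ} (L : LB T)

include L

/-- the prime factors outside `T` -/
theorem nD_pf {z : ℤ} (hz : Squarefree z) {p : ℕ} :
    p ∈ (nD T z).primeFactors ↔ p.Prime ∧ (p : ℤ) ∣ z ∧ p ∉ T := by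
  obtain ⟨g1, g2, g3⟩ := L.dec hz
  constructor
  · intro h
    have h1 := Nat.prime_of_mem_primeFactors h
    have h2 := Nat.dvd_of_mem_primeFactors h
    refine ⟨h1, ?_, fun h3 => g3 p h3 h2⟩
    rw [g1]
    exact (Int.natCast_dvd_natCast.2 h2).mul_left _
  · rintro ⟨h1, h2, h3⟩
    refine Nat.mem_primeFactors.2 ⟨h1, ?_, g2.ne_zero⟩
    rw [g1] at h2
    rcases (Nat.prime_iff_prime_int.1 h1).dvd_or_dvd h2 with h4 | h4
    · exact absurd ((L.uo (ct z)).2.1 p h1 h4) h3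
    · exact Int.natCast_dvd_natCast.1 h4

/-- the prime factors of the radical outside `T` -/
theorem mem_pS {N : ℕ} (hN : N ≠ 0) {p : ℕ} :
    p ∈ (nD T (rad N : ℤ)).primeFactors ↔ p ∈ N.primeFactors ∧ p ∉ T := by
  rw [nD_pf L (Int.squarefree_natCast.2 (rad_sq N)), Int.natCast_dvd_natCast, Nat.mem_primeFactors]
  constructor
  · rintro ⟨h1, h2, h3⟩
    exact ⟨⟨h1, h2.trans (rad_dvd N), hN⟩, h3⟩
  · rintro ⟨⟨h1, h2, -⟩, h3⟩
    exact ⟨h1, (dvd_rad hN h1.squarefree).2 h2, h3⟩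

theorem card_pS {N : ℕ} (hN : N ≠ 0) : (nD T (rad N : ℤ)).primeFactors.card ≤ N.primeFactors.card ∧
    N.primeFactors.card ≤ (nD T (rad N : ℤ)).primeFactors.card + T.card := by
  constructor
  · exact Finset.card_le_card fun p hp => ((mem_pS L hN).1 hp).1
  · refine (Finset.card_le_card (t := (nD T (rad N : ℤ)).primeFactors ∪ T) fun p hp => ?_).trans
      (Finset.card_union_le _ _)
    rw [Finset.mem_union, mem_pS L hN]
    by_cases h : p ∈ T
    · exact Or.inr h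
    · exact Or.inl ⟨hp, h⟩

end primes

/-! ### One curve -/

section curve

variable {T : Finset ℕ} {a : Fin 3 → ℤ}

/-- few divisors with large Selmer rank -/
def Bu (a : Fin 3 → ℤ) (κ : ℝ) (M : ℕ) (ε : ℝ) (N : ℕ) : Prop :=
  ∀ k : ℕ, k ^ 2 ≤ 7 * N.primeFactors.card →
    (((sd (rad (M * N))).filter fun d => k ≤ wr a d).card : ℝ) ≤
      (2 : ℝ) ^ (ε * N.primeFactors.card) *
      ((2 : ℝ) ^ ((N.primeFactors.card : ℝ) - (k : ℝ) ^ 2 / (2 * κ)) +
        (2 : ℝ) ^ (((N.primeFactors.card : ℝ) - (k : ℝ) ^ 2 / (2 * κ)) / 4))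

/-- many divisors with large Selmer rank -/
def Bl (a : Fin 3 → ℤ) (x ε : ℝ) (N : ℕ) : Prop :=
  (2 : ℝ) ^ (((sqn a : ℝ) / 16 - x ^ 2 / 8 - ε) * N.primeFactors.card) ≤
    (((rad N).divisors.filter fun d : ℕ => x * √(N.primeFactors.card : ℝ) ≤ wr a (d : ℤ)).card : ℝ)

variable {hv : Vz a T} {L : LB T} (H : FactsZ) (P : hv.Lo L)

include P

theorem frVz (γ : Option T → ZMod 2) (hOMV : S_OMV) : finrank (ZMod 2) (hv.cu L γ).V = 2 := by
  rw [(hOMV T (hv.cu L γ) ⊥).2.2.2.1]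
  rfl

include H

theorem pl (γ ρ : Option T → ZMod 2) : Pl (P.d γ ρ).ω where
  alt := fun x => (P.ok γ ρ).alt x
  nd := fun x hx => (P.ok γ ρ).nd x hx
  dim := frVz P γ H.omv

theorem sym (γ ρ : Option T → ZMod 2) : (P.d γ ρ).Sym := (P.ok γ ρ).toSym

/-- the Selmer rank of the twist -/
theorem wr_tt {S : Finset ℕ} (hS : ∀ p ∈ S, p.Prime ∧ p ∉ T) (γ : Option T → ZMod 2)
    (σ : S → ZMod 2) (hne : tt γ σ ≠ 0) :
    dS (P.d γ (∑ p, σ p • lbl T p)) S σ = 2 + wr a (tt γ σ) := by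
  have h1 := (P.sel1 hS γ σ (fun x => σ x ≠ 0) fun _ => Iff.rfl).2
  have h2 : (SelJ (tw (tt γ σ) a)).ncard = 2 ^ (2 + wr a (tt γ σ)) :=
    (P.fct H.ell _ hne).1
  have h3 : 2 ^ (2 + wr a (tt γ σ)) = 2 ^ dS (P.d γ (∑ p, σ p • lbl T p)) S σ := by
    rw [← h2]
    exact h1
  exact (Nat.pow_right_injective le_rfl h3).symm

/-- the number of the divisors is at most the number of the families of primes -/
theorem cnt_U {M N : ℕ} (hM : M ≠ 0) (hN : N ≠ 0) (hMT : ∀ p : ℕ, p.Prime → p ∣ M → p ∈ T) (k : ℕ) :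
    ((sd (rad (M * N))).filter fun d => k ≤ wr a d).card ≤
      ∑ γ : Option T → ZMod 2, ∑ ρ : Option T → ZMod 2,
        Nat.card {σ : (nD T (rad N : ℤ)).primeFactors → ZMod 2 //
          k ≤ dS (P.d γ ρ) (nD T (rad N : ℤ)).primeFactors σ} := by
  obtain ⟨S, hSd⟩ : ∃ S, S = (nD T (rad N : ℤ)).primeFactors := ⟨_, rfl⟩
  have hS : ∀ p ∈ S, p.Prime ∧ p ∉ T := by
    rw [hSd]
    exact pf_S L (rad_sq N)
  rw [← hSd]
  have h1 : (sd (rad (M * N))).filter (fun d => k ≤ wr a d) ⊆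
      (univ : Finset (Option T → ZMod 2)).biUnion fun γ =>
        (univ : Finset (Option T → ZMod 2)).biUnion fun ρ =>
          (univ.filter fun σ : S → ZMod 2 => k ≤ dS (P.d γ ρ) S σ).image fun σ => tt γ σ := by
    intro t ht
    obtain ⟨h2, h3⟩ := mem_filter.1 ht
    have htd := (mem_sd (rad_pos _).ne').1 h2
    have hts : Squarefree t := sd_sq (rad_sq _) h2
    have h4 : (nD T t).primeFactors ⊆ S := by
      intro p hp
      obtain ⟨p1, p2, p3⟩ := (nD_pf L hts).1 hp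
      rw [hSd, mem_pS L hN]
      refine ⟨?_, p3⟩
      have p4 : p ∣ M * N := (Int.natCast_dvd_natCast.1 (p2.trans htd)).trans (rad_dvd _)
      rcases (Nat.Prime.dvd_mul p1).1 p4 with h5 | h5
      · exact absurd (hMT p p1 h5) p3
      · exact Nat.mem_primeFactors.2 ⟨p1, h5, hN⟩
    have h5 := tt_of L hts h4
    obtain ⟨σ, hσ⟩ : ∃ σ : S → ZMod 2, σ = fun p : S => if (p : ℕ) ∈ (nD T t).primeFactors
      then (1 : ZMod 2) else 0 := ⟨_, rfl⟩
    rw [← hσ] at h5
    have h6 := wr_tt H P hS (ct t) σ (by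
      rw [h5]
      exact hts.ne_zero)
    rw [h5] at h6
    refine mem_biUnion.2 ⟨ct t, mem_univ _, mem_biUnion.2 ⟨∑ p, σ p • lbl T p, mem_univ _,
      Finset.mem_image.2 ⟨σ, mem_filter.2 ⟨mem_univ _, ?_⟩, h5⟩⟩⟩
    rw [h6]
    omega
  refine (Finset.card_le_card h1).trans (Finset.card_biUnion_le.trans ?_)
  refine Finset.sum_le_sum fun γ _ => Finset.card_biUnion_le.trans (Finset.sum_le_sum fun ρ _ => ?_)
  refine Finset.card_image_le.trans (le_of_eq ?_)
  rw [nc]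

/-- **The upper bound for one integer.** -/
theorem det_U {κ : ℝ} {M N : ℕ} (hM : M ≠ 0) (hN : N ≠ 0) (hMT : ∀ p : ℕ, p.Prime → p ∣ M → p ∈ T)
    {ε₁ ε : ℝ} (hε₁ : 0 < ε₁)
    (hPU : ∀ γ ρ : Option T → ZMod 2, PU κ (P.d γ ρ) ε₁ (nD T (rad N : ℤ)).primeFactors)
    (hω : 8 * T.card ≤ N.primeFactors.card)
    (hε : 2 * ((T.card : ℝ) + 1) + ε₁ * N.primeFactors.card ≤ ε * N.primeFactors.card) :
    Bu a κ M ε N := by
  intro k hk
  obtain ⟨c1, c2⟩ := card_pS L hN (T := T)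
  obtain ⟨ω, hωd⟩ : ∃ ω, ω = N.primeFactors.card := ⟨_, rfl⟩
  obtain ⟨s, hs⟩ : ∃ s, s = (nD T (rad N : ℤ)).primeFactors.card := ⟨_, rfl⟩
  rw [← hωd] at hk hω hε c1 c2 ⊢
  rw [← hs] at c1 c2
  have hk8 : k ^ 2 ≤ 8 * s := by omega
  have h1 := cnt_U H P hM hN hMT k
  have h2 : (((sd (rad (M * N))).filter fun d => k ≤ wr a d).card : ℝ) ≤
      ∑ γ : Option T → ZMod 2, ∑ ρ : Option T → ZMod 2,
        (Nat.card {σ : (nD T (rad N : ℤ)).primeFactors → ZMod 2 //
          k ≤ dS (P.d γ ρ) (nD T (rad N : ℤ)).primeFactors σ} : ℝ) := by exact_mod_cast h1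
  have hsω : (s : ℝ) ≤ ω := by exact_mod_cast c1
  have h3 : ∀ γ ρ : Option T → ZMod 2, (Nat.card {σ : (nD T (rad N : ℤ)).primeFactors → ZMod 2 //
          k ≤ dS (P.d γ ρ) (nD T (rad N : ℤ)).primeFactors σ} : ℝ) ≤
      (2 : ℝ) ^ (ε₁ * ω) * ((2 : ℝ) ^ ((ω : ℝ) - (k : ℝ) ^ 2 / (2 * κ)) +
        (2 : ℝ) ^ (((ω : ℝ) - (k : ℝ) ^ 2 / (2 * κ)) / 4)) := by
    intro γ ρ
    have h4 := hPU γ ρ k (by rw [← hs]; exact hk8)
    rw [← hs] at h4
    refine h4.trans ?_
    refine mul_le_mul (two_rpow_mono L (mul_le_mul_of_nonneg_left hsω hε₁.le))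
      (add_le_add (two_rpow_mono L ?_) (two_rpow_mono L ?_)) (by positivity) (by positivity)
    · linarith
    · linarith
  have h4 := h2.trans (Finset.sum_le_sum fun γ _ => Finset.sum_le_sum fun ρ _ => h3 γ ρ)
  rw [Finset.sum_const, Finset.sum_const, card_univ, smul_smul, nsmul_eq_mul] at h4
  have h5 : Fintype.card (Option T → ZMod 2) = 2 ^ (T.card + 1) := by
    rw [← Nat.card_eq_fintype_card]
    exact card_lab
  rw [h5] at h4
  refine h4.trans ?_
  rw [← mul_assoc]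
  refine mul_le_mul_of_nonneg_right ?_ (by positivity)
  have h6 : (((2 ^ (T.card + 1) * 2 ^ (T.card + 1) : ℕ)) : ℝ) =
      (2 : ℝ) ^ (2 * ((T.card : ℝ) + 1)) := by
    rw [← pow_add]
    push_cast
    rw [← Real.rpow_natCast]
    congr 1
    push_cast
    ring
  rw [h6, ← Real.rpow_add two_pos]
  exact two_rpow_mono L hε

/-- the share of the labels with trivial operator -/
theorem pi_eq (HM : FactsM) : πT (P.d 0 0) = (sqn a : ℝ) / 16 := by
  have h1 := HM.tz T L.pr (hv.cu L 0) rfl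
  have h2 : sqn (hv.cu L 0).a = sqn a := by
    have h3 : ((hv.cu L 0).a : Fin 3 → ℤ) = a := by
      funext i
      show Uo (0 : Option T → ZMod 2) * a i = a i
      rw [Uo_zero', one_mul]
    exact congrArg sqn h3
  rw [h2, nc] at h1
  have h3 : Nat.card {φ : Option T → ZMod 2 // (hv.cu L 0).TT φ = 0} =
      Nat.card {φ : Option T → ZMod 2 // (P.d 0 0).T φ = 0} := rfl
  rw [h3] at h1
  have h4 : (16 : ℝ) * Nat.card {φ : Option T → ZMod 2 // (P.d 0 0).T φ = 0} =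
      2 ^ (T.card + 1) * sqn a := by exact_mod_cast h1
  unfold πT
  rw [div_eq_div_iff (by positivity) (by norm_num)]
  linarith

/-- **The lower bound for one integer.** -/
theorem det_L (HM : FactsM) {N : ℕ} (hN : N ≠ 0) {x x₁ ε ε₁ : ℝ}
    (hPL : PL (P.d 0 0) x₁ ε₁ (nD T (rad N : ℤ)).primeFactors)
    (h1 : x * √(N.primeFactors.card : ℝ) + 4 * ((T.card : ℝ) + 1) + 2 ≤
      2 * (x₁ * √((nD T (rad N : ℤ)).primeFactors.card : ℝ)))
    (h2 : ((sqn a : ℝ) / 16 - x ^ 2 / 8 - ε) * N.primeFactors.card ≤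
      ((sqn a : ℝ) / 16 - x₁ ^ 2 / 2 - ε₁) * (nD T (rad N : ℤ)).primeFactors.card) :
    Bl a x ε N := by
  unfold PL at hPL
  rw [pi_eq H P HM] at hPL
  obtain ⟨S, hSd⟩ : ∃ S, S = (nD T (rad N : ℤ)).primeFactors := ⟨_, rfl⟩
  have hS : ∀ p ∈ S, p.Prime ∧ p ∉ T := by
    rw [hSd]
    exact pf_S L (rad_sq N)
  rw [← hSd] at hPL h1 h2
  unfold Bl
  refine (two_rpow_mono L h2).trans (hPL.trans (Nat.cast_le.2 ?_))
  rw [← nc (i₁ := inferInstance) (i₂ := fun _ => Classical.propDecidable _)]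
  refine Finset.card_le_card_of_injOn (fun σ => (tt (0 : Option T → ZMod 2) σ).natAbs) ?_ ?_
  · intro σ hσ
    rw [Finset.mem_coe, mem_filter] at hσ
    obtain ⟨-, hσ⟩ := hσ
    rw [Finset.mem_coe, mem_filter]
    have e1 : tt (0 : Option T → ZMod 2) σ = ((∏ p ∈ acS σ, p : ℕ) : ℤ) := by
      rw [tt_eq, Uo_zero', one_mul]
    have e2 : (tt (0 : Option T → ZMod 2) σ).natAbs = ∏ p ∈ acS σ, p := by
      rw [e1, Int.natAbs_natCast]
    have hpos : 0 < ∏ p ∈ acS σ, p := Finset.prod_pos fun p hp => (hS p (mem_acS.1 hp).1).1.pos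
    have hne : tt (0 : Option T → ZMod 2) σ ≠ 0 := by
      rw [e1]
      exact_mod_cast hpos.ne'
    refine ⟨?_, ?_⟩
    · show (tt (0 : Option T → ZMod 2) σ).natAbs ∈ (rad N).divisors
      rw [e2, Nat.mem_divisors]
      refine ⟨?_, (rad_pos N).ne'⟩
      unfold rad
      refine Finset.prod_dvd_prod_of_subset _ _ _ fun p hp => ?_
      have h3 := (mem_acS.1 hp).1
      rw [hSd, mem_pS L hN] at h3
      exact h3.1
    · show x * √(N.primeFactors.card : ℝ) ≤ wr a (((tt (0 : Option T → ZMod 2) σ).natAbs : ℕ) : ℤ)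
      rw [e2, ← e1]
      have h3 := wr_tt H P hS 0 σ hne
      have h4 : dS (P.d 0 0) S σ ≤ dS (P.d 0 (∑ p, σ p • lbl T p)) S σ +
          2 * Fintype.card (Option T) :=
        dZ_diff (P.d 0 0) (P.d 0 (∑ p, σ p • lbl T p)) rfl (P.ok 0 _).card
          (frVz P 0 H.omv) S _
      have hcs : Fintype.card (Option T) = T.card + 1 := by
        rw [Fintype.card_option, Fintype.card_coe]
      rw [hcs, h3] at h4
      have h5 : (dS (P.d 0 0) S σ : ℝ) ≤ 2 + wr a (tt (0 : Option T → ZMod 2) σ) +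
          2 * (T.card + 1) := by exact_mod_cast h4
      linarith
  · intro σ _ σ' _ h
    have e1 : ∀ σ : S → ZMod 2, ((tt (0 : Option T → ZMod 2) σ).natAbs : ℤ) =
        tt (0 : Option T → ZMod 2) σ := by
      intro σ
      have e1 : tt (0 : Option T → ZMod 2) σ = ((∏ p ∈ acS σ, p : ℕ) : ℤ) := by
        rw [tt_eq, Uo_zero', one_mul]
      rw [e1, Int.natAbs_natCast]
    have h' : (tt (0 : Option T → ZMod 2) σ).natAbs = (tt (0 : Option T → ZMod 2) σ').natAbs := h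
    have h2 : tt (0 : Option T → ZMod 2) σ = tt (0 : Option T → ZMod 2) σ' := by
      rw [← e1 σ, ← e1 σ', h']
    exact tt_inj L hS h2

end curve

end Q44.MX
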