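import Pool.Agent.Q44.MX.OneG

/-!
# MX-PAIR: moments for two sets (copy of the file of helper227 without the tactic convert)
-/

set_option autoImplicit false

namespace Q44.MX.OneG

open Finset Module Q44.MX Q227.MX
open scoped Classical

theorem card_od' {Q : Type} [Fintype Q] (ν : Sym2 Q → ZMod 2) (S : Finset (Sym2 Q → ZMod 2))
    (hS : ∀ a, a ∈ S ↔ Od a ν) : S.card = 2 ^ Fintype.card Q := by
  rw [← card_od ν]
  congr 1
  ext a
  simp [hS]

theorem ut_mono (s : ℕ) {c c' : ℕ} (h : c ≤ c') : ut s c ≤ ut s c' := by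
  unfold ut
  exact prod_le_prod' fun i _ => Nat.sub_le_sub_right (Nat.pow_le_pow_right (by norm_num) h) _

theorem ut_diag_succ (c : ℕ) : ut (c + 1) (c + 1) = ut c c * 2 ^ c * (2 ^ (c + 1) - 1) := by
  unfold ut
  rw [prod_range_succ', pow_zero]
  congr 1
  have : ∀ i ∈ range c, 2 ^ (c + 1) - 2 ^ (i + 1) = (2 ^ c - 2 ^ i) * 2 := by
    intro i _
    rw [pow_succ, pow_succ, Nat.sub_mul]
  rw [prod_congr rfl this, prod_mul_distrib, prod_const, card_range]

theorem ut_diag_lower (c : ℕ) : (2 : ℝ) ^ ((c + 1) * (c + 1)) * (1 / 4 + 1 / 2 ^ (c + 2)) ≤ (ut (c + 1) (c + 1) : ℝ) := by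
  induction c with
  | zero => norm_num [ut]
  | succ c ih =>
    rw [ut_diag_succ, Nat.cast_mul, Nat.cast_mul, Nat.cast_sub (Nat.one_le_two_pow)]
    push_cast
    have h1 : (0 : ℝ) ≤ 2 ^ (c + 1) * (2 ^ (c + 1 + 1) - 1) := by
      have : (1 : ℝ) ≤ 2 ^ (c + 1 + 1) := one_le_pow₀ (by norm_num)
      have h3 : (0 : ℝ) < 2 ^ (c + 1) := by positivity
      exact mul_nonneg h3.le (by linarith)
    calc (2 : ℝ) ^ ((c + 1 + 1) * (c + 1 + 1)) * (1 / 4 + 1 / 2 ^ (c + 1 + 2))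
        ≤ 2 ^ ((c + 1) * (c + 1)) * (1 / 4 + 1 / 2 ^ (c + 2)) * (2 ^ (c + 1) * (2 ^ (c + 1 + 1) - 1)) := by
          have e1 : (2 : ℝ) ^ ((c + 1 + 1) * (c + 1 + 1)) =
              2 ^ ((c + 1) * (c + 1)) * (2 ^ (c + 1) * 2 ^ (c + 2)) := by
            rw [← pow_add, ← pow_add]
            congr 1
            ring
          rw [e1, mul_assoc, mul_assoc ((2 : ℝ) ^ ((c + 1) * (c + 1))) (1 / 4 + 1 / 2 ^ (c + 2))]
          refine mul_le_mul_of_nonneg_left ?_ (pow_nonneg (by norm_num : (0 : ℝ) ≤ 2) _)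
          set x : ℝ := 2 ^ c with hx
          have hx1 : (1 : ℝ) ≤ x := one_le_pow₀ (by norm_num)
          have e2 : (2 : ℝ) ^ (c + 1) = 2 * x := by rw [pow_succ]; ring
          have e3 : (2 : ℝ) ^ (c + 2) = 4 * x := by rw [pow_add]; ring
          have e4 : (2 : ℝ) ^ (c + 1 + 2) = 8 * x := by rw [pow_add, pow_succ]; ring
          rw [e2, e3, e4]
          have hx0 : (0 : ℝ) < x := by linarith
          have e6 : 2 * x * (4 * x) * (1 / 4 + 1 / (8 * x)) = 2 * x ^ 2 + x := by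
            field_simp
            ring
          have e7 : (1 / 4 + 1 / (4 * x)) * (2 * x * (4 * x - 1)) = 2 * x ^ 2 + 2 * x - x / 2 - 1 / 2 := by
            field_simp
            ring
          rw [e6, e7]
          linarith
      _ ≤ _ := by
          rw [mul_assoc ((ut (c + 1) (c + 1) : ℕ) : ℝ)]
          exact mul_le_mul_of_nonneg_right ih h1

theorem few (h2 : S_SYM) (Q : Type) [Fintype Q] (c : ℕ) (S : Finset (Sym2 Q → ZMod 2))
    (hS : ∀ a ∈ S, c < ck a) :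
    (S.card : ℝ) ≤ 2 ^ Fintype.card (Sym2 Q) * (4 / 2 ^ (c ^ 2 / 2)) := by
  have h := sum_ut_le h2 Q (c + 1)
  have h1 : (S.card : ℝ) * (ut (c + 1) (c + 1) : ℝ) ≤ ∑ a : Sym2 Q → ZMod 2, (ut (c + 1) (ck a) : ℝ) := by
    calc (S.card : ℝ) * (ut (c + 1) (c + 1) : ℝ) = ∑ a ∈ S, (ut (c + 1) (c + 1) : ℝ) := by
          rw [sum_const, nsmul_eq_mul]
      _ ≤ ∑ a ∈ S, (ut (c + 1) (ck a) : ℝ) := sum_le_sum fun a ha => by
          exact_mod_cast ut_mono (c + 1) (hS a ha)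
      _ ≤ _ := sum_le_sum_of_subset_of_nonneg (subset_univ _) fun _ _ _ => Nat.cast_nonneg _
  have h3 := ut_diag_lower c
  have h4 : (2 : ℝ) ^ ((c + 1) * (c + 1)) / 4 ≤ (ut (c + 1) (c + 1) : ℝ) := by
    refine le_trans ?_ h3
    have h9 : (0 : ℝ) ≤ 2 ^ ((c + 1) * (c + 1)) * (1 / 2 ^ (c + 2)) := by positivity
    generalize (2 : ℝ) ^ ((c + 1) * (c + 1)) = X at *
    rw [mul_add]
    linarith
  have h5 : (c + 1) * (c + 1 - 1) / 2 + c ^ 2 / 2 ≤ (c + 1) * (c + 1) := by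
    rw [Nat.add_sub_cancel]
    have a1 : (c + 1) * c / 2 * 2 ≤ (c + 1) * c := Nat.div_mul_le_self _ _
    have a2 : c ^ 2 / 2 * 2 ≤ c ^ 2 := Nat.div_mul_le_self _ _
    nlinarith
  have h6 : (S.card : ℝ) * (2 ^ ((c + 1) * (c + 1)) / 4) ≤
      2 ^ Fintype.card (Sym2 Q) * 2 ^ ((c + 1) * (c + 1 - 1) / 2) :=
    (mul_le_mul_of_nonneg_left h4 (Nat.cast_nonneg _)).trans (h1.trans h)
  have hp : (0 : ℝ) < 2 ^ ((c + 1) * (c + 1)) / 4 := by positivity
  refine le_of_mul_le_mul_right (h6.trans ?_) hp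
  have h7 : (2 : ℝ) ^ ((c + 1) * (c + 1 - 1) / 2) * 2 ^ (c ^ 2 / 2) ≤ 2 ^ ((c + 1) * (c + 1)) := by
    rw [← pow_add]
    exact pow_le_pow_right₀ (by norm_num) h5
  have h8 : (2 : ℝ) ^ Fintype.card (Sym2 Q) * (4 / 2 ^ (c ^ 2 / 2)) * (2 ^ ((c + 1) * (c + 1)) / 4) =
      2 ^ Fintype.card (Sym2 Q) * (2 ^ ((c + 1) * (c + 1)) / 2 ^ (c ^ 2 / 2)) := by
    ring
  rw [h8]
  refine mul_le_mul_of_nonneg_left ?_ (by positivity)
  rw [le_div_iff₀ (by positivity)]
  exact h7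

section

variable {ι : Type} [Fintype ι]

theorem cr_congr {B : Finset ι} {g g' : Sym2 ι → ZMod 2}
    (h : ∀ p ∈ B, ∀ q ∈ B, p ≠ q → g s(p, q) = g' s(p, q)) : cr g B = cr g' B := by
  have : lap g B = lap g' B := by
    refine LinearMap.ext fun x => funext fun p => ?_
    simp only [lap, LinearMap.coe_mk, AddHom.coe_mk]
    refine sum_congr rfl fun q _ => ?_
    by_cases hpq : (p : ι) = q
    · have : p = q := Subtype.ext hpq
      rw [this, CharTwo.add_self_eq_zero, mul_zero, mul_zero]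
    · rw [h p p.2 q q.2 hpq]
  unfold cr
  rw [this]

/-- the pairs which are not pairs of different elements of `σ` -/
noncomputable def Es (σ : Finset ι) : Finset (Sym2 ι) :=
  univ.filter fun z => ¬ ∃ p ∈ σ, ∃ q ∈ σ, p ≠ q ∧ z = s(p, q)

theorem not_mem_Es {σ : Finset ι} {z : Sym2 ι} : z ∉ Es σ ↔ ∃ p ∈ σ, ∃ q ∈ σ, p ≠ q ∧ z = s(p, q) := by
  simp [Es]

theorem mem_Agr {σ : Finset ι} {ν g : Sym2 ι → ZMod 2} :
    g ∈ Agr σ ν ↔ ∀ p ∈ σ, ∀ q ∈ σ, p ≠ q → g s(p, q) = ν s(p, q) := by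
  simp [Agr]

theorem card_Agr (σ : Finset ι) (ν : Sym2 ι → ZMod 2) : (Agr σ ν).card = 2 ^ (Es σ).card := by
  refine card_fix (Es σ) ν _ fun g => ?_
  rw [mem_Agr]
  constructor
  · intro h z hz
    obtain ⟨p, hp, q, hq, hpq, rfl⟩ := not_mem_Es.1 hz
    exact h p hp q hq hpq
  · intro h p hp q hq hpq
    exact h _ (not_mem_Es.2 ⟨p, hp, q, hq, hpq, rfl⟩)

/-- mixing -/
noncomputable def mix (B' : Finset ι) (g g' : Sym2 ι → ZMod 2) : Sym2 ι → ZMod 2 :=
  fun z => if z ∈ B'.sym2 then g' z else g z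

theorem mix_mix (B' : Finset ι) (g g' : Sym2 ι → ZMod 2) :
    mix B' (mix B' g g') (mix B' g' g) = g := by
  funext z
  unfold mix
  by_cases h : z ∈ B'.sym2
  · simp only [if_pos h]
  · simp only [if_neg h]

theorem mix_Agr {σ B' : Finset ι} {ν g g' : Sym2 ι → ZMod 2} (hg : g ∈ Agr σ ν) (hg' : g' ∈ Agr σ ν) :
    mix B' g g' ∈ Agr σ ν := by
  rw [mem_Agr] at *
  intro p hp q hq hpq
  unfold mix
  split_ifs
  · exact hg' p hp q hq hpq
  · exact hg p hp q hq hpq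

theorem indep (B B' : Finset ι) (ν : Sym2 ι → ZMod 2) (f : ℕ → ℝ) :
    (∑ g ∈ Agr (B ∩ B') ν, f (cr g B) * f (cr g B')) * ((Agr (B ∩ B') ν).card : ℝ) =
      (∑ g ∈ Agr (B ∩ B') ν, f (cr g B)) * ∑ g ∈ Agr (B ∩ B') ν, f (cr g B') := by
  set S := Agr (B ∩ B') ν with hS
  have key : ∑ z ∈ S ×ˢ S, f (cr z.1 B) * f (cr z.1 B') = ∑ z ∈ S ×ˢ S, f (cr z.1 B) * f (cr z.2 B') := by
    have hmem : ∀ z ∈ S ×ˢ S, (mix B' z.1 z.2, mix B' z.2 z.1) ∈ S ×ˢ S := by
      intro z hz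
      obtain ⟨h1, h2⟩ := mem_product.1 hz
      exact mem_product.2 ⟨mix_Agr h1 h2, mix_Agr h2 h1⟩
    symm
    refine sum_nbij' (fun z => (mix B' z.1 z.2, mix B' z.2 z.1)) (fun z => (mix B' z.1 z.2, mix B' z.2 z.1))
      hmem hmem ?_ ?_ ?_
    · intro z _
      exact Prod.ext (mix_mix B' z.1 z.2) (mix_mix B' z.2 z.1)
    · intro z _
      exact Prod.ext (mix_mix B' z.1 z.2) (mix_mix B' z.2 z.1)
    · intro z hz
      obtain ⟨h1, h2⟩ := mem_product.1 hz
      rw [hS, mem_Agr] at h1 h2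
      have e1 : cr z.1 B = cr (mix B' z.1 z.2) B := by
        refine cr_congr fun p hp q hq hpq => ?_
        unfold mix
        split_ifs with h
        · rw [mem_sym2_iff] at h
          have hp' := h p (by simp)
          have hq' := h q (by simp)
          rw [h1 p (mem_inter.2 ⟨hp, hp'⟩) q (mem_inter.2 ⟨hq, hq'⟩) hpq,
            h2 p (mem_inter.2 ⟨hp, hp'⟩) q (mem_inter.2 ⟨hq, hq'⟩) hpq]
        · rfl
      have e2 : cr z.2 B' = cr (mix B' z.1 z.2) B' := by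
        refine cr_congr fun p hp q hq hpq => ?_
        unfold mix
        rw [if_pos]
        rw [mem_sym2_iff]
        intro a ha
        rcases Sym2.mem_iff.1 ha with rfl | rfl
        · exact hp
        · exact hq
      dsimp only
      rw [← e1, ← e2]
  rw [sum_product, sum_product] at key
  simp only [sum_const, nsmul_eq_mul] at key
  rw [sum_mul_sum, ← key, sum_mul]
  exact sum_congr rfl fun g _ => mul_comm _ _

theorem average (σ : Finset ι) (Φ : (Sym2 ι → ZMod 2) → ℝ) :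
    (∑ g, Φ g) * (2 ^ (Es σ).card : ℝ) = ∑ ν, ∑ g ∈ Agr σ ν, Φ g := by
  have h1 : ∀ ν, ∑ g ∈ Agr σ ν, Φ g = ∑ g, if g ∈ Agr σ ν then Φ g else 0 := by
    intro ν
    rw [sum_ite_mem, univ_inter]
  simp only [h1]
  rw [sum_comm, sum_mul]
  refine sum_congr rfl fun g _ => ?_
  have h2 : ∀ ν, g ∈ Agr σ ν ↔ ν ∈ Agr σ g := by
    intro ν
    rw [mem_Agr, mem_Agr]
    exact ⟨fun h p hp q hq hpq => (h p hp q hq hpq).symm, fun h p hp q hq hpq => (h p hp q hq hpq).symm⟩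
  simp only [h2]
  rw [sum_ite_mem, univ_inter, sum_const, card_Agr, nsmul_eq_mul]
  push_cast
  ring

theorem card_Ta (σ : Finset ι) (a : Sym2 σ → ZMod 2) (T : Finset (Sym2 ι → ZMod 2))
    (hT : ∀ ν, ν ∈ T ↔ Od a (fun e => ν (e.map Subtype.val))) : T.card = 2 ^ (Es σ).card := by
  have hinj : Function.Injective (fun e : Sym2 σ => (e.map Subtype.val : Sym2 ι)) :=
    Sym2.map.injective Subtype.val_injective
  refine card_fix (Es σ) (Function.extend (fun e : Sym2 σ => (e.map Subtype.val : Sym2 ι)) a 0) _ fun ν => ?_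
  rw [hT]
  constructor
  · intro h z hz
    obtain ⟨p, hp, q, hq, hpq, rfl⟩ := not_mem_Es.1 hz
    have e1 := h ⟨p, hp⟩ ⟨q, hq⟩ (fun h' => hpq (by have hv := congrArg Subtype.val h'; exact hv))
    have e2 := hinj.extend_apply a 0 s((⟨p, hp⟩ : σ), ⟨q, hq⟩)
    dsimp only [Sym2.map_mk] at e1 e2
    rw [e2, e1]
  · intro h p q hpq
    have e2 := hinj.extend_apply a 0 s(p, q)
    have e1 := h s((p : ι), (q : ι)) (not_mem_Es.2 ⟨p, p.2, q, q.2, fun h' => hpq (Subtype.ext h'), rfl⟩)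
    dsimp only [Sym2.map_mk] at e1 e2 ⊢
    rw [e1, e2]

theorem sum_pd (h2 : S_SYM) (σ : Finset ι) (c : ℕ) :
    (∑ ν : Sym2 ι → ZMod 2, pd σ ν c) ≤ 2 ^ Fintype.card (Sym2 ι) * (4 / 2 ^ (c ^ 2 / 2)) := by
  -- the number of pairs
  have hpairs : (2 : ℝ) ^ Fintype.card (Sym2 σ) * 2 ^ (Es σ).card =
      2 ^ Fintype.card (Sym2 ι) * 2 ^ σ.card := by
    have e1 : ∑ a : Sym2 σ → ZMod 2, ∑ ν : Sym2 ι → ZMod 2,
        (if Od a (fun e => ν (e.map Subtype.val)) then (1 : ℝ) else 0) =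
        2 ^ Fintype.card (Sym2 σ) * 2 ^ (Es σ).card := by
      have : ∀ a : Sym2 σ → ZMod 2, ∑ ν : Sym2 ι → ZMod 2,
        (if Od a (fun e => ν (e.map Subtype.val)) then (1 : ℝ) else 0) = 2 ^ (Es σ).card := by
        intro a
        rw [sum_boole, card_Ta σ a _ (fun ν => by simp)]
        push_cast
        rfl
      simp only [this]
      rw [sum_const, card_univ, Fintype.card_fun, ZMod.card, nsmul_eq_mul]
      push_cast
      rfl
    have e2 : ∑ ν : Sym2 ι → ZMod 2, ∑ a : Sym2 σ → ZMod 2,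
        (if Od a (fun e => ν (e.map Subtype.val)) then (1 : ℝ) else 0) =
        2 ^ Fintype.card (Sym2 ι) * 2 ^ σ.card := by
      have : ∀ ν : Sym2 ι → ZMod 2, ∑ a : Sym2 σ → ZMod 2,
        (if Od a (fun e => ν (e.map Subtype.val)) then (1 : ℝ) else 0) = 2 ^ σ.card := by
        intro ν
        rw [sum_boole, card_od' (fun e => ν (e.map Subtype.val)) _ (fun a => by simp), Fintype.card_coe]
        push_cast
        rfl
      simp only [this]
      rw [sum_const, card_univ, Fintype.card_fun, ZMod.card, nsmul_eq_mul]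
      push_cast
      rfl
    rw [← e1, ← e2, sum_comm]
  have hsum : (∑ ν : Sym2 ι → ZMod 2, pd σ ν c) * 2 ^ σ.card =
      ((univ.filter fun a : Sym2 σ → ZMod 2 => c < ck a).card : ℝ) * 2 ^ (Es σ).card := by
    rw [sum_mul]
    have e1 : ∀ ν : Sym2 ι → ZMod 2, pd σ ν c * 2 ^ σ.card = ∑ a : Sym2 σ → ZMod 2,
        if c < ck a then (if Od a (fun e => ν (e.map Subtype.val)) then (1 : ℝ) else 0) else 0 := by
      intro ν
      unfold pd
      rw [div_mul_cancel₀ _ (by positivity), ← sum_boole]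
      refine sum_congr rfl fun a _ => ?_
      by_cases hc : c < ck a
      · simp [hc]
      · simp [hc]
    simp only [e1]
    rw [sum_comm]
    have e2 : ∀ a : Sym2 σ → ZMod 2, (∑ ν : Sym2 ι → ZMod 2,
        if c < ck a then (if Od a (fun e => ν (e.map Subtype.val)) then (1 : ℝ) else 0) else 0) =
        if c < ck a then (2 : ℝ) ^ (Es σ).card else 0 := by
      intro a
      by_cases hc : c < ck a
      · simp only [if_pos hc]
        rw [sum_boole, card_Ta σ a _ (fun ν => by simp)]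
        push_cast
        rfl
      · simp only [if_neg hc, sum_const_zero]
    simp only [e2]
    rw [← sum_filter, sum_const, nsmul_eq_mul]
  have hfew := few h2 σ c (univ.filter fun a : Sym2 σ → ZMod 2 => c < ck a) (fun a ha => (mem_filter.1 ha).2)
  have hfew' : ((univ.filter fun a : Sym2 σ → ZMod 2 => c < ck a).card : ℝ) ≤
      2 ^ Fintype.card (Sym2 σ) * (4 / 2 ^ (c ^ 2 / 2)) := by
    refine cast ?_ hfew
    congr
    all_goals exact Subsingleton.elim _ _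
  have hp : (0 : ℝ) < 2 ^ σ.card := by positivity
  refine le_of_mul_le_mul_right ?_ hp
  rw [hsum]
  calc ((univ.filter fun a : Sym2 σ → ZMod 2 => c < ck a).card : ℝ) * 2 ^ (Es σ).card
      ≤ 2 ^ Fintype.card (Sym2 σ) * (4 / 2 ^ (c ^ 2 / 2)) * 2 ^ (Es σ).card :=
        mul_le_mul_of_nonneg_right hfew' (by positivity)
    _ = (2 ^ Fintype.card (Sym2 σ) * 2 ^ (Es σ).card) * (4 / 2 ^ (c ^ 2 / 2)) := by ring
    _ = (2 ^ Fintype.card (Sym2 ι) * 2 ^ σ.card) * (4 / 2 ^ (c ^ 2 / 2)) := by rw [hpairs]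
    _ = _ := by ring

theorem pd_nonneg (σ : Finset ι) (ν : Sym2 ι → ZMod 2) (c : ℕ) : 0 ≤ pd σ ν c := by
  unfold pd
  positivity

theorem pd_le_one (σ : Finset ι) (ν : Sym2 ι → ZMod 2) (c : ℕ) : pd σ ν c ≤ 1 := by
  unfold pd
  rw [div_le_one (by positivity)]
  have h1 := card_od' (fun e : Sym2 σ => ν (e.map Subtype.val))
    (univ.filter fun a : Sym2 σ → ZMod 2 => Od a (fun e => ν (e.map Subtype.val))) (fun a => by simp)
  rw [Fintype.card_coe] at h1
  have h2 : (univ.filter fun a : Sym2 σ → ZMod 2 => Od a (fun e => ν (e.map Subtype.val)) ∧ c < ck a).card ≤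
      (univ.filter fun a : Sym2 σ → ZMod 2 => Od a (fun e => ν (e.map Subtype.val))).card :=
    card_le_card fun a ha => by
      rw [mem_filter] at ha ⊢
      exact ⟨ha.1, ha.2.1⟩
  rw [h1] at h2
  exact_mod_cast h2

end

theorem t_PAIR (h1 : S_COND) (h2 : S_SYM) : S_PAIR := by
  intro ι _ B B' s b t w hB hB' hsw hw
  set σ := B ∩ B' with hσ
  set M : ℝ := 2 ^ (s * (s - 1) / 2) * (1 + 4 / 2 ^ w) with hM
  set F : ℝ := 2 ^ (s * (s + b)) with hF
  set c := t - s - w with hc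
  have hs1 : B \ σ = B \ B' := by
    rw [hσ]
    ext x
    simp only [mem_sdiff, mem_inter]
    tauto
  have hs2 : B' \ σ = B' \ B := by
    rw [hσ]
    ext x
    simp only [mem_sdiff, mem_inter]
    tauto
  have hF0 : (0 : ℝ) < F := by positivity
  have hM0 : (0 : ℝ) < M := by positivity
  have hMF : M ≤ 3 * F := by
    have e1 : (2 : ℝ) ^ (s * (s - 1) / 2) ≤ F := by
      refine pow_le_pow_right₀ (by norm_num) ?_
      calc s * (s - 1) / 2 ≤ s * (s - 1) := Nat.div_le_self _ _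
        _ ≤ s * (s + b) := Nat.mul_le_mul_left _ (by omega)
    have e2 : (4 : ℝ) / 2 ^ w ≤ 2 := by
      rw [div_le_iff₀ (by positivity)]
      have : (2 : ℝ) ^ 1 ≤ 2 ^ w := pow_le_pow_right₀ (by norm_num) hw
      linarith
    calc M ≤ 2 ^ (s * (s - 1) / 2) * (1 + 2) := by
          rw [hM]
          exact mul_le_mul_of_nonneg_left (by linarith) (by positivity)
      _ ≤ F * (1 + 2) := mul_le_mul_of_nonneg_right e1 (by norm_num)
      _ = 3 * F := by ring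
  set K : ℝ := 2 ^ (Es σ).card with hK
  have hK0 : (0 : ℝ) < K := by positivity
  have hν : ∀ ν : Sym2 ι → ZMod 2, (∑ g ∈ Agr σ ν, ft s b (cr g B) * ft s b (cr g B')) ≤
      K * (M ^ 2 + 7 * F ^ 2 * pd σ ν c) := by
    intro ν
    have i1 := indep B B' ν (ft s b)
    rw [← hσ, card_Agr] at i1
    push_cast at i1
    rw [← hK] at i1
    have c1 := h1 ι B σ (by rw [hσ]; exact inter_subset_left) s b t w (by rw [hs1]; exact hB) hsw hw ν
    have c2 := h1 ι B' σ (by rw [hσ]; exact inter_subset_right) s b t w (by rw [hs2]; exact hB') hsw hw ν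
    rw [card_Agr] at c1 c2
    push_cast at c1 c2
    rw [← hK, ← hM, ← hF, ← hc] at c1 c2
    have p0 := pd_nonneg σ ν c
    have p1 := pd_le_one σ ν c
    set p := pd σ ν c with hp
    have n2 : (0 : ℝ) ≤ ∑ g ∈ Agr σ ν, ft s b (cr g B') := sum_nonneg fun g _ => ft_nonneg s b _
    have e1 : (∑ g ∈ Agr σ ν, ft s b (cr g B)) * ∑ g ∈ Agr σ ν, ft s b (cr g B') ≤
        (K * (M + F * p)) * (K * (M + F * p)) :=
      mul_le_mul c1 c2 n2 (by positivity)
    rw [← i1] at e1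
    have e2 : (∑ g ∈ Agr σ ν, ft s b (cr g B) * ft s b (cr g B')) ≤ K * (M + F * p) ^ 2 := by
      refine le_of_mul_le_mul_right (e1.trans (le_of_eq ?_)) hK0
      ring
    refine e2.trans (mul_le_mul_of_nonneg_left ?_ hK0.le)
    have e3 : F ^ 2 * p ^ 2 ≤ F ^ 2 * p := by
      refine mul_le_mul_of_nonneg_left ?_ (by positivity)
      nlinarith
    have e4 : M * (F * p) ≤ 3 * F * (F * p) := mul_le_mul_of_nonneg_right hMF (by positivity)
    nlinarith
  have hsum := sum_pd h2 σ c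
  have hav := average σ (fun g => ft s b (cr g B) * ft s b (cr g B'))
  rw [← hK] at hav
  have hle : (∑ g : Sym2 ι → ZMod 2, ft s b (cr g B) * ft s b (cr g B')) ≤
      ∑ ν : Sym2 ι → ZMod 2, (M ^ 2 + 7 * F ^ 2 * pd σ ν c) := by
    refine le_of_mul_le_mul_right ?_ hK0
    rw [hav, sum_mul]
    refine sum_le_sum fun ν _ => (hν ν).trans (le_of_eq ?_)
    ring
  refine hle.trans ?_
  rw [sum_add_distrib, sum_const, card_univ, Fintype.card_fun, ZMod.card, nsmul_eq_mul, ← mul_sum]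
  push_cast
  have hM2 : M ^ 2 = 2 ^ (s * (s - 1)) * (1 + 4 / 2 ^ w) ^ 2 := by
    rw [hM, mul_pow, ← pow_mul, Nat.div_mul_cancel (Nat.even_mul_pred_self s).two_dvd]
  have hF2 : (2 : ℝ) ^ (2 * (s * (s + b)) + 6) = 64 * F ^ 2 := by
    rw [hF, pow_add, pow_mul, ← pow_mul, ← pow_mul, mul_comm 2 (s * (s + b))]
    norm_num
    ring
  rw [hF2, ← hM2]
  have h3 : 7 * F ^ 2 * (∑ ν : Sym2 ι → ZMod 2, pd σ ν c) ≤
      7 * F ^ 2 * (2 ^ Fintype.card (Sym2 ι) * (4 / 2 ^ (c ^ 2 / 2))) :=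
    mul_le_mul_of_nonneg_left hsum (by positivity)
  have h4 : (7 : ℝ) * F ^ 2 * (2 ^ Fintype.card (Sym2 ι) * (4 / 2 ^ (c ^ 2 / 2))) ≤
      2 ^ Fintype.card (Sym2 ι) * (64 * F ^ 2 / 2 ^ (c ^ 2 / 2)) := by
    have e1 : (7 : ℝ) * F ^ 2 * (2 ^ Fintype.card (Sym2 ι) * (4 / 2 ^ (c ^ 2 / 2))) =
        28 * (F ^ 2 * 2 ^ Fintype.card (Sym2 ι) / 2 ^ (c ^ 2 / 2)) := by ring
    have e2 : (2 : ℝ) ^ Fintype.card (Sym2 ι) * (64 * F ^ 2 / 2 ^ (c ^ 2 / 2)) =
        64 * (F ^ 2 * 2 ^ Fintype.card (Sym2 ι) / 2 ^ (c ^ 2 / 2)) := by ring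
    rw [e1, e2]
    exact mul_le_mul_of_nonneg_right (by norm_num) (by positivity)
  rw [mul_add]
  linarith

end Q44.MX.OneG
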