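import Pool.Agent.Q280.MX.UbA

/-!
# Project MX: the upper bound for blocks (copy of the file of helper280 without the tactic convert)
-/

set_option autoImplicit false
set_option linter.unusedVariables false
set_option linter.unusedSectionVars false

namespace Q44.MX.UbG

open Finset Module
open Q44.MX
open Q280.MXU
open Pool.Agent.Y703.CQ (prs ext)
open Q44.JQ (Dj Bk Sel)
open scoped Classical

/-- the asymptotic inequality -/
theorem asym (K c : ℝ) (hK : 0 < K) (hc : 0 < c) :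
    ∃ n₀ : ℕ, ∀ n : ℕ, n₀ ≤ n → K * Real.logb 2 ((n : ℝ) + 1) ≤ c * √(n : ℝ) := by
  have h1 := (isLittleO_log_rpow_atTop (r := 1 / 2) (by norm_num)).def
    (show 0 < c * Real.log 2 / (2 * K) by have := Real.log_pos one_lt_two; positivity)
  have h2 : Filter.Tendsto (fun n : ℕ => (n : ℝ) + 1) Filter.atTop Filter.atTop :=
    Filter.tendsto_atTop_add_const_right _ _ tendsto_natCast_atTop_atTop
  obtain ⟨n₀, hn⟩ := Filter.eventually_atTop.1 (h2.eventually h1)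
  refine ⟨n₀ + 1, fun n hn' => ?_⟩
  have h3 := hn n (by omega)
  have hnR : (1 : ℝ) ≤ n := by exact_mod_cast (by omega : 1 ≤ n)
  have hl : 0 ≤ Real.log ((n : ℝ) + 1) := Real.log_nonneg (by linarith)
  rw [Real.norm_of_nonneg hl, Real.norm_of_nonneg (by positivity), ← Real.sqrt_eq_rpow] at h3
  have h4 : √((n : ℝ) + 1) ≤ 2 * √(n : ℝ) := by
    rw [Real.sqrt_le_left (by positivity), mul_pow, Real.sq_sqrt (by positivity)]
    linarith
  have hl2 : 0 < Real.log 2 := Real.log_pos one_lt_two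
  rw [Real.logb, mul_div_assoc', div_le_iff₀ hl2]
  calc K * Real.log (n + 1) ≤ K * (c * Real.log 2 / (2 * K) * √((n : ℝ) + 1)) :=
        mul_le_mul_of_nonneg_left h3 hK.le
    _ ≤ K * (c * Real.log 2 / (2 * K) * (2 * √(n : ℝ))) := by gcongr
    _ = c * √(n : ℝ) * Real.log 2 := by field_simp

/-- the parameters -/
theorem par (s' C Sz : ℝ) (hs : 0 ≤ s') (hC : 0 ≤ C) (hS : 1 ≤ Sz) (ε : ℝ) (hε : 0 < ε) :
    ∃ δ : ℝ, 0 < δ ∧ ∃ n₀ : ℕ, ∀ n u k k' : ℕ, n₀ ≤ n → (u : ℝ) ^ 2 ≤ δ * n → k ^ 2 ≤ 9 * n → k' ≤ k →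
      u + Sz * δ * n + C * (k' + 1) * Sz * Real.logb 2 ((n : ℝ) + 1) +
        (C * (k' + 1) + 1 + 2 * k * (2 * (s' + u + 1))) / 2 + Sz ≤ ε * n := by
  set d : ℝ := min 1 (ε / (2 * (7 + Sz))) with hd
  have hd0 : 0 < d := lt_min one_pos (by positivity)
  have hd1 : d ≤ 1 := min_le_left _ _
  have hd2 : (7 + Sz) * d ≤ ε / 2 := by
    have : d ≤ ε / (2 * (7 + Sz)) := min_le_right _ _
    rw [le_div_iff₀ (by positivity)] at this
    linarith
  obtain ⟨n₀, hn₀⟩ := asym (4 * C * Sz + 2 * C + 1 + 6 * (s' + 1) + Sz) (ε / 2) (by positivity) (by positivity)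
  refine ⟨d ^ 2, by positivity, n₀ + 1, fun n u k k' hn hu hk hkk => ?_⟩
  have h1 := hn₀ n (by omega)
  have hnR : (1 : ℝ) ≤ n := by exact_mod_cast (by omega : 1 ≤ n)
  set w : ℝ := √(n : ℝ) with hw
  have hw2 : w ^ 2 = n := Real.sq_sqrt (by positivity)
  have hw1 : 1 ≤ w := by
    rw [hw]; exact Real.one_le_sqrt.2 hnR
  set l : ℝ := Real.logb 2 ((n : ℝ) + 1) with hl
  have hl1 : 1 ≤ l := by
    rw [hl, Real.le_logb_iff_rpow_le one_lt_two (by positivity), Real.rpow_one]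
    linarith
  have hu' : (u : ℝ) ≤ d * w := by
    refine abs_le_of_sq_le_sq' ?_ (by positivity) |>.2
    rw [mul_pow, hw2]
    exact hu
  have hk' : (k : ℝ) ≤ 3 * w := by
    refine abs_le_of_sq_le_sq' ?_ (by positivity) |>.2
    rw [mul_pow, hw2]
    have : (k : ℝ) ^ 2 ≤ 9 * n := by exact_mod_cast hk
    linarith
  have hkk' : (k' : ℝ) ≤ k := by exact_mod_cast hkk
  have hk0 : (0 : ℝ) ≤ k' := Nat.cast_nonneg _
  have hu0 : (0 : ℝ) ≤ u := Nat.cast_nonneg _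
  rw [← hw2]
  have hwl : w ≤ w * l := by nlinarith
  have e1 : (k' : ℝ) + 1 ≤ 4 * w := by linarith
  have e2 : C * (k' + 1) * Sz * l ≤ 4 * C * Sz * (w * l) := by
    have : C * (k' + 1) * Sz * l ≤ C * (4 * w) * Sz * l := by gcongr
    linarith
  have e3 : C * (k' + 1) ≤ 4 * C * (w * l) := by
    have : C * (k' + 1) ≤ C * (4 * w) := by gcongr
    have h5 : C * w ≤ C * (w * l) := by gcongr
    linarith
  have e4 : (k : ℝ) * (s' + 1) ≤ 3 * (s' + 1) * (w * l) := by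
    have : (k : ℝ) * (s' + 1) ≤ (3 * w) * (s' + 1) := by gcongr
    have h5 : (s' + 1) * w ≤ (s' + 1) * (w * l) := by gcongr
    linarith
  have e5 : (k : ℝ) * u ≤ 3 * d * w ^ 2 := by
    have : (k : ℝ) * u ≤ (3 * w) * (d * w) := by gcongr
    linarith
  have e6 : (u : ℝ) ≤ d * w ^ 2 := by
    have : d * w ≤ d * w ^ 2 := by
      have : w ≤ w ^ 2 := by nlinarith
      gcongr
    linarith
  have e7 : Sz * d ^ 2 * w ^ 2 ≤ Sz * d * w ^ 2 := by
    have : d ^ 2 ≤ d := by nlinarith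
    gcongr
  have e8 : Sz ≤ Sz * (w * l) := by
    have : 1 ≤ w * l := by nlinarith
    nlinarith
  have e9 : (1 : ℝ) ≤ w * l := by nlinarith
  have e10 : (7 + Sz) * d * w ^ 2 ≤ ε / 2 * w ^ 2 := by gcongr
  have e11 : (4 * C * Sz + 2 * C + 1 + 6 * (s' + 1) + Sz) * (w * l) ≤ ε / 2 * w ^ 2 := by
    have := mul_le_mul_of_nonneg_right h1 (by positivity : 0 ≤ w)
    nlinarith
  nlinarith

section

variable {s V : Type} [Fintype s] [AddCommGroup V] [Module (ZMod 2) V] [Finite V] (D : Dj s V)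

/-- the heavy labels -/
noncomputable def hv {U ι : Type} [Fintype U] [Fintype ι] (b : Bk s U ι) (M : ℕ) (σ : U ⊕ ι → ZMod 2) :
    Finset (s → ZMod 2) :=
  univ.filter fun φ => M ≤ (univ.filter fun i => σ (Sum.inr i) ≠ 0 ∧ b.hJ i = φ).card

/-- the number of the supports with given heavy labels -/
theorem card_hv {U ι : Type} [Fintype U] [Fintype ι] (b : Bk s U ι) (M : ℕ) (𝒮 : Finset (s → ZMod 2)) :
    (univ.filter fun σ : U ⊕ ι → ZMod 2 => hv b M σ = 𝒮).card ≤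
      2 ^ Fintype.card U * 2 ^ (univ.filter fun i => b.hJ i ∈ 𝒮).card *
        (Fintype.card ι + 1) ^ (M * 2 ^ Fintype.card s) := by
  have h0 := card_sig (U := U) (ι := ι) (fun i => b.hJ i ∈ 𝒮) (M * 2 ^ Fintype.card s)
  have h0' : (univ.filter fun σ : U ⊕ ι → ZMod 2 => (univ.filter fun i => σ (Sum.inr i) ≠ 0 ∧
      ¬ b.hJ i ∈ 𝒮).card ≤ M * 2 ^ Fintype.card s).card ≤
      2 ^ Fintype.card U * 2 ^ (univ.filter fun i => b.hJ i ∈ 𝒮).card *
        (Fintype.card ι + 1) ^ (M * 2 ^ Fintype.card s) := by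
    refine cast ?_ h0
    congr
    funext σ
    congr
  refine le_trans (card_le_card ?_) h0'
  intro σ hσ
  rw [mem_filter] at hσ ⊢
  refine ⟨mem_univ _, ?_⟩
  have h1 : (univ.filter fun i => σ (Sum.inr i) ≠ 0 ∧ ¬ b.hJ i ∈ 𝒮) ⊆
      (univ \ 𝒮).biUnion fun φ => univ.filter fun i => σ (Sum.inr i) ≠ 0 ∧ b.hJ i = φ := by
    intro i hi
    rw [mem_filter] at hi
    rw [mem_biUnion]
    exact ⟨b.hJ i, mem_sdiff.2 ⟨mem_univ _, hi.2.2⟩, mem_filter.2 ⟨mem_univ _, hi.2.1, rfl⟩⟩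
  refine (card_le_card h1).trans (card_biUnion_le.trans ?_)
  have h2 : ∀ φ ∈ univ \ 𝒮, (univ.filter fun i => σ (Sum.inr i) ≠ 0 ∧ b.hJ i = φ).card ≤ M := by
    intro φ hφ
    have h3 : φ ∉ hv b M σ := by
      rw [hσ.2]
      exact (mem_sdiff.1 hφ).2
    by_contra hc
    push Not at hc
    exact h3 (mem_filter.2 ⟨mem_univ _, hc.le⟩)
  refine (sum_le_sum h2).trans ?_
  rw [sum_const, smul_eq_mul, mul_comm]
  refine Nat.mul_le_mul_left _ ?_
  refine (card_le_univ _).trans ?_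
  rw [Fintype.card_fun, ZMod.card]

/-- the number of the elements with label in `𝒮` -/
theorem card_lab {U ι : Type} [Fintype U] [Fintype ι] (b : Bk s U ι) (δ : ℝ) (hδ : 0 ≤ δ)
    (hb : ∀ φ : s → ZMod 2, ((univ.filter fun i => b.hJ i = φ).card : ℝ) ≤
      (1 / 2 ^ Fintype.card s + δ) * Fintype.card ι) (𝒮 : Finset (s → ZMod 2)) (c : ℕ) (hc0 : 0 < c)
    (hc : c * 𝒮.card ≤ 2 ^ Fintype.card s) :
    ((univ.filter fun i => b.hJ i ∈ 𝒮).card : ℝ) ≤ (Fintype.card ι : ℝ) / c +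
      2 ^ Fintype.card s * δ * Fintype.card ι := by
  have h1 : (univ.filter fun i => b.hJ i ∈ 𝒮).card ≤ ∑ φ ∈ 𝒮, (univ.filter fun i => b.hJ i = φ).card := by
    refine le_trans (card_le_card ?_) card_biUnion_le
    intro i hi
    rw [mem_biUnion]
    exact ⟨b.hJ i, (mem_filter.1 hi).2, mem_filter.2 ⟨mem_univ _, rfl⟩⟩
  have h2 : ((univ.filter fun i => b.hJ i ∈ 𝒮).card : ℝ) ≤
      ∑ φ ∈ 𝒮, ((univ.filter fun i => b.hJ i = φ).card : ℝ) := by exact_mod_cast h1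
  refine h2.trans ((sum_le_sum fun φ _ => hb φ).trans ?_)
  rw [sum_const, nsmul_eq_mul]
  have h3 : (c : ℝ) * 𝒮.card ≤ 2 ^ Fintype.card s := by exact_mod_cast hc
  have hcR : (0 : ℝ) < c := by exact_mod_cast hc0
  have hS : (0 : ℝ) < 2 ^ Fintype.card s := by positivity
  have hn : (0 : ℝ) ≤ Fintype.card ι := Nat.cast_nonneg _
  have h4 : (𝒮.card : ℝ) * (1 / 2 ^ Fintype.card s) ≤ 1 / c := by
    rw [mul_one_div, div_le_div_iff₀ hS hcR]
    linarith
  have h5 : (𝒮.card : ℝ) ≤ 2 ^ Fintype.card s := by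
    have : (1 : ℝ) ≤ c := by exact_mod_cast hc0
    have h0 : (0 : ℝ) ≤ 𝒮.card := Nat.cast_nonneg _
    nlinarith
  have h6 : (𝒮.card : ℝ) * ((1 / 2 ^ Fintype.card s + δ) * Fintype.card ι) =
      (𝒮.card * (1 / 2 ^ Fintype.card s)) * Fintype.card ι + 𝒮.card * (δ * Fintype.card ι) := by ring
  rw [h6]
  have h7 := mul_le_mul_of_nonneg_right h4 hn
  have h8 := mul_le_mul_of_nonneg_right h5 (mul_nonneg hδ hn)
  have h9 : (Fintype.card ι : ℝ) / c = 1 / c * Fintype.card ι := by ring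
  rw [h9]
  linarith

/-- the statement of the tail bound for one constant -/
def Tb (ω : V →ₗ[ZMod 2] V →ₗ[ZMod 2] ZMod 2) (C : ℕ) : Prop := ∀ (S : Set (Module.End (ZMod 2) V)) (c : ℕ),
  Ty c S → (∀ X ∈ S, Sa ω X) → ∀ (s U ι : Type) [Fintype s] [Fintype U] [Fintype ι] [LinearOrder ι]
  (D : Dj s V) (b : Bk s U ι) (A : U → Prop) (B : ι → Prop), D.Sym → D.ω = ω → ∀ k : ℕ,
  (∀ X ∈ S, C * (k + 1) ≤ (univ.filter fun i => B i ∧ ∃ e : ZMod 2, D.T (b.hJ i) = X + e • 1).card) →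
  (univ.filter fun α : prs (univ : Finset ι) → ZMod 2 =>
      k + 2 * (Fintype.card s + Fintype.card U + 1) ≤ rk D b A B α).card ^ 2 * 2 ^ (k ^ 2 / c) ≤
    (2 ^ (prs (univ : Finset ι)).card) ^ 2 * 2 ^ (C * (k + 1))

/-- the bound for one support -/
theorem per {U ι : Type} [Fintype U] [Fintype ι] [LinearOrder ι] (C : ℕ) (hC : Tb D.ω C)
    (hSym : D.Sym) (b : Bk s U ι) (k k' L : ℕ) (hL : L = 2 * (Fintype.card s + Fintype.card U + 1))
    (hk' : k' = k - L) (𝒮 : Finset (s → ZMod 2)) (c : ℕ) (S : Set (Module.End (ZMod 2) V)) (hT : Ty c S)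
    (hc : 0 < c) (hS : ∀ X ∈ S, ∃ φ ∈ 𝒮, X = D.T φ) (σ : U ⊕ ι → ZMod 2)
    (hσ : hv b (C * (k' + 1)) σ = 𝒮) :
    ((univ.filter fun α : prs (univ : Finset ι) → ZMod 2 => k ≤ rkB D b σ α).card : ℝ) ≤
      2 ^ (prs (univ : Finset ι)).card *
        (2 : ℝ) ^ (((C : ℝ) * (k' + 1) + 1 + 2 * k * L - (k : ℝ) ^ 2 / c) / 2) := by
  have hcR : (1 : ℝ) ≤ c := by exact_mod_cast hc
  have hk0 : (0 : ℝ) ≤ k := Nat.cast_nonneg _
  have hL0 : (0 : ℝ) ≤ L := Nat.cast_nonneg _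
  by_cases hkL : k < L
  · have h1 : ((univ.filter fun α : prs (univ : Finset ι) → ZMod 2 => k ≤ rkB D b σ α).card : ℝ) ≤
        2 ^ (prs (univ : Finset ι)).card := by
      have := card_le_univ (univ.filter fun α : prs (univ : Finset ι) → ZMod 2 => k ≤ rkB D b σ α)
      rw [Fintype.card_fun, ZMod.card, Fintype.card_coe] at this
      exact_mod_cast this
    refine h1.trans (le_mul_of_one_le_right (by positivity) ?_)
    refine Real.one_le_rpow one_le_two ?_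
    have h2 : (k : ℝ) ^ 2 / c ≤ k ^ 2 := div_le_self (by positivity) hcR
    have h3 : (k : ℝ) ≤ L := by exact_mod_cast hkL.le
    have h4 : (0 : ℝ) ≤ (C : ℝ) * (k' + 1) := by positivity
    nlinarith
  · push Not at hkL
    have h1 : ∀ X ∈ S, C * (k' + 1) ≤
        (univ.filter fun i => σ (Sum.inr i) ≠ 0 ∧ ∃ e : ZMod 2, D.T (b.hJ i) = X + e • 1).card := by
      intro X hX
      obtain ⟨φ, hφ, rfl⟩ := hS X hX
      rw [← hσ] at hφ
      refine (mem_filter.1 hφ).2.trans (card_le_card ?_)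
      intro i hi
      rw [mem_filter] at hi ⊢
      exact ⟨mem_univ _, hi.2.1, 0, by rw [hi.2.2, zero_smul, add_zero]⟩
    have h2 : ∀ X ∈ S, Sa D.ω X := by
      intro X hX
      obtain ⟨φ, hφ, rfl⟩ := hS X hX
      exact ⟨φ D.s₀, fun x y => hSym.adj φ x y⟩
    have h3 := hC S c hT h2 s U ι D b (fun u => σ (Sum.inl u) ≠ 0) (fun i => σ (Sum.inr i) ≠ 0) hSym rfl k'
      (fun X hX => by
        refine cast ?_ (h1 X hX)
        congr)
    rw [← hL, hk', Nat.sub_add_cancel hkL, ← hk'] at h3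
    set X := (univ.filter fun α : prs (univ : Finset ι) → ZMod 2 => k ≤ rkB D b σ α).card with hX
    set p := (prs (univ : Finset ι)).card with hp
    have h4 : (X : ℝ) ^ 2 * 2 ^ (k' ^ 2 / c) ≤ (2 ^ p) ^ 2 * 2 ^ (C * (k' + 1)) := by exact_mod_cast h3
    have h5 : (k' : ℝ) ^ 2 / c - 1 ≤ ((k' ^ 2 / c : ℕ) : ℝ) := by
      have h6 := Nat.div_add_mod (k' ^ 2) c
      have h7 := Nat.mod_lt (k' ^ 2) hc
      have h8 : ((k' ^ 2 : ℕ) : ℝ) ≤ c * ((k' ^ 2 / c : ℕ) : ℝ) + c := by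
        exact_mod_cast (by omega : k' ^ 2 ≤ c * (k' ^ 2 / c) + c)
      push_cast at h8
      rw [sub_le_iff_le_add, div_le_iff₀ (by linarith)]
      linarith
    have h9 : (k' : ℝ) = k - L := by
      rw [hk', Nat.cast_sub hkL]
    have h10 : (k : ℝ) ^ 2 / c - 2 * k * L ≤ (k' : ℝ) ^ 2 / c := by
      rw [h9]
      have h11 : ((k : ℝ) - L) ^ 2 / c = (k : ℝ) ^ 2 / c - 2 * k * L / c + (L : ℝ) ^ 2 / c := by ring
      rw [h11]
      have h12 : 2 * (k : ℝ) * L / c ≤ 2 * k * L := div_le_self (by positivity) hcR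
      have h13 : (0 : ℝ) ≤ (L : ℝ) ^ 2 / c := by positivity
      linarith
    refine abs_le_of_sq_le_sq' ?_ (by positivity) |>.2
    rw [mul_pow, ← Real.rpow_natCast ((2 : ℝ) ^ (_ : ℝ)) 2, ← Real.rpow_mul zero_le_two]
    have h14 : (2 : ℝ) ^ (((C : ℝ) * (k' + 1) + 1 + 2 * k * L - (k : ℝ) ^ 2 / c) / 2 * ((2 : ℕ) : ℝ)) =
        2 ^ (((C : ℝ) * (k' + 1) + 1 + 2 * k * L - (k : ℝ) ^ 2 / c)) := by
      congr 1
      push_cast
      ring
    rw [h14]
    have h15 : (X : ℝ) ^ 2 ≤ (2 ^ p) ^ 2 * 2 ^ (C * (k' + 1)) / 2 ^ (k' ^ 2 / c) := by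
      rw [le_div_iff₀ (by positivity)]
      exact h4
    refine h15.trans ?_
    rw [mul_div_assoc]
    refine mul_le_mul_of_nonneg_left ?_ (by positivity)
    rw [← Real.rpow_natCast, ← Real.rpow_natCast, ← Real.rpow_sub zero_lt_two]
    refine Real.rpow_le_rpow_of_exponent_le one_le_two ?_
    push_cast
    linarith

end

theorem interp (x : ℝ) (c : ℕ) (hc : c = 1 ∨ c = 2 ∨ c = 4) :
    (2 : ℝ) ^ (x / c) ≤ 2 ^ x + 2 ^ (x / 4) := by
  have h1 : (0 : ℝ) < 2 ^ x := by positivity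
  have h2 : (0 : ℝ) < 2 ^ (x / 4) := by positivity
  rcases le_or_gt 0 x with h | h
  · have h3 : (2 : ℝ) ^ (x / c) ≤ 2 ^ x := by
      refine Real.rpow_le_rpow_of_exponent_le one_le_two ?_
      rcases hc with rfl | rfl | rfl <;> push_cast <;> linarith
    linarith
  · have h3 : (2 : ℝ) ^ (x / c) ≤ 2 ^ (x / 4) := by
      refine Real.rpow_le_rpow_of_exponent_le one_le_two ?_
      rcases hc with rfl | rfl | rfl <;> push_cast <;> linarith
    linarith

theorem t_UB (h : S_TAILB) : S_UB := by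
  intro s V _ _ _ _ D hPl hSym hgen ε hε
  obtain ⟨C, hC⟩ := h V D.ω hPl
  obtain ⟨δ, hδ, n₀, hn₀⟩ := par (Fintype.card s) C (2 ^ Fintype.card s) (by positivity) (by positivity)
    (one_le_pow₀ one_le_two) ε hε
  refine ⟨δ, hδ, n₀, fun U ι _ _ _ b hn hU hb k hk => ?_⟩
  set n := Fintype.card ι with hn'
  set p := (prs (univ : Finset ι)).card with hp
  set L := 2 * (Fintype.card s + Fintype.card U + 1) with hL
  set k' := k - L with hk'
  set x : ℝ := (n : ℝ) - (k : ℝ) ^ 2 / 2 with hx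
  have hpar := hn₀ n (Fintype.card U) k k' hn hU hk (Nat.sub_le _ _)
  have h1 : ∑ α : prs (univ : Finset ι) → ZMod 2,
      ((univ.filter fun σ : U ⊕ ι → ZMod 2 => k ≤ rkB D b σ α).card : ℝ) =
      ∑ σ : U ⊕ ι → ZMod 2,
        ((univ.filter fun α : prs (univ : Finset ι) → ZMod 2 => k ≤ rkB D b σ α).card : ℝ) := by
    simp only [card_filter]
    push_cast
    rw [sum_comm]
  rw [h1, ← sum_fiberwise univ (hv b (C * (k' + 1)))]
  have key : ∀ 𝒮 : Finset (s → ZMod 2),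
      ∑ σ ∈ univ.filter (fun σ : U ⊕ ι → ZMod 2 => hv b (C * (k' + 1)) σ = 𝒮),
        ((univ.filter fun α : prs (univ : Finset ι) → ZMod 2 => k ≤ rkB D b σ α).card : ℝ) ≤
      2 ^ p * ((2 : ℝ) ^ (ε * n - 2 ^ Fintype.card s) * (2 ^ x + 2 ^ (x / 4))) := by
    intro 𝒮
    obtain ⟨c, S, hT, hc, hS, hcard⟩ := classify D hPl.dim hgen 𝒮
    have hc0 : 0 < c := by omega
    set g : ℝ := ((C : ℝ) * (k' + 1) + 1 + 2 * k * L - (k : ℝ) ^ 2 / c) / 2 with hg
    have e1 : ∀ σ ∈ univ.filter (fun σ : U ⊕ ι → ZMod 2 => hv b (C * (k' + 1)) σ = 𝒮),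
        ((univ.filter fun α : prs (univ : Finset ι) → ZMod 2 => k ≤ rkB D b σ α).card : ℝ) ≤
          2 ^ p * 2 ^ g := fun σ hσ =>
      per D C hC hSym b k k' L hL hk' 𝒮 c S hT hc0 hS σ (mem_filter.1 hσ).2
    refine (sum_le_sum e1).trans ?_
    rw [sum_const, nsmul_eq_mul]
    have e2 := card_hv b (C * (k' + 1)) 𝒮
    set m := (univ.filter fun i => b.hJ i ∈ 𝒮).card with hm
    have e3 : (m : ℝ) ≤ (n : ℝ) / c + 2 ^ Fintype.card s * δ * n := card_lab b δ hδ.le hb 𝒮 c hc0 hcard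
    have e4 : ((univ.filter fun σ : U ⊕ ι → ZMod 2 => hv b (C * (k' + 1)) σ = 𝒮).card : ℝ) ≤
        2 ^ Fintype.card U * 2 ^ m * ((n : ℝ) + 1) ^ (C * (k' + 1) * 2 ^ Fintype.card s) := by
      have e2' : (univ.filter fun σ : U ⊕ ι → ZMod 2 => hv b (C * (k' + 1)) σ = 𝒮).card ≤
          2 ^ Fintype.card U * 2 ^ m * (n + 1) ^ (C * (k' + 1) * 2 ^ Fintype.card s) := by
        refine cast ?_ e2
        congr
        all_goals exact Subsingleton.elim _ _
      exact_mod_cast e2'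
    have hn1 : (0 : ℝ) < (n : ℝ) + 1 := by positivity
    have e5 : (2 : ℝ) ^ Fintype.card U * 2 ^ m * ((n : ℝ) + 1) ^ (C * (k' + 1) * 2 ^ Fintype.card s) =
        2 ^ ((Fintype.card U : ℝ) + m + C * (k' + 1) * 2 ^ Fintype.card s * Real.logb 2 ((n : ℝ) + 1)) := by
      rw [Real.rpow_add zero_lt_two, Real.rpow_add zero_lt_two, Real.rpow_natCast, Real.rpow_natCast]
      congr 1
      rw [mul_comm ((C : ℝ) * (k' + 1) * 2 ^ Fintype.card s), Real.rpow_mul zero_le_two,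
        Real.rpow_logb zero_lt_two (by norm_num) hn1, ← Real.rpow_natCast]
      push_cast
      rfl
    rw [e5] at e4
    calc _ ≤ (2 : ℝ) ^ ((Fintype.card U : ℝ) + m + C * (k' + 1) * 2 ^ Fintype.card s *
          Real.logb 2 ((n : ℝ) + 1)) * (2 ^ p * 2 ^ g) := mul_le_mul_of_nonneg_right e4 (by positivity)
      _ = 2 ^ p * (2 : ℝ) ^ ((Fintype.card U : ℝ) + m + C * (k' + 1) * 2 ^ Fintype.card s *
          Real.logb 2 ((n : ℝ) + 1) + g) := by
        rw [Real.rpow_add zero_lt_two _ g]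
        ring
      _ ≤ 2 ^ p * (2 : ℝ) ^ ((ε * n - 2 ^ Fintype.card s) + x / c) := by
        refine mul_le_mul_of_nonneg_left ?_ (by positivity)
        refine Real.rpow_le_rpow_of_exponent_le one_le_two ?_
        have hx2 : x / c = n / c - (k : ℝ) ^ 2 / c / 2 := by
          rw [hx]
          ring
        rw [hx2, hg]
        have hLR : (L : ℝ) = 2 * (Fintype.card s + Fintype.card U + 1) := by
          rw [hL]
          push_cast
          ring
        rw [hLR]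
        linarith
      _ = 2 ^ p * ((2 : ℝ) ^ (ε * n - 2 ^ Fintype.card s) * 2 ^ (x / c)) := by
        rw [Real.rpow_add zero_lt_two]
      _ ≤ _ := by
        refine mul_le_mul_of_nonneg_left ?_ (by positivity)
        exact mul_le_mul_of_nonneg_left (interp x c hc) (by positivity)
  refine (sum_le_sum fun 𝒮 _ => key 𝒮).trans (le_of_eq ?_)
  rw [sum_const, card_univ, Fintype.card_finset, Fintype.card_fun, ZMod.card, nsmul_eq_mul]
  have h2 : (2 : ℝ) ^ (ε * n) = 2 ^ (2 ^ Fintype.card s) * 2 ^ (ε * n - 2 ^ Fintype.card s) := by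
    rw [← Real.rpow_natCast 2 (2 ^ Fintype.card s), ← Real.rpow_add zero_lt_two]
    congr 1
    push_cast
    ring
  rw [h2]
  push_cast
  ring

end Q44.MX.UbG
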