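import Pool.Agent.Q44.MX.UbG
import Pool.Agent.Q44.MX.StmF

/-!
# Project MX: the upper bound for blocks without the hypothesis on the operators
-/

set_option autoImplicit false
set_option linter.unusedVariables false
set_option linter.unusedSectionVars false

namespace Q44.MX

open Finset Module
open Q44.MX.UbG (par hv card_hv card_lab per interp)
open Pool.Agent.Y703.CQ (prs ext)
open Q44.JQ (Dj Bk Sel)
open scoped Classical

section

variable {s V : Type} [Fintype s] [AddCommGroup V] [Module (ZMod 2) V] [Finite V] (D : Dj s V)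

/-- the scalars are small -/
theorem halfR (hPl : Pl D.ω) (hSym : D.Sym) (𝒮 : Finset (s → ZMod 2))
    (h : ∀ φ ∈ 𝒮, ∃ e : ZMod 2, D.T φ = e • (1 : Module.End (ZMod 2) V)) :
    2 * 𝒮.card ≤ 2 ^ Fintype.card s := by
  obtain ⟨x, y, hxy⟩ : ∃ x y : V, D.ω x y ≠ 0 := by
    by_contra hc
    push Not at hc
    have h1 : ∀ x : V, x = 0 := fun x => hPl.nd x (hc x)
    have h2 : finrank (ZMod 2) V = 0 := by
      have : Subsingleton V := ⟨fun x y => by rw [h1 x, h1 y]⟩
      exact finrank_zero_of_subsingleton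
    have h3 := hPl.dim
    omega
  have hz : ∀ φ ∈ 𝒮, φ D.s₀ = 0 := by
    intro φ hφ
    obtain ⟨e, he⟩ := h φ hφ
    have h1 := hSym.adj φ x y
    rw [he] at h1
    have h2 : ∀ z : V, (e • (1 : Module.End (ZMod 2) V)) z = e • z := fun z => rfl
    rw [h2, h2, map_smul, map_smul, LinearMap.smul_apply] at h1
    have h3 : φ D.s₀ * D.ω x y = 0 := by
      have h4 := congrArg (fun z => z - e • D.ω x y) h1
      simpa using h4.symm
    exact (mul_eq_zero.1 h3).resolve_right hxy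
  have hd : Disjoint 𝒮 (𝒮.image fun φ => φ + Pi.single D.s₀ 1) := by
    rw [disjoint_left]
    intro φ hφ hφ'
    obtain ⟨ψ, hψ, rfl⟩ := mem_image.1 hφ'
    have h1 := hz _ hφ
    rw [Pi.add_apply, hz ψ hψ, Pi.single_eq_same, zero_add] at h1
    exact one_ne_zero h1
  have h2 := card_le_univ (𝒮 ∪ 𝒮.image fun φ => φ + Pi.single D.s₀ 1)
  rw [card_union_of_disjoint hd, card_image_of_injective _ (add_left_injective _), Fintype.card_fun,
    ZMod.card] at h2
  omega

theorem classR (hPl : Pl D.ω) (hSym : D.Sym) (𝒮 : Finset (s → ZMod 2)) :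
    ∃ (c c' : ℕ) (S : Set (Module.End (ZMod 2) V)), Ty c S ∧ c = 2 * c' ∧ (c' = 1 ∨ c' = 2) ∧
      (∀ X ∈ S, ∃ φ ∈ 𝒮, X = D.T φ) ∧ c' * 𝒮.card ≤ 2 ^ Fintype.card s := by
  by_cases h : ∀ φ ∈ 𝒮, ∃ e : ZMod 2, D.T φ = e • (1 : Module.End (ZMod 2) V)
  · exact ⟨4, 2, ∅, Or.inl rfl, rfl, Or.inr rfl, fun X hX => absurd hX (Set.notMem_empty X),
      halfR D hPl hSym 𝒮 h⟩
  · push Not at h
    obtain ⟨φ, hφ, h⟩ := h
    refine ⟨2, 1, {X | ∃ φ ∈ 𝒮, X = D.T φ}, Or.inr (Or.inl ⟨rfl, D.T φ, ⟨φ, hφ, rfl⟩, h⟩), rfl,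
      Or.inl rfl, fun X hX => hX, ?_⟩
    rw [one_mul]
    refine (card_le_univ _).trans ?_
    rw [Fintype.card_fun, ZMod.card]

end

theorem t_UBR (h : S_TAILB) : S_UBR := by
  intro s V _ _ _ _ D hPl hSym ε hε
  obtain ⟨C, hC⟩ := h V D.ω hPl
  obtain ⟨δ, hδ, n₀, hn₀⟩ := par (Fintype.card s) C (2 ^ Fintype.card s) (by positivity) (by positivity)
    (one_le_pow₀ one_le_two) ε hε
  refine ⟨δ, hδ, n₀, fun U ι _ _ _ b hn hU hb k hk => ?_⟩
  set n := Fintype.card ι with hn'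
  set p := (prs (univ : Finset ι)).card with hp
  set L := 2 * (Fintype.card s + Fintype.card U + 1) with hL
  set k' := k - L with hk'
  set x : ℝ := (n : ℝ) - (k : ℝ) ^ 2 / 4 with hx
  have hpar := hn₀ n (Fintype.card U) k k' hn hU hk (Nat.sub_le _ _)
  have h1 : ∑ α : prs (univ : Finset ι) → ZMod 2,
      ((univ.filter fun σ : U ⊕ ι → ZMod 2 => k ≤ rkB D b σ α).card : ℝ) =
      ∑ σ : U ⊕ ι → ZMod 2,
        ((univ.filter fun α : prs (univ : Finset ι) → ZMod 2 => k ≤ rkB D b σ α).card : ℝ) := by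
    simp only [card_filter]
    push_cast
    rw [sum_comm]
  rw [h1, ← sum_fiberwise univ (hv b (C * (k' + 1)))]
  have key : ∀ 𝒮 : Finset (s → ZMod 2),
      ∑ σ ∈ univ.filter (fun σ : U ⊕ ι → ZMod 2 => hv b (C * (k' + 1)) σ = 𝒮),
        ((univ.filter fun α : prs (univ : Finset ι) → ZMod 2 => k ≤ rkB D b σ α).card : ℝ) ≤
      2 ^ p * ((2 : ℝ) ^ (ε * n - 2 ^ Fintype.card s) * (2 ^ x + 2 ^ (x / 4))) := by
    intro 𝒮
    obtain ⟨c, c', S, hT, hcc, hc', hS, hcard⟩ := classR D hPl hSym 𝒮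
    have hc0 : 0 < c := by omega
    have hc0' : 0 < c' := by omega
    set g : ℝ := ((C : ℝ) * (k' + 1) + 1 + 2 * k * L - (k : ℝ) ^ 2 / c) / 2 with hg
    have e1 : ∀ σ ∈ univ.filter (fun σ : U ⊕ ι → ZMod 2 => hv b (C * (k' + 1)) σ = 𝒮),
        ((univ.filter fun α : prs (univ : Finset ι) → ZMod 2 => k ≤ rkB D b σ α).card : ℝ) ≤
          2 ^ p * 2 ^ g := fun σ hσ =>
      per D C hC hSym b k k' L hL hk' 𝒮 c S hT hc0 hS σ (mem_filter.1 hσ).2
    refine (sum_le_sum e1).trans ?_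
    rw [sum_const, nsmul_eq_mul]
    have e2 := card_hv b (C * (k' + 1)) 𝒮
    set m := (univ.filter fun i => b.hJ i ∈ 𝒮).card with hm
    have e3 : (m : ℝ) ≤ (n : ℝ) / c' + 2 ^ Fintype.card s * δ * n := card_lab b δ hδ.le hb 𝒮 c' hc0' hcard
    have e4 : ((univ.filter fun σ : U ⊕ ι → ZMod 2 => hv b (C * (k' + 1)) σ = 𝒮).card : ℝ) ≤
        2 ^ Fintype.card U * 2 ^ m * ((n : ℝ) + 1) ^ (C * (k' + 1) * 2 ^ Fintype.card s) := by
      have e2' : (univ.filter fun σ : U ⊕ ι → ZMod 2 => hv b (C * (k' + 1)) σ = 𝒮).card ≤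
          2 ^ Fintype.card U * 2 ^ m * (n + 1) ^ (C * (k' + 1) * 2 ^ Fintype.card s) := by
        refine cast ?_ e2
        congr
        all_goals exact Subsingleton.elim _ _
      exact_mod_cast e2'
    have hn1 : (0 : ℝ) < (n : ℝ) + 1 := by positivity
    have e5 : (2 : ℝ) ^ Fintype.card U * 2 ^ m * ((n : ℝ) + 1) ^ (C * (k' + 1) * 2 ^ Fintype.card s) =
        2 ^ ((Fintype.card U : ℝ) + m + C * (k' + 1) * 2 ^ Fintype.card s * Real.logb 2 ((n : ℝ) + 1)) := by
      rw [Real.rpow_add zero_lt_two, Real.rpow_add zero_lt_two, Real.rpow_natCast, Real.rpow_natCast]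
      congr 1
      rw [mul_comm ((C : ℝ) * (k' + 1) * 2 ^ Fintype.card s), Real.rpow_mul zero_le_two,
        Real.rpow_logb zero_lt_two (by norm_num) hn1, ← Real.rpow_natCast]
      push_cast
      rfl
    rw [e5] at e4
    calc _ ≤ (2 : ℝ) ^ ((Fintype.card U : ℝ) + m + C * (k' + 1) * 2 ^ Fintype.card s *
          Real.logb 2 ((n : ℝ) + 1)) * (2 ^ p * 2 ^ g) := mul_le_mul_of_nonneg_right e4 (by positivity)
      _ = 2 ^ p * (2 : ℝ) ^ ((Fintype.card U : ℝ) + m + C * (k' + 1) * 2 ^ Fintype.card s *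
          Real.logb 2 ((n : ℝ) + 1) + g) := by
        rw [Real.rpow_add zero_lt_two _ g]
        ring
      _ ≤ 2 ^ p * (2 : ℝ) ^ ((ε * n - 2 ^ Fintype.card s) + x / c') := by
        refine mul_le_mul_of_nonneg_left ?_ (by positivity)
        refine Real.rpow_le_rpow_of_exponent_le one_le_two ?_
        have hx2 : x / c' = n / c' - (k : ℝ) ^ 2 / c / 2 := by
          rw [hx, hcc]
          push_cast
          ring
        rw [hx2, hg]
        have hLR : (L : ℝ) = 2 * (Fintype.card s + Fintype.card U + 1) := by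
          rw [hL]
          push_cast
          ring
        rw [hLR]
        linarith
      _ = 2 ^ p * ((2 : ℝ) ^ (ε * n - 2 ^ Fintype.card s) * 2 ^ (x / c')) := by
        rw [Real.rpow_add zero_lt_two]
      _ ≤ _ := by
        refine mul_le_mul_of_nonneg_left ?_ (by positivity)
        exact mul_le_mul_of_nonneg_left (interp x c' (by omega)) (by positivity)
  refine (sum_le_sum fun 𝒮 _ => key 𝒮).trans (le_of_eq ?_)
  rw [sum_const, card_univ, Fintype.card_finset, Fintype.card_fun, ZMod.card, nsmul_eq_mul]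
  have h2 : (2 : ℝ) ^ (ε * n) = 2 ^ (2 ^ Fintype.card s) * 2 ^ (ε * n - 2 ^ Fintype.card s) := by
    rw [← Real.rpow_natCast 2 (2 ^ Fintype.card s), ← Real.rpow_add zero_lt_two]
    congr 1
    push_cast
    ring
  rw [h2]
  push_cast
  ring

end Q44.MX
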