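import Pool.Agent.Q44.MX.Fld
import Pool.Agent.Q257.MX.PROB
import Pool.Agent.Q257.MX.MAX
import Pool.Agent.Q257.MX.GAU
import Pool.Agent.Q257.MX.MOM
import Pool.Agent.Q280.MX.CNT1
import Pool.Agent.Q16.MX.CNT2
import Pool.Agent.Q252.MX.TAIL
import Pool.Agent.Q252.MX.TAILB
import Pool.Agent.Q252.MX.UBP
import Pool.Agent.Q65.MX.UNIF
import Pool.Agent.Q44.MX.UbG
import Pool.Agent.Q227.MX.SYM
import Pool.Agent.Q227.MX.RDC
import Pool.Agent.Q280.MX.BDM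
import Pool.Agent.Q227.MX.COND
import Pool.Agent.Q44.MX.PairG
import Pool.Agent.Q44.MX.OneG
import Pool.Agent.Q239.MX.LBG
import Pool.Agent.Q65.MX.LBA
import Pool.Agent.Q237.MX.TUR
import Pool.Agent.Q65.MX.EQD
import Pool.Agent.Q237.MX.SHR
import Pool.Agent.Q68.MX.ASYN
import Pool.Agent.Q137.MX.TZ
import Pool.Agent.Q285.MX.UBPR
import Pool.Agent.Q44.MX.Ubr

/-!
# Project MX: the facts
-/

set_option autoImplicit false

namespace Q44.MX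

theorem MOM : S_MOM := Q257.MX.t_MOM Q257.MX.t_PROB Q257.MX.t_MAX Q257.MX.t_GAU
  (Pool.Agent.Q16.MX.t_CNT0 Pool.Agent.Q16.MX.t_ISO) Q280.MXC.t_CNT1
  (Pool.Agent.Q16.MX.t_CNT2 Pool.Agent.Q16.MX.t_ISO)

theorem TAILB : S_TAILB := Q252.MX.t_TAILB Pool.Agent.Q65.MX.t_UNIF (Q252.MX.t_TAIL MOM)

theorem UBP : S_UBP := Q252.MX.t_UBP (UbG.t_UB TAILB)

theorem LBG : S_LBG := Pool.Agent.Q239.MX.t_LBG
  (OneG.t_PAIR (Q227.MX.t_COND Q227.MX.t_RDC Q280.MXB.t_BDM) Q227.MX.t_SYM)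
  (OneG.t_ONE Q227.MX.t_RDC Q227.MX.t_SYM)

theorem factsM : FactsM where
  ubp := UBP
  ubpr := Q285.MX.t_UBPR (t_UBR TAILB)
  lba := Pool.Agent.Q65.MX.t_LBA LBG
  tur := Pool.Agent.Q237.MX.t_TUR
  eqd := Pool.Agent.Q65.MX.t_EQD
  shr := Pool.Agent.Q237.MX.t_SHR
  asyn := Pool.Agent.Q68.MX.t_ASYN
  tz := Q137.MX.t_TZ

end Q44.MX
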