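import Pool.Agent.Q44.MX.One

/-!
# Project MX: the final form of the bounds
-/

set_option autoImplicit false
set_option linter.unusedSectionVars false
set_option linter.unusedVariables false

open scoped Classical

namespace Q44.MX

open Finset Module Filter Topology
open Q44.JQ hiding cnt
open Q44.JQ.W Q44.JQ.M Q44.JQ.X
open Q44.LD
open Q155.NL (Alm)

theorem lt_one_zero {n : ℕ} {y : ℝ} (h : (n : ℝ) ≤ (2 : ℝ) ^ y) (hy : y < 0) : n = 0 := by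
  have h1 : (2 : ℝ) ^ y < 1 := Real.rpow_lt_one_of_one_lt_of_neg one_lt_two hy
  have h2 : (n : ℝ) < 1 := h.trans_lt h1
  have h3 : n < 1 := by exact_mod_cast h2
  omega

/-- the two terms of the bound -/
theorem two_terms {e x y z : ℝ} (h1 : e + x + 1 ≤ z) (h2 : e + y + 1 ≤ z) :
    (2 : ℝ) ^ e * ((2 : ℝ) ^ x + (2 : ℝ) ^ y) ≤ (2 : ℝ) ^ z := by
  have g1 : (2 : ℝ) ^ e * (2 : ℝ) ^ x = (2 : ℝ) ^ (e + x) := (Real.rpow_add two_pos _ _).symm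
  have g2 : (2 : ℝ) ^ e * (2 : ℝ) ^ y = (2 : ℝ) ^ (e + y) := (Real.rpow_add two_pos _ _).symm
  have g3 : (2 : ℝ) ^ (e + x) ≤ (2 : ℝ) ^ (z - 1) :=
    Real.rpow_le_rpow_of_exponent_le one_le_two (by linarith)
  have g4 : (2 : ℝ) ^ (e + y) ≤ (2 : ℝ) ^ (z - 1) :=
    Real.rpow_le_rpow_of_exponent_le one_le_two (by linarith)
  have g5 : (2 : ℝ) ^ z = (2 : ℝ) ^ (z - 1) * 2 := by
    have := Real.rpow_add_one (two_ne_zero (α := ℝ)) (z - 1)
    rw [sub_add_cancel] at this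
    exact this
  rw [mul_add, g1, g2, g5]
  linarith

/-- **The number of the divisors with Selmer rank at least `k`.** -/
theorem cnt_le {a : Fin 3 → ℤ} {M N : ℕ} {κ ε : ℝ} (hκ : 1 ≤ κ) (hκ2 : κ ≤ 2) (hε : 0 < ε) (hε1 : ε ≤ 1 / 4)
    (h : Bu a κ M (ε / 8) N) (h28 : 28 ≤ N.primeFactors.card) (hω : 8 ≤ ε * N.primeFactors.card)
    (k : ℕ) : (((sd (rad (M * N))).filter fun d => k ≤ wr a d).card : ℝ) ≤
      (2 : ℝ) ^ ((1 + ε) * (N.primeFactors.card : ℝ) - (k : ℝ) ^ 2 / (2 * κ)) := by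
  obtain ⟨ω, hωd⟩ : ∃ ω, ω = N.primeFactors.card := ⟨_, rfl⟩
  unfold Bu at h
  rw [← hωd] at h h28 hω ⊢
  have h28' : (28 : ℝ) ≤ ω := by exact_mod_cast h28
  have hsm : 1 + ε / 8 * ω ≤ ε * ω / 4 := by linarith
  have hsm2 : ε * ω ≤ 1 / 4 * ω := mul_le_mul_of_nonneg_right hε1 (by linarith)
  -- the middle range
  have key : ∀ k : ℕ, k ^ 2 ≤ 7 * ω → 4 * (1 + ε / 8 * (ω : ℝ)) < (k : ℝ) ^ 2 / (2 * κ) - ω →
      ((sd (rad (M * N))).filter fun d => k ≤ wr a d).card = 0 := by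
    intro k hk ht
    have h1 := h k hk
    obtain ⟨y, hy⟩ : ∃ y : ℝ, y = (k : ℝ) ^ 2 / (2 * κ) := ⟨_, rfl⟩
    rw [← hy] at h1 ht
    have h2 := h1.trans (two_terms (e := ε / 8 * ω) (x := (ω : ℝ) - y)
      (y := ((ω : ℝ) - y) / 4)
      (z := ε / 8 * ω + ((ω : ℝ) - y) / 4 + 1) (by linarith) (by linarith))
    exact lt_one_zero h2 (by linarith)
  rcases le_or_gt (k ^ 2) (7 * ω) with hk | hk
  · have h0 := h k hk
    have hkey := key k hk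
    obtain ⟨y, hy⟩ : ∃ y : ℝ, y = (k : ℝ) ^ 2 / (2 * κ) := ⟨_, rfl⟩
    rw [← hy] at h0 hkey ⊢
    rcases le_or_gt y (ω : ℝ) with h1 | h1
    · refine h0.trans (two_terms ?_ ?_)
      · linarith
      · linarith
    · rcases lt_or_ge (4 * (1 + ε / 8 * (ω : ℝ))) (y - ω) with h2 | h2
      · rw [hkey h2, Nat.cast_zero]
        positivity
      · refine h0.trans (two_terms ?_ ?_)
        · linarith
        · linarith
  · obtain ⟨m, hm⟩ : ∃ m, m = Nat.sqrt (7 * ω) := ⟨_, rfl⟩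
    have h1 : m ^ 2 ≤ 7 * ω := by
      rw [hm]
      exact Nat.sqrt_le' _
    have h2 : 7 * ω < (m + 1) ^ 2 := by
      rw [hm]
      exact Nat.lt_succ_sqrt' _
    have h3 : 2 * m ≤ ω := by
      by_contra hc
      push Not at hc
      have h4 : ω * ω < 4 * m ^ 2 := by nlinarith
      have h5 : 28 * ω ≤ ω * ω := Nat.mul_le_mul_right _ h28
      omega
    have h4 : 6 * ω ≤ m ^ 2 := by nlinarith
    have h4' : (6 : ℝ) * ω ≤ (m : ℝ) ^ 2 := by exact_mod_cast h4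
    have h8 : (m : ℝ) ^ 2 / 4 ≤ (m : ℝ) ^ 2 / (2 * κ) :=
      div_le_div_of_nonneg_left (by positivity) (by linarith) (by linarith)
    have h5 := key m h1 (by linarith)
    have h6 : m ≤ k := by
      by_contra hc
      push Not at hc
      have : k ^ 2 ≤ m ^ 2 := Nat.pow_le_pow_left hc.le 2
      omega
    have h7 : ((sd (rad (M * N))).filter fun d => k ≤ wr a d).card ≤
        ((sd (rad (M * N))).filter fun d => m ≤ wr a d).card :=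
      Finset.card_le_card (Finset.monotone_filter_right _ fun d _ hd => h6.trans hd)
    rw [h5] at h7
    rw [Nat.le_zero.1 h7, Nat.cast_zero]
    positivity

theorem wr_le {a : Fin 3 → ℤ} {M N : ℕ} {κ ε : ℝ} (hκ : 1 ≤ κ) (hκ2 : κ ≤ 2) (hε : 0 < ε)
    (h : ∀ k : ℕ, (((sd (rad (M * N))).filter fun d => k ≤ wr a d).card : ℝ) ≤
      (2 : ℝ) ^ ((1 + ε) * (N.primeFactors.card : ℝ) - (k : ℝ) ^ 2 / (2 * κ))) {d : ℤ}
    (hd : d ∈ sd (rad (M * N))) : (wr a d : ℝ) ≤ (√(2 * κ) + ε) * √(N.primeFactors.card : ℝ) := by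
  have h1 := h (wr a d)
  have h2 : 0 < ((sd (rad (M * N))).filter fun d' => wr a d ≤ wr a d').card :=
    Finset.card_pos.2 ⟨d, mem_filter.2 ⟨hd, le_rfl⟩⟩
  have h3 : (wr a d : ℝ) ^ 2 / (2 * κ) ≤ (1 + ε) * (N.primeFactors.card : ℝ) := by
    by_contra hc
    push Not at hc
    have := lt_one_zero h1 (by linarith)
    omega
  have h4 : (0 : ℝ) ≤ N.primeFactors.card := Nat.cast_nonneg _
  have h5 := Real.sq_sqrt h4
  have h6 : √(2 * κ) ^ 2 = 2 * κ := Real.sq_sqrt (by linarith)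
  have h7 : κ ≤ √(2 * κ) := Real.le_sqrt_of_sq_le (by nlinarith)
  refine abs_le_of_sq_le_sq' ?_ (by positivity) |>.2
  have h8 : ((√(2 * κ) + ε) * √(N.primeFactors.card : ℝ)) ^ 2 =
      (2 * κ + 2 * √(2 * κ) * ε + ε ^ 2) * N.primeFactors.card := by
    rw [mul_pow, h5, add_sq, h6]
  rw [h8]
  rw [div_le_iff₀ (by linarith)] at h3
  refine h3.trans ?_
  have h9 : (1 + ε) * (2 * κ) ≤ 2 * κ + 2 * √(2 * κ) * ε + ε ^ 2 := by
    nlinarith [mul_le_mul_of_nonneg_right h7 hε.le]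
  calc (1 + ε) * (N.primeFactors.card : ℝ) * (2 * κ) = (1 + ε) * (2 * κ) * N.primeFactors.card := by ring
    _ ≤ _ := mul_le_mul_of_nonneg_right h9 h4

/-- **The theorem.** -/
theorem fin_MX (H : FactsZ) (HM : FactsM) : ∃ 𝒟 : ℕ → Prop, Alm (fun _ => True) 𝒟 ∧
    (∀ B : ℕ, ∀ᶠ N in atTop, 𝒟 N → B ≤ N.primeFactors.card) ∧
    ∀ a, Mz a →
    (∀ κ : ℝ, Kp a κ → ∀ M ≠ 0, ∀ ε : ℝ, 0 < ε → ∀ᶠ N in atTop, 𝒟 N →
      (∀ k : ℕ, (((sd (rad (M * N))).filter fun d => k ≤ wr a d).card : ℝ) ≤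
        (2 : ℝ) ^ ((1 + ε) * (N.primeFactors.card : ℝ) - (k : ℝ) ^ 2 / (2 * κ))) ∧
      ∀ d ∈ sd (rad (M * N)), (wr a d : ℝ) ≤ (√(2 * κ) + ε) * √(N.primeFactors.card : ℝ)) ∧
    ∀ x : ℝ, 0 ≤ x → x ^ 2 < (sqn a : ℝ) / 2 → ∀ ε : ℝ, 0 < ε → ∀ᶠ N in atTop, 𝒟 N →
      (2 : ℝ) ^ (((sqn a : ℝ) / 16 - x ^ 2 / 8 - ε) * N.primeFactors.card) ≤
        (((rad N).divisors.filter fun d : ℕ =>
          x * √(N.primeFactors.card : ℝ) ≤ wr a (d : ℤ)).card : ℝ) := by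
  obtain ⟨𝒟, g1, g2, g3, g4⟩ := one_MX H HM
  refine ⟨𝒟, g1, g2, fun a ha =>
    ⟨fun κ hκ M hM ε hε => ?_, fun x hx hxs ε hε => g4 a ha x hx hxs ε hε⟩⟩
  have hκ1 : 1 ≤ κ := by
    rcases hκ with rfl | ⟨rfl, -⟩ <;> norm_num
  have hκ2 : κ ≤ 2 := by
    rcases hκ with rfl | ⟨rfl, -⟩ <;> norm_num
  have hm : 0 < min ε (1 / 4) := lt_min hε (by norm_num)
  obtain ⟨B, hB⟩ := exists_nat_ge (8 / min ε (1 / 4))
  filter_upwards [g3 a ha κ hκ M hM (min ε (1 / 4) / 8) (by positivity), g2 28, g2 B] with N h3 h4 h5 hD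
  have h6 : 8 ≤ min ε (1 / 4) * (N.primeFactors.card : ℝ) := by
    have h7 : (B : ℝ) ≤ N.primeFactors.card := by exact_mod_cast h5 hD
    rw [div_le_iff₀ hm] at hB
    have h8 := mul_le_mul_of_nonneg_right h7 hm.le
    linarith
  have h7 := cnt_le hκ1 hκ2 hm (min_le_right _ _) (h3 hD) (h4 hD) h6
  have h8 : ∀ k : ℕ, (((sd (rad (M * N))).filter fun d => k ≤ wr a d).card : ℝ) ≤
        (2 : ℝ) ^ ((1 + ε) * (N.primeFactors.card : ℝ) - (k : ℝ) ^ 2 / (2 * κ)) := fun k => by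
    refine (h7 k).trans (Real.rpow_le_rpow_of_exponent_le one_le_two ?_)
    have := mul_le_mul_of_nonneg_right (min_le_left ε (1 / 4))
      (Nat.cast_nonneg (α := ℝ) N.primeFactors.card)
    linarith
  exact ⟨h8, fun d hd => wr_le hκ1 hκ2 hε h8 hd⟩

end Q44.MX
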