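import Pool.Agent.Q44.MX.Fin
import Pool.Agent.Q44.LD.Fld3

/-!
# Project MX: multiquadratic fields for all the curves with full rational 2-torsion
-/

set_option autoImplicit false
set_option linter.unusedSectionVars false
set_option linter.unusedVariables false

open scoped Classical

namespace Q44.MX

open Finset Module Filter Topology
open Q44.JQ hiding cnt
open Q44.JQ.W Q44.JQ.M Q44.JQ.X
open Q44.LD
open Pool.Agent.TH344.JG (SelJ)
open Pool.Agent.Y723.PT (tw)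
open Pool.Agent.TH841.NF (EF Gen)
open Pool.Agent.TH841.NF.D (HasDiv crk)
open Q155.NL (Alm)

variable {a : Fin 3 → ℤ}

theorem fctG (H : FactsZ) (ha : Mz a) : ∀ D : ℤ, D ≠ 0 →
      (SelJ (tw D a)).ncard = 2 ^ (2 + wr a D) ∧
      Finite (Pool.Agent.Y667.SX.Sel2H (cv (tw D a))) ∧
      Nat.card (Pool.Agent.Y667.SX.Sel2H (cv (tw D a))) = 2 ^ (2 + wr a D) ∧
      Finite {x : Pool.Agent.TH841.SH.D.Sha (cv (tw D a)) // x + x = 0} ∧
      2 ^ Module.finrank ℤ (cv (tw D a)).toAffine.Point *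
        Nat.card {x : Pool.Agent.TH841.SH.D.Sha (cv (tw D a)) // x + x = 0} = 2 ^ wr a D := by
  obtain ⟨T, hv, -⟩ := ex_T ha one_ne_zero
  obtain ⟨P⟩ := hv.exLo (hv.LB H) H.arxe
  exact P.fct H.ell

theorem fctZ (H : FactsZ) (ha : Mz a) : Fct a := fun D hD => (fctG H ha D hD).2.2

theorem wr_sqG (H : FactsZ) (ha : Mz a) {q w : ℤ} (hq : q ≠ 0) (hw : w ≠ 0) :
    wr a (q * w ^ 2) = wr a q := by
  have h1 := (fctG H ha (q * w ^ 2) (mul_ne_zero hq (pow_ne_zero 2 hw))).1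
  have h2 := (fctG H ha q hq).1
  have h3 : SelJ (tw (q * w ^ 2) a) = SelJ (tw q a) := selJ_sq hw
  rw [h3, h2] at h1
  have h4 := Nat.pow_right_injective le_rfl h1
  have h5 : 2 + wr a q = 2 + wr a (q * w ^ 2) := h4
  omega

/-- the fields generated by the square roots of integers -/
theorem fld_subG (H : FactsZ) (ha : Mz a) {F : Type} [Field F] [NumberField F] {D : ℕ} (hD : Squarefree D)
    {B : ℝ} (hB : ∀ d ∈ sd D, (wr a d : ℝ) ≤ B) {n : ℕ} {t : Fin n → ℤ} (ht : ∀ i, t i ≠ 0 ∧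
      ∀ p : ℕ, p.Prime → (p : ℤ) ∣ t i → p ∣ D)
    (hI : ∀ T : Finset (Fin n), T.Nonempty → ¬ IsSquare (∏ i ∈ T, t i)) (h : Gen F t) :
    BddAbove {q | HasDiv (EF (cA a) (cB a) F) q} ∧
    (Pool.Agent.TH841.NF.D.rk (EF (cA a) (cB a) F) + crk (EF (cA a) (cB a) F) : ℝ) ≤ B * finrank ℚ F := by
  have h0 := Pool.Agent.Q154.LD.t_FLD a ha.ha ha.h0 (fctZ H ha) n 1 t one_ne_zero
    (fun i => (ht i).1) F h
  rw [one_pow, one_pow, one_mul, one_mul] at h0
  simp only [one_mul] at h0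
  have h1 := h0.2.1
  have h2 : ∀ T : Finset (Fin n), (wr a (∏ i ∈ T, t i) : ℝ) ≤ B := by
    intro T
    have hne : ∏ i ∈ T, t i ≠ 0 := Finset.prod_ne_zero_iff.2 fun i _ => (ht i).1
    obtain ⟨q, w, hq, hw, he⟩ := sq_dec hne
    rw [he, wr_sqG H ha hq.ne_zero hw]
    refine hB q ((mem_sd hD.ne_zero).2 ?_)
    rw [← Int.natAbs_dvd, Int.natCast_dvd_natCast,
      ← Nat.prod_primeFactors_of_squarefree (Int.squarefree_natAbs.2 hq)]
    refine Finset.prod_primes_dvd _ (fun p hp => (Nat.prime_of_mem_primeFactors hp).prime)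
      fun p hp => ?_
    have hp' := Nat.prime_of_mem_primeFactors hp
    have h3 : (p : ℤ) ∣ ∏ i ∈ T, t i := by
      rw [he]
      exact (Int.natCast_dvd.2 (Nat.dvd_of_mem_primeFactors hp)).mul_right _
    obtain ⟨i, -, h4⟩ := (Nat.prime_iff_prime_int.1 hp').exists_mem_finset_dvd h3
    exact (ht i).2 p hp' h4
  have h3 : finrank ℚ F = 2 ^ n := by
    obtain ⟨x, hx, hF⟩ := h
    have h1 := Pool.Agent.Y73.QMQ1.card_gal (K := F) (d := t) hI hx hF
    have := Pool.Agent.Y73.QMQ1.gal_of (K := F) hx hF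
    rw [IsGalois.card_aut_eq_finrank] at h1
    exact h1
  have h4 : (Pool.Agent.TH841.NF.D.rk (EF (cA a) (cB a) F) + crk (EF (cA a) (cB a) F) : ℝ) ≤
      ∑ T : Finset (Fin n), (wr a (∏ i ∈ T, t i) : ℝ) := by exact_mod_cast h1
  refine ⟨h0.1, h4.trans ((Finset.sum_le_sum fun T _ => h2 T).trans (le_of_eq ?_))⟩
  rw [Finset.sum_const, card_univ, Fintype.card_finset, Fintype.card_fin, nsmul_eq_mul, h3]
  push_cast
  ring

end Q44.MX
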