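import Pool.Agent.Q65.MX.EQD
import Pool.Agent.Q237.MX.TUR
import Pool.Agent.Q44.LD.One

/-!
# Project MX: the number of the prime divisors of almost every integer
-/

set_option autoImplicit false
set_option linter.unusedSectionVars false
set_option linter.unusedVariables false

open scoped Classical

namespace Q44.MX

open Finset Filter Topology
open Q155.NL (Alm cnt cs mem_cs exists_dense)

theorem tend_ll : Tendsto (fun X : ℕ => Real.log (Real.log X)) atTop atTop :=
  Real.tendsto_log_atTop.comp (Real.tendsto_log_atTop.comp tendsto_natCast_atTop_atTop)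

/-- **The theorem of Hardy and Ramanujan.** -/
theorem alm_hr {ε : ℝ} (hε : 0 < ε) : Alm (fun _ => True) fun N =>
    |(N.primeFactors.card : ℝ) - Real.log (Real.log N)| ≤ ε * Real.log (Real.log N) := by
  intro η hη
  have hθ : 0 < min (ε / 4) (η / 2) := lt_min (by positivity) (by positivity)
  obtain ⟨θ, hθd⟩ : ∃ θ : ℝ, θ = min (ε / 4) (η / 2) := ⟨_, rfl⟩
  rw [← hθd] at hθ
  have hθ1 : θ ≤ ε / 4 := hθd ▸ min_le_left _ _
  have hθ2 : θ ≤ η / 2 := hθd ▸ min_le_right _ _
  have h1 := Pool.Agent.Q237.MX.t_TUR (fun _ => True) 1 zero_le_one (by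
    obtain ⟨C, hC⟩ := Pool.Agent.Q65.MX.mer_all0
    refine ⟨C, fun y hy => ?_⟩
    have h2 := hC y hy
    simp only [and_true, one_mul]
    exact h2) θ hθ
  have hs : Tendsto (fun X : ℕ => ((Nat.sqrt X : ℕ) : ℝ)) atTop atTop := by
    refine tendsto_natCast_atTop_atTop.comp (tendsto_atTop.2 fun b => ?_)
    filter_upwards [eventually_ge_atTop (b ^ 2)] with X hX
    exact Nat.le_sqrt'.2 hX
  filter_upwards [h1, tend_ll.eventually_ge_atTop (2 * Real.log 2),
    tend_ll.eventually_ge_atTop (Real.log 2 / θ), hs.eventually_ge_atTop (2 / η),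
    eventually_ge_atTop 3] with X h2 h3 h4 h5 h6
  rw [Q44.LD.cnt_true]
  have hl2 : 0 < Real.log 2 := Real.log_pos one_lt_two
  have h2' : (((Icc 1 X).filter fun n => θ * Real.log (Real.log X) <
      |(n.primeFactors.card : ℝ) - Real.log (Real.log X)|).card : ℝ) ≤ θ * X := by
    simpa only [Finset.filter_true, one_mul] using h2
  have hsub : cs (fun D => True ∧ ¬ |(D.primeFactors.card : ℝ) - Real.log (Real.log D)| ≤
      ε * Real.log (Real.log D)) X ⊆
      ((Icc 1 X).filter fun n => θ * Real.log (Real.log X) <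
      |(n.primeFactors.card : ℝ) - Real.log (Real.log X)|) ∪
        Icc 1 (Nat.sqrt X) := by
    intro n hn
    rw [mem_cs] at hn
    obtain ⟨⟨hn1, hnX⟩, -, hn2⟩ := hn
    rw [mem_union, mem_filter]
    by_cases hnS : n ≤ Nat.sqrt X
    · exact Or.inr (mem_Icc.2 ⟨hn1, hnS⟩)
    · refine Or.inl ⟨mem_Icc.2 ⟨hn1, hnX⟩, ?_⟩
      by_contra hc
      refine hn2 ?_
      push Not at hc hnS
      have hX2 : X < n ^ 2 := Nat.sqrt_lt'.1 hnS
      have hn3 : 1 < n := by
        by_contra h
        have : n = 1 := by omega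
        subst this
        omega
      have hnR : (1 : ℝ) < n := by exact_mod_cast hn3
      have hXR : (3 : ℝ) ≤ X := by exact_mod_cast h6
      have hln : 0 < Real.log n := Real.log_pos hnR
      have hlX : 0 < Real.log X := Real.log_pos (by linarith)
      have g1 : Real.log X ≤ 2 * Real.log n := by
        have : Real.log X ≤ Real.log ((n : ℝ) ^ 2) :=
          Real.log_le_log (by linarith) (by exact_mod_cast hX2.le)
        rw [Real.log_pow] at this
        exact_mod_cast this
      have g2 : Real.log (Real.log X) ≤ Real.log 2 + Real.log (Real.log n) := by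
        rw [← Real.log_mul two_ne_zero hln.ne']
        exact Real.log_le_log hlX g1
      have g3 : Real.log (Real.log n) ≤ Real.log (Real.log X) :=
        Real.log_le_log hln (Real.log_le_log (by linarith) (by exact_mod_cast hnX))
      have g4 : Real.log 2 ≤ θ * Real.log (Real.log X) := by
        rw [div_le_iff₀ hθ] at h4
        linarith
      have g5 : θ * (4 * Real.log (Real.log n)) ≤ ε * Real.log (Real.log n) := by
        have g6 : 0 ≤ Real.log (Real.log n) := by linarith
        have := mul_le_mul_of_nonneg_right hθ1 g6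
        linarith
      have g7 : 2 * (θ * Real.log (Real.log X)) ≤ θ * (4 * Real.log (Real.log n)) := by
        have : Real.log (Real.log X) ≤ 2 * Real.log (Real.log n) := by linarith
        have := mul_le_mul_of_nonneg_left this hθ.le
        linarith
      have g8 := abs_le.1 hc
      rw [abs_le]
      constructor
      · linarith [g8.1]
      · linarith [g8.2]
  have hc1 := (Finset.card_le_card hsub).trans (Finset.card_union_le _ _)
  have hc2 : (cnt (fun D => True ∧ ¬ |(D.primeFactors.card : ℝ) - Real.log (Real.log D)| ≤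
      ε * Real.log (Real.log D)) X : ℝ) ≤
      (((Icc 1 X).filter fun n => θ * Real.log (Real.log X) <
      |(n.primeFactors.card : ℝ) - Real.log (Real.log X)|).card : ℝ) +
        ((Icc 1 (Nat.sqrt X)).card : ℝ) := by exact_mod_cast hc1
  refine hc2.trans ?_
  rw [Nat.card_Icc, Nat.add_sub_cancel]
  have h7 : ((Nat.sqrt X : ℕ) : ℝ) ≤ η / 2 * X := by
    have h8 : ((Nat.sqrt X : ℕ) : ℝ) * (Nat.sqrt X : ℕ) ≤ X := by exact_mod_cast Nat.sqrt_le X
    have h9 := mul_le_mul_of_nonneg_left h5 (Nat.cast_nonneg (α := ℝ) (Nat.sqrt X))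
    have h10 : ((Nat.sqrt X : ℕ) : ℝ) * (2 / η) ≤ X := h9.trans h8
    have h11 := mul_le_mul_of_nonneg_left h10 (half_pos hη).le
    have h12 : η / 2 * (((Nat.sqrt X : ℕ) : ℝ) * (2 / η)) = (Nat.sqrt X : ℕ) := by field_simp
    linarith
  have h8 : θ * (X : ℝ) ≤ η / 2 * X := mul_le_mul_of_nonneg_right hθ2 (Nat.cast_nonneg _)
  linarith

theorem hr_set : ∃ 𝒟 : ℕ → Prop, Alm (fun _ => True) 𝒟 ∧ ∀ ε : ℝ, 0 < ε → ∀ᶠ N : ℕ in atTop, 𝒟 N →
    |(N.primeFactors.card : ℝ) - Real.log (Real.log N)| ≤ ε * Real.log (Real.log N) := by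
  obtain ⟨𝒟, h1, h2⟩ := exists_dense (C := fun _ => True) (T := fun j N =>
    |(N.primeFactors.card : ℝ) - Real.log (Real.log N)| ≤ (1 / ((j : ℝ) + 1)) * Real.log (Real.log N))
    fun j => alm_hr (by positivity)
  refine ⟨𝒟, h1, fun ε hε => ?_⟩
  obtain ⟨j, hj⟩ := exists_nat_one_div_lt hε
  filter_upwards [h2 j, tend_ll.eventually_ge_atTop 0] with N h3 h4 hD
  exact (h3 hD).trans (mul_le_mul_of_nonneg_right hj.le h4)

end Q44.MX
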