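import Pool.Agent.Q144.NB.Asy
import Pool.Agent.Q44.JQ.Lab

/-!
# Project MX, part IV: densities of integers, the labels of the prime divisors are equidistributed
-/

set_option autoImplicit false
set_option linter.unusedVariables false

open scoped Classical

namespace Q44.MX

open Finset Filter Topology
open Q44.BM (Fam SS)
open Q44.JQ (LB clT RT)
open Pool.Agent.Y703.CX (sm la eL zz)
open Q155.NB (BX)

/-- MX-TUR: the theorem of Turán for the prime divisors in a class `c` (with the weight `w`). Proof: let `L = log log X`,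
`f n` the number of the `p ∣ n` with `c p` and `p ≤ √X`; at most one prime divisor of `n ≤ X` is larger than `√X`. With
`A = ∑ p ≤ √X, c p, 1 / p = w L + O(1)` we have `∑ n ≤ X, f n ≥ A X - √X` and
`∑ n ≤ X, f n ^ 2 ≤ ∑ p, q, X / (p q) + ∑ p, X / p ≤ A ^ 2 X + A X`, so `∑ n ≤ X, (f n - A) ^ 2 ≤ A X + 2 A √X ≤ 3 A X`; Chebyshev's inequality. -/
def S_TUR : Prop := ∀ (c : ℕ → Prop) (w : ℝ), 0 ≤ w → (∃ C : ℝ, ∀ y : ℕ, 3 ≤ y →
    |∑ p ∈ (range (y + 1)).filter (fun p => p.Prime ∧ c p), (1 : ℝ) / p - w * Real.log (Real.log y)| ≤ C) →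
  ∀ θ : ℝ, 0 < θ → ∀ᶠ X : ℕ in atTop,
    (((Icc 1 X).filter fun n => θ * Real.log (Real.log X) <
      |((n.primeFactors.filter fun p => c p).card : ℝ) - w * Real.log (Real.log X)|).card : ℝ) ≤ θ * X

/-- the classes are equidistributed in `S₁`, and `S₀` is small -/
def Eqd {I : Type} (cl : I → ℕ → Prop) (w θ : ℝ) (n₀ : ℕ) (S₀ S₁ : Finset ℕ) : Prop :=
  n₀ ≤ S₁.card ∧ (S₀.card : ℝ) ^ 2 ≤ θ * S₁.card ∧
    ∀ i, |((S₁.filter fun p => cl i p).card : ℝ) - w * S₁.card| ≤ θ * S₁.card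

/-- MX-EQD: almost all sets are equidistributed. Proof: a set `S` in `SS Φ X` is the set of the prime divisors of the squarefree number
`∏ p ∈ S, p ≤ X`, and by `Ok Φ 1` there are at least `c X` sets in `SS Φ X` for large `X`, so it is enough to bound
the number of the `n ≤ X` by small multiples of `X`. `S_TUR` for every class `i` and for the class of all primes (weight 1,
Mertens: `Q44.BM.mer_cls` with modulus 1, or `Pool.Agent.Helper601.Mertens`), with a small `θ'`. The mean number of prime divisors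
`p ≤ zz X` of the `n ≤ X` is at most `∑ p ≤ zz X, 1 / p ≤ 3 log (eL X) + C` (`zz X = ⌊exp ((eL X) ^ 3)⌋`), so by Markov's
inequality `#sm (zz X) S ≤ (eL X) ^ (1 / 4)` for almost all `S`. -/
def S_EQD : Prop := S_TUR → ∀ (Φ : Fam), Q44.BM.Ok Φ 1 → ∀ (I : Type) [Fintype I] (cl : I → ℕ → Prop) (w : ℝ), 0 ≤ w →
  (∀ i, ∃ C : ℝ, ∀ y : ℕ, 3 ≤ y → |∑ p ∈ (range (y + 1)).filter (fun p => p.Prime ∧ cl i p), (1 : ℝ) / p -
    w * Real.log (Real.log y)| ≤ C) → ∀ (θ : ℝ) (n₀ : ℕ), 0 < θ → ∀ᶠ X : ℕ in atTop,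
  (((SS Φ X).filter fun S => ¬ Eqd cl w θ n₀ (sm (zz X) S) (la (zz X) S)).card : ℝ) ≤
    θ * ((SS Φ X).card : ℝ)

/-- MX-SHR: the classes of the labels have the same share. Proof: as `LB.hm` (file Pool/Agent/Q44/JQ/Lab.lean): `clT T φ` is the
class of the primes whose residue modulo `MT T` is in `S φ = {a < MT T | a prime to MT T, lbl T a = φ}`, `Q44.BM.mer_cls` gives the
sum with the weight `#(S φ) / φ(MT T)`, and all the `S φ` have the same order because `lbl T` induces a homomorphism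
of the residue classes prime to `MT T` (`LB.add`, `LB.md`) onto `Option T → ZMod 2` (`LB.ex`), which has `2 ^ (#T + 1)` elements. -/
def S_SHR : Prop := ∀ (T : Finset ℕ), LB T → ∀ φ : Option T → ZMod 2, ∃ C : ℝ, ∀ y : ℕ, 3 ≤ y →
  |∑ p ∈ (range (y + 1)).filter (fun p => p.Prime ∧ clT T φ p), (1 : ℝ) / p -
    1 / 2 ^ (T.card + 1) * Real.log (Real.log y)| ≤ C

/-- MX-ASYN: the asymptotics with an arbitrary regularity. Proof: as `Pool.Agent.Q144.NB.asy` (file
Pool/Agent/Q144/NB/Asy.lean), with the regularity `N` instead of `Rg Φ cl A R W`, `W = ∅`; the number of the sets which are not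
regular is at most `ε #(SS Φ X)` by hypothesis, instead of the bound `Sml`. -/
def S_ASYN : Prop := Q155.NB.S_KEY → ∀ (Φ : Fam) (δ : ℝ), Q44.BM.Ok Φ δ → ∀ (T : Finset ℕ → Prop) (K : ℕ),
  (∀ ε : ℝ, 0 < ε → ∃ N : Finset ℕ → Finset ℕ → Prop, BX Φ N T ∅ K ε ∧ ∀ᶠ X : ℕ in atTop,
    (((SS Φ X).filter fun S => ¬ N (sm (zz X) S) (la (zz X) S)).card : ℝ) ≤ ε * ((SS Φ X).card : ℝ)) →
  Tendsto (fun X : ℕ => (((SS Φ X).filter T).card : ℝ) / ((SS Φ X).card : ℝ)) atTop (𝓝 1)

end Q44.MX
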