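import Pool.Agent.Q44.MX.Stm

/-!
# Project MX, part III: the lower bound (Laplacians of the induced subgraphs of a random graph)
-/

set_option autoImplicit false
set_option linter.unusedVariables false

namespace Q44.MX

open Finset Module
open scoped Classical

/-- the symmetric matrix `a`, diagonal included -/
noncomputable def sm {P : Type} [Fintype P] (a : Sym2 P → ZMod 2) :
    (P → ZMod 2) →ₗ[ZMod 2] (P → ZMod 2) where
  toFun x p := ∑ q, a s(p, q) * x q
  map_add' x y := by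
    funext p
    simp only [Pi.add_apply, mul_add, sum_add_distrib]
  map_smul' c x := by
    funext p
    simp only [Pi.smul_apply, smul_eq_mul, RingHom.id_apply, mul_sum]
    exact sum_congr rfl fun q _ => by ring

/-- the corank of a symmetric matrix -/
noncomputable def ck {P : Type} [Fintype P] (a : Sym2 P → ZMod 2) : ℕ :=
  finrank (ZMod 2) (LinearMap.ker (sm a))

/-- the number of the linearly independent `s`-tuples in a space of dimension `c` -/
def ut (s c : ℕ) : ℕ := ∏ i ∈ range s, (2 ^ c - 2 ^ i)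

/-- the truncation -/
noncomputable def ft (s b c : ℕ) : ℝ := if c ≤ s + b then (ut s c : ℝ) else 0

section graph

variable {ι : Type}

/-- the Laplacian of the graph `g` on the set `B` (the values of `g` on the diagonal do not matter) -/
noncomputable def lap (g : Sym2 ι → ZMod 2) (B : Finset ι) : (B → ZMod 2) →ₗ[ZMod 2] (B → ZMod 2) where
  toFun x p := ∑ q : B, g s((p : ι), (q : ι)) * (x q + x p)
  map_add' x y := by
    funext p
    simp only [Pi.add_apply]
    rw [← sum_add_distrib]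
    exact sum_congr rfl fun q _ => by ring
  map_smul' c x := by
    funext p
    simp only [Pi.smul_apply, smul_eq_mul, RingHom.id_apply, mul_sum]
    exact sum_congr rfl fun q _ => by ring

/-- the dimension of the kernel of the Laplacian modulo the constant functions -/
noncomputable def cr (g : Sym2 ι → ZMod 2) (B : Finset ι) : ℕ :=
  finrank (ZMod 2) (LinearMap.ker (lap g B)) - 1

/-- equality outside the diagonal -/
def Od {P : Type} (a ν : Sym2 P → ZMod 2) : Prop := ∀ p q, p ≠ q → a s(p, q) = ν s(p, q)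

/-- the graphs which agree with `ν` on the pairs of elements of `σ` -/
noncomputable def Agr [Fintype ι] (σ : Finset ι) (ν : Sym2 ι → ZMod 2) : Finset (Sym2 ι → ZMod 2) :=
  univ.filter fun g => ∀ p ∈ σ, ∀ q ∈ σ, p ≠ q → g s(p, q) = ν s(p, q)

/-- the proportion of the diagonals which complete `ν` on `σ` to a matrix of corank more than `c` -/
noncomputable def pd (σ : Finset ι) (ν : Sym2 ι → ZMod 2) (c : ℕ) : ℝ :=
  ((univ.filter fun a : Sym2 σ → ZMod 2 => Od a (fun e => ν (e.map Subtype.val)) ∧ c < ck a).card : ℝ) /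
    2 ^ σ.card

end graph

/-- MX-SYM: the moments of the corank of a uniform symmetric matrix (diagonal included). Proof: `ut s (ck a)` is the
number of the linearly independent `s`-tuples in the kernel (`card_linearIndependent`). For given linearly independent
`x_1, ..., x_s` in `ZMod 2 ^ P` the number of the symmetric `a` which kill them is the number of the symmetric matrices
(diagonal included) in `m - s` variables, `m = #P` (change the basis: `a ↦ gᵀ a g` is a bijection of the symmetric matrices),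
that is `2 ^ ((m - s) (m - s + 1) / 2)`, and `m (m + 1) / 2 - (m - s) (m - s + 1) / 2 = m s - s (s - 1) / 2`. (If `s > m` both sides are 0.) -/
def S_SYM : Prop := ∀ (P : Type) [Fintype P] (s : ℕ),
  (∑ a : Sym2 P → ZMod 2, ut s (ck a)) * 2 ^ (Fintype.card P * s) =
    2 ^ Fintype.card (Sym2 P) * ut s (Fintype.card P) * 2 ^ (s * (s - 1) / 2)

/-- MX-BDM: the moments for a bordered matrix. `A` is the given block on `σ`, `R` the set of the new indices,
`c = ck A`, `t = #R`. Proof: count the pairs of a linearly independent `s`-tuple `X = (X_σ, X_R)` (a linear map `ZMod 2 ^ s → ZMod 2 ^ σ × ZMod 2 ^ R`,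
injective) and of `(M, S)` (`M` the `σ × R` block, `S` the symmetric block on `R`) with `A X_σ + M X_R = 0`, `Mᵀ X_σ + S X_R = 0`. Let
`N = ker X_R`, of dimension `e`. `X_σ` is injective on `N`, with values in `ker A`, and `Mᵀ X_σ = 0` on `N`. The number of the `X_R` is at most
`[s, e] * 2 ^ (t (s - e))` with the Gaussian binomial `[s, e] ≤ 4 * 2 ^ (e (s - e))` (for `e = 0` it is `ut s t ≤ 2 ^ (t s)`), of
the `X_σ` at most `2 ^ (c e + #σ (s - e))`, of the `M` (given `X`): `2 ^ (#σ t - #σ (s - e) - t e + e (s - e))` (the values on the image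
of `X_R` are given, the values of `Mᵀ` on `X_σ N` are zero; the two sets of equations have `e (s - e)` relations and are
consistent because `A X_σ = 0` on `N`), of the `S` (given `X`, `M`): `2 ^ (t (t + 1) / 2 - t (s - e) + (s - e) (s - e - 1) / 2)` (or none).
So the contribution of `e`, divided by the number `2 ^ (#σ t + t (t + 1) / 2)` of the `(M, S)`, is at most
`4 * 2 ^ (s (s - 1) / 2 + e (s + c - t) - (3 e ^ 2 - e) / 2) ≤ 2 * 2 ^ (s (s - 1) / 2) * x ^ e`, `x = 2 ^ (s + c) / 2 ^ t ≤ 1 / 2`, for `e ≥ 1`, and at most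
`2 ^ (s (s - 1) / 2)` for `e = 0`. -/
def S_BDM : Prop := ∀ (σ R : Type) [Fintype σ] [Fintype R] (A : Sym2 σ → ZMod 2) (s : ℕ),
  s + ck A + 1 ≤ Fintype.card R →
  (∑ a ∈ univ.filter (fun a : Sym2 (σ ⊕ R) → ZMod 2 => ∀ e, a (e.map Sum.inl) = A e), (ut s (ck a) : ℝ)) ≤
    (univ.filter fun a : Sym2 (σ ⊕ R) → ZMod 2 => ∀ e, a (e.map Sum.inl) = A e).card *
      (2 ^ (s * (s - 1) / 2) * (1 + 4 * (2 ^ (s + ck A) / 2 ^ Fintype.card R)))

/-- MX-RDC: reduction of the Laplacian to a symmetric matrix. Proof: let `a` be the matrix on `B \ {q₀}` (as a type) with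
the off-diagonal values of `g` and the diagonal values `a s(p, p) = ∑ q ∈ B, q ≠ p, g s(p, q)` (`q = q₀` included). The rows
of `lap g B` have sum zero, the constants are in the kernel, so the kernel modulo the constants is isomorphic to
the space of the `x` in the kernel with `x q₀ = 0`, and this is `ker (sm a)`: `cr g B = ck a`. The map `g ↦ a` has fibres of
the same order, also when the values of `g` on the pairs of elements of a subset `σ` of `B \ {q₀}` are prescribed (the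
off-diagonal entries are coordinates, and `a s(p, p)` is the coordinate `g s(p, q₀)` plus a function of the other
coordinates). -/
def S_RDC : Prop := ∀ (ι : Type) [Fintype ι] (B σ : Finset ι) (q₀ : ι), q₀ ∈ B → σ ⊆ B.erase q₀ →
  ∀ (ν : Sym2 ι → ZMod 2) (f : ℕ → ℝ),
  (∑ g ∈ Agr σ ν, f (cr g B)) * ((univ.filter fun a : Sym2 (B.erase q₀) → ZMod 2 =>
      ∀ p q : B.erase q₀, (p : ι) ∈ σ → (q : ι) ∈ σ → p ≠ q → a s(p, q) = ν s((p : ι), (q : ι))).card : ℝ) =
    (Agr σ ν).card * ∑ a ∈ univ.filter (fun a : Sym2 (B.erase q₀) → ZMod 2 =>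
      ∀ p q : B.erase q₀, (p : ι) ∈ σ → (q : ι) ∈ σ → p ≠ q → a s(p, q) = ν s((p : ι), (q : ι))), f (ck a)

/-- MX-COND: conditional moments. Proof: choose `q₀ ∈ B \ σ` and use `S_RDC`; `B \ {q₀}` is in bijection with `σ ⊕ R`,
`#R = t`. Sort the `a` by their restriction `A` to `σ` (off-diagonal values `ν`, any diagonal). If
`ck A ≤ t - s - w` use `ft ≤ ut` and `S_BDM` (`2 ^ (s + ck A) / 2 ^ t ≤ 1 / 2 ^ w`), otherwise `ft ≤ 2 ^ (s (s + b))`. -/
def S_COND : Prop := ∀ (ι : Type) [Fintype ι] (B σ : Finset ι), σ ⊆ B → ∀ s b t w : ℕ,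
  (B \ σ).card = t + 1 → s + w ≤ t → 1 ≤ w → ∀ ν : Sym2 ι → ZMod 2,
  (∑ g ∈ Agr σ ν, ft s b (cr g B)) ≤ (Agr σ ν).card *
    (2 ^ (s * (s - 1) / 2) * (1 + 4 / 2 ^ w) + 2 ^ (s * (s + b)) * pd σ ν (t - s - w))

/-- MX-PAIR: two sets. Proof: let `σ = B ∩ B'`. For given values `ν` of `g` on the pairs of elements of `σ` the functions
`cr g B` and `cr g B'` depend on disjoint sets of the remaining coordinates of `g`, so
`(∑ g ∈ Agr σ ν, ft * ft') * #Agr = (∑ ft) * (∑ ft')`. With `S_COND`, `M = 2 ^ (s (s - 1) / 2) * (1 + 4 / 2 ^ w)`, `F = 2 ^ (s (s + b))`, `p = pd σ ν (t - s - w) ≤ 1`, the mean for `ν`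
is at most `(M + F p) ^ 2 ≤ M ^ 2 + (2 M F + F ^ 2) p ≤ M ^ 2 + 11 * F ^ 2 * p`, and the mean of `p` over `ν` is the proportion of the symmetric
matrices on `σ` of corank at least `c = t - s - w + 1`, which is at most `4 / 2 ^ (c (c + 1) / 2)` by `S_SYM`
(`ut c (ck a) ≥ ut c c ≥ 2 ^ (c ^ 2 - 2)`). -/
def S_PAIR : Prop := ∀ (ι : Type) [Fintype ι] (B B' : Finset ι) (s b t w : ℕ),
  (B \ B').card = t + 1 → (B' \ B).card = t + 1 → s + w ≤ t → 1 ≤ w →
  (∑ g : Sym2 ι → ZMod 2, ft s b (cr g B) * ft s b (cr g B')) ≤ 2 ^ Fintype.card (Sym2 ι) *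
    (2 ^ (s * (s - 1)) * (1 + 4 / 2 ^ w) ^ 2 + 2 ^ (2 * (s * (s + b)) + 6) / 2 ^ ((t - s - w) ^ 2 / 2))

/-- MX-ONE: one set. Proof: by `S_RDC` with `σ = ∅` the mean of `f (cr g B)` is the mean of `f (ck a)`, `a` on `m` points. The
mean of `ut s` is `2 ^ (s (s - 1) / 2) * ∏ i < s, (1 - 2 ^ i / 2 ^ m)` by `S_SYM`. For `c > s + b`, `ut (s + 1) c = ut s c * (2 ^ c - 2 ^ s)` is at least
`2 ^ (s + b) * ut s c`, so the mean of `ut s - ft s b` is at most `2 ^ (s (s + 1) / 2) / 2 ^ (s + b)`. -/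
def S_ONE : Prop := ∀ (ι : Type) [Fintype ι] (B : Finset ι) (s b m : ℕ), B.card = m + 1 →
  ((∑ g : Sym2 ι → ZMod 2, (ut s (cr g B) : ℝ)) ≤ 2 ^ Fintype.card (Sym2 ι) * 2 ^ (s * (s - 1) / 2)) ∧
  (2 ^ Fintype.card (Sym2 ι) * 2 ^ (s * (s - 1) / 2) * (1 - 2 ^ s / 2 ^ m - 1 / 2 ^ b) ≤
    ∑ g : Sym2 ι → ZMod 2, ft s b (cr g B))

/-- MX-LBG: in almost all graphs there are many sets with a Laplacian of large corank. Proof (second moment): let
`n = #ι`, `𝒯` the sets with `⌊n / 2⌋` elements, `#𝒯 ≥ 2 ^ n / (n + 1)`, `X g = ∑ B ∈ 𝒯, ft s b (cr g B)` with constants `b`, `w` (large,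
depending on `ε`), `M = 2 ^ (s (s - 1) / 2)`, `F = 2 ^ (s (s + b))`; `0 ≤ ft ≤ F`. By `S_ONE` the mean of `X` is at least `#𝒯 * M * (1 - η)`. The
pairs with `#(B \ B') = #(B' \ B) = t + 1 > θ n` contribute at most `#𝒯 ^ 2 * M ^ 2 * (1 + η)` to the mean of `X ^ 2` by `S_PAIR` (for large `n`;
`s ≤ √(2 n)`, so `2 ^ ((t - s - w) ^ 2 / 2)` is much larger than `F ^ 2`). For every `B` there are at most
`∑ r ≤ θ n, C(n, r) ^ 2 ≤ 2 ^ (ε n / 8)` other `B'` for small `θ` (bounds for sums of binomial coefficients, for example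
`C(n, r) θ ^ r ≤ (1 + θ) ^ n`), with contribution at most `F * M` each (`ft * ft' ≤ F * ut`, `S_ONE`), in total at most `#𝒯 * 2 ^ (ε n / 8) * F * M`,
which is at most `η * #𝒯 ^ 2 * M ^ 2` because `s (s + b) - s (s - 1) / 2 ≤ s ^ 2 / 2 + s (b + 1) ≤ (1 - ε / 2) n + s (b + 1)`. Chebyshev's inequality:
`X ≥ #𝒯 * M / 2` for all but the proportion `ε` of the `g`, and then at least `#𝒯 * M / (2 F) ≥ 2 ^ (n - s ^ 2 / 2 - ε n)` sets have
`ft s b (cr g B) > 0`, hence `s ≤ cr g B` (`ut s c = 0` for `c < s`). -/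
def S_LBG : Prop := ∀ ε : ℝ, 0 < ε → ∃ n₀ : ℕ, ∀ (ι : Type) [Fintype ι], n₀ ≤ Fintype.card ι →
  ∀ s : ℕ, (s : ℝ) ^ 2 ≤ (2 - ε) * Fintype.card ι →
  ((univ.filter fun g : Sym2 ι → ZMod 2 => ((univ.filter fun B : Finset ι => s ≤ cr g B).card : ℝ) <
      (2 : ℝ) ^ ((Fintype.card ι : ℝ) - (s : ℝ) ^ 2 / 2 - ε * Fintype.card ι)).card : ℝ) ≤
    ε * 2 ^ Fintype.card (Sym2 ι)

end Q44.MX
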