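import Pool.Agent.Q44.MX.StmB
import Pool.Agent.Q44.MX.StmC
import Pool.Agent.Q44.JQ.StmC

/-!
# Project MX, part V: the lower bound for blocks, the share of the trivial labels
-/

set_option autoImplicit false
set_option linter.unusedVariables false

namespace Q44.MX

open Finset Module
open Pool.Agent.Y703.CQ (prs ext)
open Q44.JQ (Dj Bk Sel Cr)
open Q44.LD (sb ra)
open scoped Classical

/-- MX-LBA: the lower bound for blocks. Proof: let `ι₀` be the set of the `i` with `D.T (b.hJ i) = 0`; for such `i`, `b.hJ i s₀ = 0`
(by `adj`, since `ω` is not zero). For `B ⊆ ι₀` let `σ = 1` on `B`, `0` elsewhere (in particular on `U`), and let `g s(i, j) = ext α i j`. For every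
`x : B → V` with all coordinates in the kernel of `lap g B` the element `(0, x)` satisfies all the rows
(`∑ q, N p q • (x q + x p) + 0 = 0`, `N p q = ext α p q`); the condition `(0, (∑ p, h p t • x p)_t) ∈ 𝓛` is satisfied on a subspace of
codimension at most `2 #s` (where the second component vanishes). So `2 (cr g B + 1) ≤ rkB D b σ α + 2 #s` (`B` not empty). The
restriction of a uniform `α` to the pairs in `ι₀` is uniform (`S_LBG` for the type `ι₀`; its `Sym2` contains
also the diagonal, which does not matter). -/
def S_LBA : Prop := ∀ (s V : Type) [Fintype s] [AddCommGroup V] [Module (ZMod 2) V] [Finite V]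
  (D : Dj s V), Pl D.ω → D.Sym → ∀ ε : ℝ, 0 < ε → ∃ n₀ : ℕ,
  ∀ (U ι : Type) [Fintype U] [Fintype ι] [LinearOrder ι] (b : Bk s U ι) (n : ℕ),
    n = (univ.filter fun i => D.T (b.hJ i) = 0).card → n₀ ≤ n → ∀ k : ℕ, (k : ℝ) ^ 2 ≤ (2 - ε) * n →
    ((univ.filter fun α : prs (univ : Finset ι) → ZMod 2 =>
        ((univ.filter fun σ : U ⊕ ι → ZMod 2 => 2 * k ≤ rkB D b σ α + 2 * Fintype.card s).card : ℝ) <
          (2 : ℝ) ^ ((n : ℝ) - (k : ℝ) ^ 2 / 2 - ε * n)).card : ℝ) ≤
      ε * 2 ^ (prs (univ : Finset ι)).card

/-- the number of the relations modulo squares between `-1` and the differences `a i - a j`, `i < j`: the number of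
the pairs `(e, E)`, `e` a bit, `E` a set of pairs `i < j`, such that `(-1) ^ e * ∏ (i, j) ∈ E, (a i - a j)` is a square -/
noncomputable def sqn {n : ℕ} (a : Fin n → ℤ) : ℕ :=
  ((univ : Finset (Bool × Finset (Fin n × Fin n))).filter fun x =>
    (∀ y ∈ x.2, y.1 < y.2) ∧ IsSquare ((if x.1 then (-1 : ℤ) else 1) * ∏ y ∈ x.2, (a y.1 - a y.2))).card

/-- MX-TZ: the share of the labels with trivial operator. Proof: `c.TT φ x = 0` for all `x` if and only if
`pr φ (-1) = 0` and `pr φ (a i - a j) = 0` for all `i ≠ j` (definition `Cr.tf`; `V` is the space of the vectors with three coordinates and sum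
zero; `pr φ (-z) = pr φ z + φ none`; take `x` with two nonzero coordinates). With the vectors `ct z` (the exponents modulo 2 of `z` at the
primes in `T` and the sign; `pr φ z = ∑ t, φ t * ct z t`) the `φ` with this property are the orthogonal of the span of
`ct (-1)`, `ct (a i - a j)`, `i < j`, of order `2 ^ (#T + 1)` divided by the order of the span; the map
`(e, E) ↦ e * ct (-1) + ∑ E, ct (a i - a j)` is a surjective homomorphism of a group of order 16 onto the span,
with kernel of order `sqn` (an integer whose prime divisors are in `T` is a square if and only if its `ct` is zero, `supp`). -/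
def S_TZ : Prop := ∀ (T : Finset ℕ), (∀ p ∈ T, p.Prime) → ∀ c : Cr T, c.g = 1 →
  16 * (univ.filter fun φ : Option T → ZMod 2 => c.TT φ = 0).card = 2 ^ (T.card + 1) * sqn c.a

end Q44.MX
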