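import Pool.Agent.Q44.LD.Nat
import Pool.Agent.Q44.MX.StmD
import Pool.Agent.Q44.MX.StmE
import Pool.Agent.Q44.MX.StmF

/-!
# Project MX: the bounds over the subsets of one set of primes
-/

set_option autoImplicit false
set_option linter.unusedSectionVars false
set_option linter.unusedVariables false

open scoped Classical

namespace Q44.MX

open Finset Module Filter
open Pool.Agent.Y703.CQ (nr prs ext)
open Q44.BM (Fam vm nr_rec)
open Q44.JQ
open Q155.NB (Loc LabN Tu)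
open Q44.LD (sb ra lbM ext_ra card_lab' card_eqS union_empty_lab)

variable {T : Finset ℕ} {V : Type} [AddCommGroup V] [Module (ZMod 2) V]

/-- the dimension of the space of the solutions for the set of the `p` with `Z p` -/
noncomputable def dZ (D : Dj (Option T) V) (S : Finset ℕ) (Z : S → Prop) : ℕ :=
  finrank (ZMod 2) (Sel D (fun a b : {x : S // Z x} => nr (a : S) (b : S))
    (fun a : {x : S // Z x} => lbl T (a : S)))

/-- the dimension of the space of the solutions for the set of the `p` with `σ p ≠ 0` -/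
noncomputable def dS (D : Dj (Option T) V) (S : Finset ℕ) (σ : S → ZMod 2) : ℕ :=
  dZ D S fun x => σ x ≠ 0

/-- few subsets with large spaces of solutions -/
def PU (κ : ℝ) (D : Dj (Option T) V) (ε : ℝ) (S : Finset ℕ) : Prop :=
  ∀ k : ℕ, k ^ 2 ≤ 8 * S.card →
    (Nat.card {σ : S → ZMod 2 // k ≤ dS D S σ} : ℝ) ≤ (2 : ℝ) ^ (ε * S.card) *
      ((2 : ℝ) ^ ((S.card : ℝ) - (k : ℝ) ^ 2 / (2 * κ)) +
        (2 : ℝ) ^ (((S.card : ℝ) - (k : ℝ) ^ 2 / (2 * κ)) / 4))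

/-- the upper bound for blocks -/
def UBD {s V : Type} [Fintype s] [AddCommGroup V] [Module (ZMod 2) V] (κ : ℝ) (D : Dj s V) : Prop :=
  ∀ ε : ℝ, 0 < ε → ∃ δ : ℝ, 0 < δ ∧ ∃ n₀ : ℕ, ∀ (U ι : Type) [Fintype U] [Fintype ι] [LinearOrder ι]
    (b : Bk s U ι), n₀ ≤ Fintype.card ι → (Fintype.card U : ℝ) ^ 2 ≤ δ * Fintype.card ι →
    (∀ φ : s → ZMod 2, ((univ.filter fun i => b.hJ i = φ).card : ℝ) ≤
      (1 / 2 ^ Fintype.card s + δ) * Fintype.card ι) →
    ((univ.filter fun α : prs (univ : Finset ι) → ZMod 2 => ∃ k : ℕ, k ^ 2 ≤ 9 * Fintype.card ι ∧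
        (2 : ℝ) ^ (ε * Fintype.card ι) *
          ((2 : ℝ) ^ ((Fintype.card ι : ℝ) - (k : ℝ) ^ 2 / (2 * κ)) +
            (2 : ℝ) ^ (((Fintype.card ι : ℝ) - (k : ℝ) ^ 2 / (2 * κ)) / 4)) <
          ((univ.filter fun σ : U ⊕ ι → ZMod 2 => k ≤ rkB D b σ α).card : ℝ)).card : ℝ) ≤
      ε * 2 ^ (prs (univ : Finset ι)).card

theorem ubd1 (h : S_UBP) {s V : Type} [Fintype s] [AddCommGroup V] [Module (ZMod 2) V] [Finite V]
    {D : Dj s V} (hPl : Pl D.ω) (hSym : D.Sym) (hA : Algebra.adjoin (ZMod 2)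
      (Set.range fun φ : s → ZMod 2 => (D.T φ : Module.End (ZMod 2) V)) = ⊤) : UBD 1 D := by
  have h1 := h s V D hPl hSym hA
  unfold UBD
  rw [mul_one]
  exact h1

theorem ubd2 (h : S_UBPR) {s V : Type} [Fintype s] [AddCommGroup V] [Module (ZMod 2) V] [Finite V]
    {D : Dj s V} (hPl : Pl D.ω) (hSym : D.Sym) : UBD 2 D := by
  have h1 := h s V D hPl hSym
  unfold UBD
  have e : (2 * 2 : ℝ) = 4 := by norm_num
  rw [e]
  exact h1

/-- the share of the labels with trivial operator -/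
noncomputable def πT (D : Dj (Option T) V) : ℝ :=
  (Nat.card {φ : Option T → ZMod 2 // D.T φ = 0} : ℝ) / 2 ^ (T.card + 1)

/-- many subsets with large spaces of solutions -/
def PL (D : Dj (Option T) V) (x ε : ℝ) (S : Finset ℕ) : Prop :=
  (2 : ℝ) ^ ((πT D - x ^ 2 / 2 - ε) * S.card) ≤
    (Nat.card {σ : S → ZMod 2 // 2 * (x * √(S.card : ℝ)) ≤
      (dS D S σ : ℝ) + 2 * (T.card + 1)} : ℝ)

section transfer

theorem nc {α : Type} {i₁ : Fintype α} (P : α → Prop) {i₂ : DecidablePred P} :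
    (univ.filter P).card = Nat.card {x // P x} := by
  rw [Nat.card_eq_fintype_card, Fintype.card_subtype]

theorem card_mono {α : Type} [Finite α] {P Q : α → Prop} (h : ∀ x, P x → Q x) :
    Nat.card {x // P x} ≤ Nat.card {x // Q x} :=
  Nat.card_le_card_of_injective (fun x : {x // P x} => (⟨x.1, h x.1 x.2⟩ : {x // Q x}))
    fun x y h => Subtype.ext (congrArg (fun z : {x // Q x} => z.1) h)

variable (L : LB T) (D : Dj (Option T) V)
variable {ι : Type} [Fintype ι] [LinearOrder ι] {S₀ : Finset ℕ} {p : ι → ℕ}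

/-- the elements of the set `Z` -/
noncomputable def eqZ (hp : Function.Injective p) (hd : ∀ i, p i ∉ S₀) {A : S₀ → Prop} {B : ι → Prop}
    {Z : (S₀ ∪ univ.image p : Finset ℕ) → Prop} (hA : ∀ u, A u ↔ Z (eqS hp hd (Sum.inl u)))
    (hB : ∀ i, B i ↔ Z (eqS hp hd (Sum.inr i))) : {u : S₀ // A u} ⊕ {i : ι // B i} ≃
      {x : (S₀ ∪ univ.image p : Finset ℕ) // Z x} :=
  ((Equiv.sumCongr (Equiv.subtypeEquivRight hA) (Equiv.subtypeEquivRight hB)).trans
    (Equiv.subtypeSum (p := fun y => Z (eqS hp hd y))).symm).trans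
    ((eqS hp hd).subtypeEquiv fun _ => Iff.rfl)

include L

theorem rk_eq (hs : D.s₀ = none) (hP : ∀ i, (RT T L.toTS).Φ.P (p i)) (hp : Function.Injective p)
    (hd : ∀ i, p i ∉ S₀) {A : S₀ → Prop} {B : ι → Prop}
    {Z : (S₀ ∪ univ.image p : Finset ℕ) → Prop} (hA : ∀ u, A u ↔ Z (eqS hp hd (Sum.inl u)))
    (hB : ∀ i, B i ↔ Z (eqS hp hd (Sum.inr i))) :
    dZ D (S₀ ∪ univ.image p) Z = rk D (bkT T S₀ p) A B
      (fun x : prs (univ : Finset ι) => nr (p x.1.1) (p x.1.2)) := by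
  unfold rk dZ
  rw [hs]
  refine (sel_reindex D (eqZ hp hd hA hB)
    ((sb (bkT T S₀ p) A B).N none
      (ra B fun x : prs (univ : Finset ι) => nr (p x.1.1) (p x.1.2))) _
    (sb (bkT T S₀ p) A B).h _ ?_ ?_).symm
  · rintro (u | i) <;> rfl
  · rintro (u | i) (v | j) hne
    · rfl
    · rfl
    · rfl
    · have hij : i ≠ j := fun h => hne (congrArg Sum.inr h)
      show nr (p i) (p j) = ext (ra _ _) i j +
        (if (j : ι) < (i : ι) then lbl T (p i) none * lbl T (p j) none else 0)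
      rw [ext_ra _ _ hij]
      have hij' : (i : ι) ≠ (j : ι) := fun h => hij (Subtype.ext h)
      obtain ⟨h1, h2⟩ := (RT_P L.toTS).1 (hP i)
      obtain ⟨h3, h4⟩ := (RT_P L.toTS).1 (hP j)
      rcases lt_or_gt_of_ne hij' with h | h
      · rw [if_neg h.asymm, add_zero, Pool.Agent.Y219.CQ.ext_pos univ _
          ((Pool.Agent.Y219.CQ.mem_prs univ (i : ι) j).2 ⟨mem_univ _, h.ne', fun _ => h⟩)]
      · rw [if_pos h, Pool.Agent.Y219.CQ.ext_neg univ _
          ((Pool.Agent.Y219.CQ.mem_prs univ (j : ι) i).2 ⟨mem_univ _, h.ne', fun _ => h⟩) (mem_univ _),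
          lbl_none L h1 h2, lbl_none L h3 h4]
        exact nr_rec h1 (L.toTS.ne2 h2) h3 (L.toTS.ne2 h4) fun he => hij' (hp he)

theorem dS_eq (hs : D.s₀ = none) (hP : ∀ i, (RT T L.toTS).Φ.P (p i)) (hp : Function.Injective p)
    (hd : ∀ i, p i ∉ S₀) (σ : (S₀ ∪ univ.image p : Finset ℕ) → ZMod 2) :
    dS D (S₀ ∪ univ.image p) σ = rkB D (bkT T S₀ p) (σ ∘ eqS hp hd)
      (fun x : prs (univ : Finset ι) => nr (p x.1.1) (p x.1.2)) := by
  exact rk_eq L D hs hP hp hd (A := fun u => (σ ∘ eqS hp hd) (Sum.inl u) ≠ 0)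
    (B := fun i => (σ ∘ eqS hp hd) (Sum.inr i) ≠ 0) (Z := fun x => σ x ≠ 0)
    (fun _ => Iff.rfl) fun _ => Iff.rfl

theorem card_dS (hs : D.s₀ = none) (hP : ∀ i, (RT T L.toTS).Φ.P (p i)) (hp : Function.Injective p)
    (hd : ∀ i, p i ∉ S₀) (Q : ℕ → Prop) :
    Nat.card {σ : (S₀ ∪ univ.image p : Finset ℕ) → ZMod 2 // Q (dS D (S₀ ∪ univ.image p) σ)} =
    Nat.card {σ : S₀ ⊕ ι → ZMod 2 // Q (rkB D (bkT T S₀ p) σ
      (fun x : prs (univ : Finset ι) => nr (p x.1.1) (p x.1.2)))} := by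
  refine Nat.card_congr ((Equiv.arrowCongr (eqS hp hd).symm (Equiv.refl _)).subtypeEquiv fun σ => ?_)
  rw [dS_eq L D hs hP hp hd]
  rfl

end transfer

variable (L : LB T)

include L

/-- the regularity depends on the labels only -/
theorem labE (θ : ℝ) (n₀ : ℕ) :
    LabN (RT T L.toTS).Φ (lbM L) (Eqd (clT T) (1 / 2 ^ (T.card + 1)) θ n₀) ∅ := by
  intro ι _ J1 S₀ p q _ hp hq hl hR
  have hb : ∀ i, _ := fun i => L.lbx (p i) (q i) (hp.2 i).1 (hq.2 i).1
    (congrArg (fun z => z.2.2) (hl i))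
  have e : (univ.image p).card = (univ.image q).card := by
    rw [card_image_of_injective _ hp.1, card_image_of_injective _ hq.1]
  refine ⟨e ▸ hR.1, e ▸ hR.2.1, fun φ => ?_⟩
  have h4 := hR.2.2 φ
  rw [card_lab' hp.1, e] at h4
  rw [card_lab' hq.1]
  have h5 : (univ.filter fun i => clT T φ (q i)).card = (univ.filter fun i => clT T φ (p i)).card :=
    congrArg Finset.card (Finset.filter_congr fun k _ => ((hb k).2.1 φ).symm)
  rw [h5]
  exact h4

/-- the number of the large primes with a given label -/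
theorem card_hJ {ι : Type} [Fintype ι] {S₀ : Finset ℕ} {q : ι → ℕ}
    (hq : Function.Injective q) (hP : ∀ i, (RT T L.toTS).Φ.P (q i)) {θ : ℝ} {n₀ : ℕ}
    (hN : Eqd (clT T) (1 / 2 ^ (T.card + 1)) θ n₀ S₀ (univ.image q)) :
    n₀ ≤ Fintype.card ι ∧ (S₀.card : ℝ) ^ 2 ≤ θ * Fintype.card ι ∧
    ∀ φ : Option T → ZMod 2, |((univ.filter fun i => (bkT T S₀ q).hJ i = φ).card : ℝ) -
      1 / 2 ^ (T.card + 1) * Fintype.card ι| ≤ θ * Fintype.card ι := by
  have e : (univ.image q).card = Fintype.card ι := by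
    rw [card_image_of_injective _ hq, card_univ]
  refine ⟨e ▸ hN.1, e ▸ hN.2.1, fun φ => ?_⟩
  have h4 := hN.2.2 φ
  rw [card_lab' hq, e] at h4
  have h5 : (univ.filter fun i => clT T φ (q i)) = univ.filter fun i => (bkT T S₀ q).hJ i = φ := by
    refine Finset.filter_congr fun i _ => ?_
    obtain ⟨h3, h4⟩ := (RT_P L.toTS).1 (hP i)
    exact ⟨fun h => h.2.2, fun h => ⟨h3, h4, h⟩⟩
  rw [h5] at h4
  exact h4

theorem two_rpow_mono {x y : ℝ} (h : x ≤ y) : (2 : ℝ) ^ x ≤ (2 : ℝ) ^ y :=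
  Real.rpow_le_rpow_of_exponent_le one_le_two h

/-- the upper bound for almost all tables of symbols -/
theorem locU {κ : ℝ} {D : Dj (Option T) V} (hD : UBD κ D) (hs : D.s₀ = none)
    {ε ε' : ℝ} (hε : 0 < ε) (hε' : 0 < ε') :
    ∃ (θ : ℝ) (n₀ : ℕ), 0 < θ ∧ Loc (RT T L.toTS).Φ (lbM L)
      (Eqd (clT T) (1 / 2 ^ (T.card + 1)) θ n₀) (PU κ D ε) ∅ ε' := by
  obtain ⟨δ, hδ, n₀, hB⟩ := hD (min ε ε') (lt_min hε hε')
  refine ⟨min δ 1, max n₀ 64, lt_min hδ one_pos, ?_⟩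
  intro ι _ _ J1 S₀ q hS ht hN
  have hJ : J1 = univ := by
    ext i
    exact ⟨fun _ => mem_univ _, fun _ => ((ht.2 i).2.2).2 ((RT_A L.toTS).2
      ((RT_P L.toTS).1 (ht.2 i).1))⟩
  subst hJ
  have hq : Function.Injective q := ht.1
  obtain ⟨g1, g2, g3⟩ := card_hJ L hq (fun i => (ht.2 i).1) hN
  have hn0 : n₀ ≤ Fintype.card ι := (le_max_left _ _).trans g1
  have hn64 : 64 ≤ Fintype.card ι := (le_max_right _ _).trans g1
  have hι0 : (0 : ℝ) ≤ Fintype.card ι := Nat.cast_nonneg _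
  have hcs : Fintype.card (Option T) = T.card + 1 := by
    rw [Fintype.card_option, Fintype.card_coe]
  have h1 := hB S₀ ι (bkT T S₀ q) hn0 (by
    rw [Fintype.card_coe]
    exact g2.trans (mul_le_mul_of_nonneg_right (min_le_left _ _) hι0)) (fun φ => by
    rw [hcs]
    have h2 := (abs_le.1 (g3 φ)).2
    have h3 := mul_le_mul_of_nonneg_right (min_le_left δ 1) hι0
    rw [add_mul]
    linarith)
  obtain ⟨Q, hQ'⟩ : ∃ Q : (prs (univ : Finset ι) → ZMod 2) → Prop, ∀ α, Q α ↔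
      ¬ ∃ k : ℕ, k ^ 2 ≤ 9 * Fintype.card ι ∧
        (2 : ℝ) ^ (min ε ε' * Fintype.card ι) *
          ((2 : ℝ) ^ ((Fintype.card ι : ℝ) - (k : ℝ) ^ 2 / (2 * κ)) +
            (2 : ℝ) ^ (((Fintype.card ι : ℝ) - (k : ℝ) ^ 2 / (2 * κ)) / 4)) <
          (Nat.card {σ : S₀ ⊕ ι → ZMod 2 // k ≤ rkB D (bkT T S₀ q) σ α} : ℝ) :=
    ⟨_, fun _ => Iff.rfl⟩
  refine ⟨Q, ?_, ?_⟩
  · refine le_trans ?_ (h1.trans (mul_le_mul_of_nonneg_right (min_le_right _ _) (by positivity)))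
    refine Nat.cast_le.2 (Finset.card_le_card fun α hα => ?_)
    rw [mem_filter] at hα ⊢
    refine ⟨hα.1, ?_⟩
    have h2 := hα.2
    rw [hQ', not_not] at h2
    obtain ⟨k, h3, h4⟩ := h2
    refine ⟨k, h3, ?_⟩
    rw [nc]
    exact h4
  · intro p hpT hl hQ
    have hp : Function.Injective p := hpT.1
    have hdp : ∀ i, p i ∉ S₀ := fun i h => (hpT.2 i).2.1 (mem_union_left _ h)
    have hlab : ∀ i, lbl T (q i) = lbl T (p i) := fun i =>
      (L.lbx (q i) (p i) (ht.2 i).1 (hpT.2 i).1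
        (congrArg (fun z => z.2.2) (hl i)).symm).2.2
    have hbk : bkT T S₀ p = bkT T S₀ q := by
      refine bkT_lab (lb := lbM L) hlab fun i => ?_
      exact (union_empty_lab (hl i)).symm
    intro k hk
    have hcard := card_eqS hp hdp
    have hS0 : S₀.card * 8 ≤ Fintype.card ι := by
      have h2 : (S₀.card : ℝ) ^ 2 ≤ Fintype.card ι := by
        refine g2.trans ?_
        have := mul_le_mul_of_nonneg_right (min_le_right δ 1) hι0
        rwa [one_mul] at this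
      have h3 : S₀.card ^ 2 ≤ Fintype.card ι := by exact_mod_cast h2
      by_contra hc
      push Not at hc
      have h4 : Fintype.card ι * Fintype.card ι < 64 * Fintype.card ι := by
        calc Fintype.card ι * Fintype.card ι < (S₀.card * 8) * (S₀.card * 8) :=
              Nat.mul_lt_mul'' hc hc
          _ = 64 * S₀.card ^ 2 := by ring
          _ ≤ 64 * Fintype.card ι := Nat.mul_le_mul_left _ h3
      have h5 := Nat.lt_of_mul_lt_mul_right h4
      omega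
    have hk9 : k ^ 2 ≤ 9 * Fintype.card ι := by
      rw [hcard] at hk
      omega
    have h2 : ¬ ((2 : ℝ) ^ (min ε ε' * Fintype.card ι) *
          ((2 : ℝ) ^ ((Fintype.card ι : ℝ) - (k : ℝ) ^ 2 / (2 * κ)) +
            (2 : ℝ) ^ (((Fintype.card ι : ℝ) - (k : ℝ) ^ 2 / (2 * κ)) / 4)) <
          (Nat.card {σ : S₀ ⊕ ι → ZMod 2 // k ≤ rkB D (bkT T S₀ q) σ
            (fun x : prs (univ : Finset ι) => nr (p x.1.1) (p x.1.2))} : ℝ)) := fun hc =>
      (hQ' _).1 hQ ⟨k, hk9, hc⟩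
    rw [not_lt, ← hbk] at h2
    rw [card_dS L D hs (fun i => (hpT.2 i).1) hp hdp fun m => k ≤ m]
    refine h2.trans ?_
    have hci : (Fintype.card ι : ℝ) ≤ ((S₀ ∪ univ.image p).card : ℝ) := by
      rw [hcard]
      push_cast
      linarith [Nat.cast_nonneg (α := ℝ) S₀.card]
    refine mul_le_mul (two_rpow_mono L ?_) (add_le_add (two_rpow_mono L ?_) (two_rpow_mono L ?_))
      (by positivity) (by positivity)
    · calc min ε ε' * (Fintype.card ι : ℝ) ≤ ε * Fintype.card ι :=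
            mul_le_mul_of_nonneg_right (min_le_left _ _) hι0
        _ ≤ _ := mul_le_mul_of_nonneg_left hci hε.le
    · linarith
    · linarith

omit L in
theorem πT_pos (D : Dj (Option T) V) : 0 < πT D := by
  unfold πT
  have : Nonempty {φ : Option T → ZMod 2 // D.T φ = 0} := ⟨⟨0, map_zero _⟩⟩
  have h1 : 0 < Nat.card {φ : Option T → ZMod 2 // D.T φ = 0} := Nat.card_pos
  have h2 : (0 : ℝ) < Nat.card {φ : Option T → ZMod 2 // D.T φ = 0} := by exact_mod_cast h1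
  positivity

omit L in
theorem card_lab : Nat.card (Option T → ZMod 2) = 2 ^ (T.card + 1) := by
  rw [Nat.card_eq_fintype_card, Fintype.card_fun, Fintype.card_option, Fintype.card_coe, ZMod.card]

omit L in
theorem πT_le (D : Dj (Option T) V) : πT D ≤ 1 := by
  unfold πT
  rw [div_le_one (by positivity)]
  have h1 : Nat.card {φ : Option T → ZMod 2 // D.T φ = 0} ≤ Nat.card (Option T → ZMod 2) :=
    Nat.card_le_card_of_injective _ Subtype.val_injective
  rw [card_lab] at h1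
  exact_mod_cast h1

omit L in
/-- the number of the large primes with trivial operator -/
theorem card_tz {ι : Type} [Fintype ι] (D : Dj (Option T) V) (h : ι → Option T → ZMod 2) {θ : ℝ}
    (hθ : ∀ φ : Option T → ZMod 2, |((univ.filter fun i => h i = φ).card : ℝ) -
      1 / 2 ^ (T.card + 1) * Fintype.card ι| ≤ θ * Fintype.card ι) :
    |((univ.filter fun i => D.T (h i) = 0).card : ℝ) - πT D * Fintype.card ι| ≤
      θ * 2 ^ (T.card + 1) * Fintype.card ι := by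
  set Z := univ.filter fun φ : Option T → ZMod 2 => D.T φ = 0 with hZ
  have e1 : (univ.filter fun i => D.T (h i) = 0).card =
      ∑ φ ∈ Z, (univ.filter fun i => h i = φ).card := by
    rw [Finset.card_eq_sum_card_fiberwise (f := h) (t := Z) (by
      intro i hi
      rw [Finset.mem_coe, Finset.mem_filter] at hi
      rw [Finset.mem_coe, hZ, Finset.mem_filter]
      exact ⟨mem_univ _, hi.2⟩)]
    refine Finset.sum_congr rfl fun φ hφ => ?_
    congr 1
    ext i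
    rw [mem_filter, mem_filter, mem_filter]
    constructor
    · rintro ⟨⟨h1, h2⟩, h3⟩
      exact ⟨h1, h3⟩
    · rintro ⟨h1, h3⟩
      refine ⟨⟨h1, ?_⟩, h3⟩
      rw [h3]
      exact (mem_filter.1 hφ).2
  have e2 : πT D * Fintype.card ι = ∑ φ ∈ Z, 1 / 2 ^ (T.card + 1) * (Fintype.card ι : ℝ) := by
    rw [Finset.sum_const, nsmul_eq_mul]
    unfold πT
    rw [hZ, nc]
    ring
  have h0 : (0 : ℝ) ≤ θ * Fintype.card ι := (abs_nonneg _).trans (hθ 0)
  rw [e1, e2]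
  push_cast
  rw [← Finset.sum_sub_distrib]
  refine (Finset.abs_sum_le_sum_abs _ _).trans ((Finset.sum_le_sum fun φ _ => hθ φ).trans ?_)
  rw [Finset.sum_const, nsmul_eq_mul]
  have h1 : Z.card ≤ 2 ^ (T.card + 1) := by
    refine (Finset.card_le_univ Z).trans (le_of_eq ?_)
    rw [← Nat.card_eq_fintype_card]
    exact card_lab
  have h2 : (Z.card : ℝ) ≤ 2 ^ (T.card + 1) := by exact_mod_cast h1
  calc (Z.card : ℝ) * (θ * Fintype.card ι) ≤ 2 ^ (T.card + 1) * (θ * Fintype.card ι) :=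
        mul_le_mul_of_nonneg_right h2 h0
    _ = _ := by ring

omit L in
/-- the inequalities between the parameters -/
theorem num {π ε x τ N n s s₀ k : ℝ} (hπ : 0 < π) (hπ1 : π ≤ 1) (hε : 0 < ε) (hx : 0 ≤ x)
    (hxε : x ^ 2 ≤ (2 - ε) * π) (hτ : τ = ε * π / 8) (hN : 0 ≤ N) (hs : s = s₀ + N) (h0 : 0 ≤ s₀)
    (hs₀ : s₀ ≤ τ * N) (hn : (π - τ) * N ≤ n) (hnN : n ≤ N) (hk : k ^ 2 ≤ (x ^ 2 + τ) * s) :
    k ^ 2 ≤ (2 - τ) * n ∧ (π - x ^ 2 / 2 - ε) * s ≤ n - k ^ 2 / 2 - τ * n := by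
  have hε2 : ε ≤ 2 := by
    by_contra hc
    push Not at hc
    nlinarith [sq_nonneg x]
  have hτ0 : 0 < τ := by rw [hτ]; positivity
  have hτε : 8 * τ ≤ ε := by
    rw [hτ]
    nlinarith
  have hτπ : 8 * τ = ε * π := by rw [hτ]; ring
  have hτ1 : τ ≤ 1 / 4 := by linarith
  have hx2 : x ^ 2 ≤ 2 := by nlinarith
  have hs0 : 0 ≤ s := by rw [hs]; linarith
  have hsN : s ≤ (1 + τ) * N := by rw [hs]; linarith
  have hπτ : 0 ≤ π - τ := by nlinarith
  constructor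
  · have h1 : (x ^ 2 + τ) * s ≤ (x ^ 2 + τ) * ((1 + τ) * N) :=
      mul_le_mul_of_nonneg_left hsN (by positivity)
    have h2 : (x ^ 2 + τ) * (1 + τ) ≤ (2 - τ) * (π - τ) := by
      have h3 : (x ^ 2 + τ) * (1 + τ) = x ^ 2 + τ + τ * (x ^ 2 + τ) := by ring
      have h4 : τ * (x ^ 2 + τ) ≤ τ * 3 := mul_le_mul_of_nonneg_left (by linarith) hτ0.le
      have h5 : (2 - τ) * (π - τ) = 2 * π - τ * π - 2 * τ + τ ^ 2 := by ring
      have h6 : τ * π ≤ τ := by nlinarith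
      have h7 : x ^ 2 ≤ 2 * π - ε * π := by linarith
      nlinarith [sq_nonneg τ]
    have h3 : (2 - τ) * ((π - τ) * N) ≤ (2 - τ) * n :=
      mul_le_mul_of_nonneg_left hn (by linarith)
    have h4 : (x ^ 2 + τ) * (1 + τ) * N ≤ (2 - τ) * (π - τ) * N :=
      mul_le_mul_of_nonneg_right h2 hN
    linarith [hk.trans h1]
  · have h1 : (1 - τ) * s ≤ N := by
      have h2 : (1 - τ) * s ≤ (1 - τ) * ((1 + τ) * N) :=
        mul_le_mul_of_nonneg_left hsN (by linarith)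
      have h3 : (1 - τ) * ((1 + τ) * N) = N - τ ^ 2 * N := by ring
      have h4 : 0 ≤ τ ^ 2 * N := by positivity
      linarith
    have h2 : (π - τ) * ((1 - τ) * s) ≤ (π - τ) * N := mul_le_mul_of_nonneg_left h1 hπτ
    have h3 : (π - τ - τ) * s ≤ (π - τ) * ((1 - τ) * s) := by
      have h4 : (π - τ - τ) ≤ (π - τ) * (1 - τ) := by nlinarith
      have h5 := mul_le_mul_of_nonneg_right h4 hs0
      linarith
    have h4 : τ * n ≤ τ * s := mul_le_mul_of_nonneg_left (by rw [hs]; linarith) hτ0.le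
    have h5 : 4 * τ * s ≤ ε * s := mul_le_mul_of_nonneg_right (by linarith) hs0
    linarith

/-- the lower bound for almost all tables of symbols -/
theorem locL (hLBA : S_LBA) [Finite V] {D : Dj (Option T) V} (hs : D.s₀ = none) (hPl : Pl D.ω)
    (hSym : D.Sym) {x ε ε' : ℝ} (hx : 0 ≤ x) (hxε : x ^ 2 ≤ (2 - ε) * πT D) (hε : 0 < ε)
    (hε' : 0 < ε') :
    ∃ (θ : ℝ) (n₀ : ℕ), 0 < θ ∧ Loc (RT T L.toTS).Φ (lbM L)
      (Eqd (clT T) (1 / 2 ^ (T.card + 1)) θ n₀) (PL D x ε) ∅ ε' := by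
  have hπ := πT_pos D
  have hπ1 := πT_le D
  obtain ⟨τ, hτ⟩ : ∃ τ : ℝ, τ = ε * πT D / 8 := ⟨_, rfl⟩
  have hτ0 : 0 < τ := by rw [hτ]; positivity
  obtain ⟨n₁, hB⟩ := hLBA (Option T) V D hPl hSym (min τ ε') (lt_min hτ0 hε')
  obtain ⟨m, hm⟩ := exists_nat_gt (max (25 / τ ^ 2) (2 * (n₁ + 1) / πT D))
  have hm1 : 25 / τ ^ 2 < m := (le_max_left _ _).trans_lt hm
  have hm2 : 2 * (n₁ + 1) / πT D < m := (le_max_right _ _).trans_lt hm
  refine ⟨min (τ / 2 ^ (T.card + 1)) (τ ^ 2), max m 1, lt_min (by positivity) (by positivity), ?_⟩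
  intro ι _ _ J1 S₀ q hS ht hN
  have hJ : J1 = univ := by
    ext i
    exact ⟨fun _ => mem_univ _, fun _ => ((ht.2 i).2.2).2 ((RT_A L.toTS).2
      ((RT_P L.toTS).1 (ht.2 i).1))⟩
  subst hJ
  have hq : Function.Injective q := ht.1
  obtain ⟨g1, g2, g3⟩ := card_hJ L hq (fun i => (ht.2 i).1) hN
  obtain ⟨N, hNd⟩ : ∃ N : ℕ, N = Fintype.card ι := ⟨_, rfl⟩
  rw [← hNd] at g1 g2
  have g3' : ∀ φ : Option T → ZMod 2, |((univ.filter fun i => (bkT T S₀ q).hJ i = φ).card : ℝ) -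
      1 / 2 ^ (T.card + 1) * Fintype.card ι| ≤ τ / 2 ^ (T.card + 1) * Fintype.card ι := fun φ =>
    (g3 φ).trans (mul_le_mul_of_nonneg_right (min_le_left _ _) (Nat.cast_nonneg _))
  have hmN : m ≤ N := (le_max_left _ _).trans g1
  have hN1 : 1 ≤ N := (le_max_right _ _).trans g1
  have hN1' : (1 : ℝ) ≤ N := by exact_mod_cast hN1
  have hmN' : (m : ℝ) ≤ N := by exact_mod_cast hmN
  obtain ⟨n, hn⟩ : ∃ n : ℕ, n = (univ.filter fun i => D.T ((bkT T S₀ q).hJ i) = 0).card := ⟨_, rfl⟩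
  have hn1 := (abs_le.1 (card_tz D _ g3')).1
  rw [← hn, ← hNd, div_mul_cancel₀ _ (by positivity : (2 : ℝ) ^ (T.card + 1) ≠ 0)] at hn1
  have hnN : n ≤ N := by
    rw [hn, hNd]
    exact (Finset.card_filter_le _ _).trans (le_of_eq card_univ)
  have hnN' : (n : ℝ) ≤ N := by exact_mod_cast hnN
  have hε2 : ε ≤ 2 := by
    by_contra hc
    push Not at hc
    nlinarith [sq_nonneg x]
  have hτπ : τ ≤ πT D / 4 := by
    rw [hτ]
    nlinarith
  have hn₁ : n₁ ≤ n := by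
    rw [div_lt_iff₀ hπ] at hm2
    have h1 : (m : ℝ) * πT D ≤ N * πT D := mul_le_mul_of_nonneg_right hmN' hπ.le
    have h2 : τ * N ≤ πT D / 4 * N := mul_le_mul_of_nonneg_right hτπ (Nat.cast_nonneg _)
    have h3 : (n₁ : ℝ) ≤ n := by nlinarith
    exact_mod_cast h3
  have hs₀ : (S₀.card : ℝ) ≤ τ * N := by
    refine abs_le_of_sq_le_sq' ?_ (by positivity) |>.2
    calc (S₀.card : ℝ) ^ 2 ≤ τ ^ 2 * N :=
          g2.trans (mul_le_mul_of_nonneg_right (min_le_right _ _) (Nat.cast_nonneg _))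
      _ ≤ τ ^ 2 * N ^ 2 := mul_le_mul_of_nonneg_left (by nlinarith) (by positivity)
      _ = _ := by ring
  obtain ⟨s, hs'⟩ : ∃ s : ℕ, s = S₀.card + N := ⟨_, rfl⟩
  have hsr : (s : ℝ) = S₀.card + N := by rw [hs']; push_cast; ring
  have hsN : (N : ℝ) ≤ s := by
    rw [hsr]
    linarith [Nat.cast_nonneg (α := ℝ) S₀.card]
  obtain ⟨k, hk⟩ : ∃ k : ℕ, k = ⌈x * √(s : ℝ)⌉₊ := ⟨_, rfl⟩
  have hxs : x * √(s : ℝ) ≤ k := by
    rw [hk]
    exact Nat.le_ceil _
  have hk1 : (k : ℝ) ≤ x * √(s : ℝ) + 1 := by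
    rw [hk]
    exact (Nat.ceil_lt_add_one (by positivity)).le
  have hx2 : x ≤ 2 := by
    have h1 : x ^ 2 ≤ 2 := by nlinarith
    nlinarith
  have hk2 : (k : ℝ) ^ 2 ≤ (x ^ 2 + τ) * s := by
    have h1 : √(s : ℝ) ^ 2 = s := Real.sq_sqrt (Nat.cast_nonneg _)
    have h2 : 5 / τ ≤ √(s : ℝ) := by
      refine Real.le_sqrt_of_sq_le ?_
      have h3 : (5 / τ) ^ 2 = 25 / τ ^ 2 := by
        rw [div_pow]
        norm_num
      rw [h3]
      linarith
    rw [div_le_iff₀ hτ0] at h2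
    have h3 : 1 ≤ √(s : ℝ) := by
      refine Real.le_sqrt_of_sq_le ?_
      linarith
    have h4 : (k : ℝ) ^ 2 ≤ (x * √(s : ℝ) + 1) ^ 2 :=
      pow_le_pow_left₀ (Nat.cast_nonneg _) hk1 2
    have h5 : (x * √(s : ℝ) + 1) ^ 2 = x ^ 2 * √(s : ℝ) ^ 2 + 2 * x * √(s : ℝ) + 1 := by ring
    have h6 : 2 * x * √(s : ℝ) + 1 ≤ 5 * √(s : ℝ) := by nlinarith
    have h7 : 5 * √(s : ℝ) ≤ √(s : ℝ) * τ * √(s : ℝ) :=
      mul_le_mul_of_nonneg_right h2 (Real.sqrt_nonneg _)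
    have h8 : √(s : ℝ) * τ * √(s : ℝ) = τ * √(s : ℝ) ^ 2 := by ring
    rw [h5, h1] at h4
    rw [h8, h1] at h7
    linarith
  obtain ⟨c1, c2⟩ := num hπ hπ1 hε hx hxε hτ (Nat.cast_nonneg N) hsr (Nat.cast_nonneg _) hs₀
    (by linarith) hnN' hk2
  have hmt : min τ ε' ≤ τ := min_le_left _ _
  have hn0 : (0 : ℝ) ≤ n := Nat.cast_nonneg _
  have hmn : min τ ε' * (n : ℝ) ≤ τ * n := mul_le_mul_of_nonneg_right hmt hn0
  have h1 := hB S₀ ι (bkT T S₀ q) n hn hn₁ k (by linarith)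
  obtain ⟨Q, hQ'⟩ : ∃ Q : (prs (univ : Finset ι) → ZMod 2) → Prop, ∀ α, Q α ↔
      ¬ ((Nat.card {σ : S₀ ⊕ ι → ZMod 2 //
        2 * k ≤ rkB D (bkT T S₀ q) σ α + 2 * Fintype.card (Option T)} : ℝ) <
          (2 : ℝ) ^ ((n : ℝ) - (k : ℝ) ^ 2 / 2 - min τ ε' * n)) := ⟨_, fun _ => Iff.rfl⟩
  refine ⟨Q, ?_, ?_⟩
  · refine le_trans ?_ (h1.trans (mul_le_mul_of_nonneg_right (min_le_right _ _) (by positivity)))
    refine Nat.cast_le.2 (Finset.card_le_card fun α hα => ?_)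
    rw [mem_filter] at hα ⊢
    refine ⟨hα.1, ?_⟩
    have h2 := hα.2
    rw [hQ', not_not] at h2
    rw [nc]
    exact h2
  · intro p hpT hl hQ
    have hp : Function.Injective p := hpT.1
    have hdp : ∀ i, p i ∉ S₀ := fun i h => (hpT.2 i).2.1 (mem_union_left _ h)
    have hlab : ∀ i, lbl T (q i) = lbl T (p i) := fun i =>
      (L.lbx (q i) (p i) (ht.2 i).1 (hpT.2 i).1
        (congrArg (fun z => z.2.2) (hl i)).symm).2.2
    have hbk : bkT T S₀ p = bkT T S₀ q := by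
      refine bkT_lab (lb := lbM L) hlab fun i => ?_
      exact (union_empty_lab (hl i)).symm
    have hcard := card_eqS hp hdp
    rw [← hNd, ← hs'] at hcard
    have h2 := not_lt.1 ((hQ' _).1 hQ)
    rw [← hbk] at h2
    unfold PL
    have h3 := card_dS L D hs (fun i => (hpT.2 i).1) hp hdp fun m =>
      2 * k ≤ m + 2 * Fintype.card (Option T)
    rw [← h3] at h2
    have hcs : Fintype.card (Option T) = T.card + 1 := by
      rw [Fintype.card_option, Fintype.card_coe]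
    have h4 : Nat.card {σ : (S₀ ∪ univ.image p : Finset ℕ) → ZMod 2 //
        2 * k ≤ dS D (S₀ ∪ univ.image p) σ + 2 * Fintype.card (Option T)} ≤
        Nat.card {σ : (S₀ ∪ univ.image p : Finset ℕ) → ZMod 2 //
          2 * (x * √((S₀ ∪ univ.image p).card : ℝ)) ≤
            (dS D (S₀ ∪ univ.image p) σ : ℝ) + 2 * (T.card + 1)} := by
      refine card_mono fun σ h5 => ?_
      have h6 : (2 : ℝ) * k ≤ dS D (S₀ ∪ univ.image p) σ + 2 * (T.card + 1) := by
        have h7 : 2 * k ≤ dS D (S₀ ∪ univ.image p) σ + 2 * (T.card + 1) :=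
          h5.trans (le_of_eq (by rw [hcs]))
        exact_mod_cast h7
      rw [hcard]
      linarith
    have h5 : (2 : ℝ) ^ ((πT D - x ^ 2 / 2 - ε) * (s : ℝ)) ≤
        (2 : ℝ) ^ ((n : ℝ) - (k : ℝ) ^ 2 / 2 - min τ ε' * n) := two_rpow_mono L (by linarith)
    rw [hcard]
    have h6 := h5.trans (h2.trans (Nat.cast_le.2 h4))
    rw [hcard] at h6
    exact h6

end Q44.MX
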