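import Pool.Agent.Q44.MX.Loc

/-!
# Project MX: the bounds for almost all squarefree integers
-/

set_option autoImplicit false
set_option linter.unusedSectionVars false
set_option linter.unusedVariables false

open scoped Classical

namespace Q44.MX

open Finset Module Filter Topology
open Pool.Agent.Y703.CQ (nr prs ext)
open Pool.Agent.Y703.CX (la zz)
open Q44.BM (Fam SS)
open Q44.JQ hiding cnt
open Q155.NL (Alm alm_mono alm_of_tendsto alm_finset cnt cs mem_cs cnt_mono)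
open Q155.NB (Loc LabN Tu)
open Q44.LD (lbM Cn cnt_SS cn_iff alm_all)

/-- the facts -/
structure FactsM : Prop where
  ubp : S_UBP
  ubpr : S_UBPR
  lba : S_LBA
  tur : S_TUR
  eqd : S_EQD
  shr : S_SHR
  asyn : S_ASYN
  tz : S_TZ

variable {T : Finset ℕ}

theorem Eqd.mono {I : Type} {cl : I → ℕ → Prop} {w θ θ' : ℝ} {n₀ : ℕ} {S₀ S₁ : Finset ℕ}
    (h : Eqd cl w θ n₀ S₀ S₁) (hθ : θ ≤ θ') : Eqd cl w θ' n₀ S₀ S₁ := by
  obtain ⟨h1, h2, h3⟩ := h
  have h0 : (0 : ℝ) ≤ S₁.card := Nat.cast_nonneg _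
  exact ⟨h1, h2.trans (mul_le_mul_of_nonneg_right hθ h0),
    fun i => (h3 i).trans (mul_le_mul_of_nonneg_right hθ h0)⟩

theorem RT_ok (h : TS T) : Q44.BM.Ok (RT T h).Φ 1 := by
  have h1 : (RT T h).δ = 1 := by
    unfold Q44.BM.RC.δ
    have e : (RT T h).𝒜 ∪ (RT T h).ℬ = (range (MT T)).filter fun a => (MT T).Coprime a := by
      show ((range (MT T)).filter fun a => a.Coprime (MT T)) ∪ ∅ = _
      rw [Finset.union_empty]
      exact Finset.filter_congr fun a _ => Nat.coprime_comm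
    have e2 : (((RT T h).𝒜 ∪ (RT T h).ℬ).card : ℝ) = ((MT T).totient : ℝ) := by
      rw [e, Nat.totient_eq_card_coprime]
    rw [e2]
    show ((MT T).totient : ℝ) / ((MT T).totient : ℝ) = 1
    exact div_self (by exact_mod_cast (Nat.totient_pos.2 h.M_pos).ne')
  have h2 := (RT T h).ok
  rw [h1] at h2
  exact h2

variable (L : LB T)

include L

theorem few_eqd (H : FactsM) {θ ε : ℝ} (hθ : 0 < θ) (hε : 0 < ε) (n₀ : ℕ) : ∀ᶠ X : ℕ in atTop,
    (((SS (RT T L.toTS).Φ X).filter fun S =>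
      ¬ Eqd (clT T) (1 / 2 ^ (T.card + 1)) θ n₀ (Pool.Agent.Y703.CX.sm (zz X) S) (la (zz X) S)).card : ℝ) ≤
    ε * ((SS (RT T L.toTS).Φ X).card : ℝ) := by
  have h1 := H.eqd H.tur (RT T L.toTS).Φ (RT_ok L.toTS) (Option T → ZMod 2) (clT T)
    (1 / 2 ^ (T.card + 1)) (by positivity) (H.shr T L) (min θ ε) n₀ (lt_min hθ hε)
  filter_upwards [h1] with X hX
  refine le_trans ?_ (hX.trans (mul_le_mul_of_nonneg_right (min_le_right _ _) (Nat.cast_nonneg _)))
  refine Nat.cast_le.2 (Finset.card_le_card ?_)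
  intro S hS
  rw [mem_filter] at hS ⊢
  exact ⟨hS.1, fun h => hS.2 (h.mono (min_le_left _ _))⟩

theorem alm_loc (H : FactsM) {P : Finset ℕ → Prop} (h : ∀ ε' : ℝ, 0 < ε' → ∃ (θ : ℝ) (n₀ : ℕ),
    0 < θ ∧ Loc (RT T L.toTS).Φ (lbM L) (Eqd (clT T) (1 / 2 ^ (T.card + 1)) θ n₀) P ∅ ε') :
    Alm (Cn T) fun n => P n.primeFactors := by
  have h1 : Tendsto (fun X : ℕ => (((SS (RT T L.toTS).Φ X).filter P).card : ℝ) /
      ((SS (RT T L.toTS).Φ X).card : ℝ)) atTop (𝓝 1) := by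
    refine H.asyn Pool.Agent.Q144.NB.key (RT T L.toTS).Φ 1 (RT_ok L.toTS) P
      (Fintype.card (Fin (MT T))) fun ε hε => ?_
    obtain ⟨θ, n₀, hθ, h2⟩ := h ε hε
    exact ⟨_, Pool.Agent.Q144.NB.box _ (Fin (MT T)) (lbM L) _ _ ∅ ε hε.le (labE L θ n₀) h2,
      few_eqd L H hθ hε n₀⟩
  have h2 : ∀ X : ℕ, cnt (Cn T) X = (SS (RT T L.toTS).Φ X).card := by
    intro X
    have h3 := cnt_SS L X fun _ => True
    have h4 : ∀ i : DecidablePred (fun _ : Finset ℕ => True),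
        (@Finset.filter _ (fun _ => True) i (SS (RT T L.toTS).Φ X)).card =
          (SS (RT T L.toTS).Φ X).card := fun i =>
      congrArg Finset.card (@Finset.filter_true_of_mem _ _ i _ fun _ _ => trivial)
    rw [h4] at h3
    rw [← h3]
    unfold cnt
    congr 1
    ext n
    rw [mem_cs, mem_cs]
    tauto
  refine alm_of_tendsto ?_
  refine h1.congr fun X => ?_
  rw [← cnt_SS L, h2]

variable {V : Type} [AddCommGroup V] [Module (ZMod 2) V] [Finite V]

theorem alm_PU (H : FactsM) {κ : ℝ} {D : Dj (Option T) V} (hD : UBD κ D) (hs : D.s₀ = none)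
    {ε : ℝ} (hε : 0 < ε) : Alm Squarefree fun N => PU κ D ε (nD T (N : ℤ)).primeFactors :=
  alm_all L (P := fun n => PU κ D ε n.primeFactors)
    (alm_loc L H (P := PU κ D ε) fun ε' hε' => locU L hD hs hε hε')

theorem alm_PL (H : FactsM) {D : Dj (Option T) V} (hs : D.s₀ = none) (hPl : Pl D.ω)
    (hSym : D.Sym) {x ε : ℝ} (hx : 0 ≤ x) (hxε : x ^ 2 ≤ (2 - ε) * πT D) (hε : 0 < ε) :
    Alm Squarefree fun N => PL D x ε (nD T (N : ℤ)).primeFactors :=
  alm_all L (P := fun n => PL D x ε n.primeFactors)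
    (alm_loc L H (P := PL D x ε) fun ε' hε' => locL L H.lba hs hPl hSym hx hxε hε hε')

end Q44.MX
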