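import Pool.Agent.Q44.MX.Cur

/-!
# Project MX: one set of integers of density one
-/

set_option autoImplicit false
set_option linter.unusedSectionVars false
set_option linter.unusedVariables false

open scoped Classical

namespace Q44.MX

open Finset Module Filter Topology
open Pool.Agent.Y703.CQ (nr prs ext)
open Pool.Agent.TH344.JG (SelJ)
open Pool.Agent.Y723.PT (tw)
open Q44.JQ hiding cnt
open Q44.JQ.W Q44.JQ.M Q44.JQ.X
open Q44.LD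
open Q155.NL (Alm alm_mono alm_finset alm_and alm_true exists_dense)

/-- the upper bounds for the systems -/
def Gu (a : Fin 3 → ℤ) (T : Finset ℕ) (κ ε : ℝ) (N : ℕ) : Prop :=
  ∃ (hv : Vz a T) (L : LB T) (P : hv.Lo L), ∀ γ ρ : Option T → ZMod 2,
    PU κ (P.d γ ρ) ε (nD T (N : ℤ)).primeFactors

/-- the lower bound for the systems -/
def Gl (a : Fin 3 → ℤ) (T : Finset ℕ) (x ε : ℝ) (N : ℕ) : Prop :=
  ∃ (hv : Vz a T) (L : LB T) (P : hv.Lo L),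
    PL (P.d 0 0) x ε (nD T (N : ℤ)).primeFactors

/-- the curve has no rational cyclic subgroup of order 4 -/
def C4 (a : Fin 3 → ℤ) : Prop :=
  ∀ i j l, i ≠ j → i ≠ l → j ≠ l → ∀ s : ℤ, (a i - a j) * (a i - a l) ≠ s ^ 2

/-- the operators of a curve without cyclic subgroups of order 4 generate everything -/
theorem irr_cr {a : Fin 3 → ℤ} {T : Finset ℕ} (H : FactsZ) (hv : Vz a T) (L : LB T) (hc : C4 a) :
    hv.cr.Irr := by
  have hne : ∀ {i j : Fin 3}, i ≠ j → a i - a j ≠ 0 := fun h => sub_ne_zero.2 fun h' => h (hv.ha h')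
  refine H.irrB T hv.cr rfl ?_
  intro i j l hij hil hjl hct
  have h1 : (ct ((a i - a j) * (a i - a l)) : Option T → ZMod 2) = 0 := by
    rw [L.ct_mul _ _ (hne hij) (hne hil)]
    have : (ct (a i - a j) : Option T → ZMod 2) = ct (a i - a l) := hct
    rw [this]
    exact add_self_lab _
  obtain ⟨s, hs⟩ := sq_of_ct L (mul_ne_zero (hne hij) (hne hil)) (fun p hp hd => by
    rcases (Nat.prime_iff_prime_int.1 hp).dvd_or_dvd hd with h | h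
    · exact hv.sup i j hij p hp h
    · exact hv.sup i l hil p hp h) h1
  exact hc i j l hij hil hjl s hs

/-- the constant of the upper bound -/
def Kp (a : Fin 3 → ℤ) (κ : ℝ) : Prop := κ = 2 ∨ (κ = 1 ∧ C4 a)

variable (H : FactsZ) (HM : FactsM)

include H HM

theorem ubd {a : Fin 3 → ℤ} {T : Finset ℕ} {hv : Vz a T} {L : LB T} (P : hv.Lo L) {κ : ℝ}
    (hκ : Kp a κ) (γ ρ : Option T → ZMod 2) : UBD κ (P.d γ ρ) := by
  rcases hκ with rfl | ⟨rfl, hc⟩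
  · exact ubd2 HM.ubpr (pl H P γ ρ) (sym H P γ ρ)
  · exact ubd1 HM.ubp (pl H P γ ρ) (sym H P γ ρ) (irr_mul L (irr_cr H hv L hc) _ _ _)

theorem alm_Gu {a : Fin 3 → ℤ} {T : Finset ℕ} (hv : Vz a T) {κ ε : ℝ} (hκ : Kp a κ) (hε : 0 < ε) :
    Alm Squarefree (Gu a T κ ε) := by
  have L : LB T := hv.LB H
  obtain ⟨P⟩ := hv.exLo L H.arxe
  have h1 : Alm Squarefree fun N : ℕ => ∀ γ ∈ (univ : Finset (Option T → ZMod 2)),
      ∀ ρ ∈ (univ : Finset (Option T → ZMod 2)),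
      PU κ (P.d γ ρ) ε (nD T (N : ℤ)).primeFactors := by
    refine alm_finset _ fun γ _ => alm_finset _ fun ρ _ => ?_
    exact alm_PU L HM (ubd H HM P hκ γ ρ) rfl hε
  exact alm_mono h1 fun N _ h => ⟨hv, L, P, fun γ ρ => h γ (mem_univ _) ρ (mem_univ _)⟩

theorem alm_Gl {a : Fin 3 → ℤ} {T : Finset ℕ} (hv : Vz a T) {x ε : ℝ} (hx : 0 ≤ x)
    (hxε : x ^ 2 ≤ (2 - ε) * ((sqn a : ℝ) / 16)) (hε : 0 < ε) :
    Alm Squarefree (Gl a T x ε) := by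
  have L : LB T := hv.LB H
  obtain ⟨P⟩ := hv.exLo L H.arxe
  have h1 : Alm Squarefree fun N : ℕ => PL (P.d 0 0) x ε (nD T (N : ℤ)).primeFactors := by
    refine alm_PL L HM (D := P.d 0 0) rfl (pl H P 0 0) (sym H P 0 0) hx ?_ hε
    rw [pi_eq H P HM]
    exact hxε
  exact alm_mono h1 fun N _ h => ⟨hv, L, P, h⟩

/-- the set of the data -/
abbrev Da : Type := (Fin 3 → ℤ) × Finset ℕ × ℕ × ℚ

omit H HM in
/-- the property of a datum -/
def Pj (δ : Da) (N : ℕ) : Prop :=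
  (Vz δ.1 δ.2.1 → Gu δ.1 δ.2.1 2 (1 / ((δ.2.2.1 : ℝ) + 1)) N) ∧
  (Vz δ.1 δ.2.1 → C4 δ.1 → Gu δ.1 δ.2.1 1 (1 / ((δ.2.2.1 : ℝ) + 1)) N) ∧
  (Vz δ.1 δ.2.1 → (0 : ℝ) ≤ (δ.2.2.2 : ℝ) →
    ((δ.2.2.2 : ℝ)) ^ 2 ≤ (2 - 1 / ((δ.2.2.1 : ℝ) + 1)) * ((sqn δ.1 : ℝ) / 16) →
    Gl δ.1 δ.2.1 (δ.2.2.2 : ℝ) (1 / ((δ.2.2.1 : ℝ) + 1)) N)

theorem alm_Pj (δ : Da) : Alm Squarefree (Pj δ) := by
  have hj : (0 : ℝ) < 1 / ((δ.2.2.1 : ℝ) + 1) := by positivity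
  unfold Pj
  refine alm_and ?_ (alm_and ?_ ?_)
  · by_cases hv : Vz δ.1 δ.2.1
    · exact alm_mono (alm_Gu H HM hv (Or.inl rfl) hj) fun N _ h _ => h
    · exact alm_mono (alm_true _) fun N _ _ h => absurd h hv
  · by_cases hv : Vz δ.1 δ.2.1 ∧ C4 δ.1
    · exact alm_mono (alm_Gu H HM hv.1 (Or.inr ⟨rfl, hv.2⟩) hj) fun N _ h _ _ => h
    · exact alm_mono (alm_true _) fun N _ _ h1 h2 => absurd ⟨h1, h2⟩ hv
  · by_cases hv : Vz δ.1 δ.2.1 ∧ (0 : ℝ) ≤ (δ.2.2.2 : ℝ) ∧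
      ((δ.2.2.2 : ℝ)) ^ 2 ≤ (2 - 1 / ((δ.2.2.1 : ℝ) + 1)) * ((sqn δ.1 : ℝ) / 16)
    · exact alm_mono (alm_Gl H HM hv.1 hv.2.1 hv.2.2 hj) fun N _ h _ _ _ => h
    · exact alm_mono (alm_true _) fun N _ _ h1 h2 h3 => absurd ⟨h1, h2, h3⟩ hv

theorem one_sys : ∃ 𝒟 : ℕ → Prop, Alm (fun _ => True) 𝒟 ∧
    (∀ B : ℕ, ∀ᶠ N in atTop, 𝒟 N → B ≤ N.primeFactors.card) ∧
    ∀ δ : Da, ∀ᶠ N in atTop, 𝒟 N → Pj δ (rad N) := by
  obtain ⟨𝒟₁, g1, g2, -⟩ := one_GM H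
  have : Nonempty Da := ⟨⟨fun _ => 0, ∅, 0, 0⟩⟩
  obtain ⟨g, hg⟩ := exists_surjective_nat Da
  obtain ⟨𝒟₂, h2, h3⟩ := exists_dense (C := fun _ => True) (T := fun j N => Pj (g j) (rad N))
      fun j => alm_rad (P := Pj (g j)) (alm_Pj H HM (g j))
  refine ⟨fun N => 𝒟₁ N ∧ 𝒟₂ N, alm_and g1 h2, fun B => ?_, fun δ => ?_⟩
  · filter_upwards [g2 B] with N h h' using h h'.1
  · obtain ⟨i, hi⟩ := hg δ
    filter_upwards [h3 i] with N h4 hD
    rw [← hi]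
    exact h4 hD.2

omit H HM in
/-- the curves with full rational 2-torsion -/
structure Mz (a : Fin 3 → ℤ) : Prop where
  ha : Function.Injective a
  h0 : a 0 + a 1 + a 2 = 0

omit H HM in
/-- a set of primes for the curve and the integer `M` -/
theorem ex_T {a : Fin 3 → ℤ} (ha : Mz a) {M : ℕ} (hM : M ≠ 0) :
    ∃ T, Vz a T ∧ ∀ p : ℕ, p.Prime → p ∣ M → p ∈ T := by
  obtain ⟨z, hz⟩ : ∃ z : ℕ, z = 2 * ((a 0 - a 1) * (a 0 - a 2) * (a 1 - a 2)).natAbs * M := ⟨_, rfl⟩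
  have h1 : ∀ i j, i ≠ j → a i - a j ≠ 0 := fun i j hij =>
    sub_ne_zero.2 fun h' => hij (ha.ha h')
  have hz0 : z ≠ 0 := by
    rw [hz]
    refine mul_ne_zero (mul_ne_zero two_ne_zero (Int.natAbs_ne_zero.2 ?_)) hM
    exact mul_ne_zero (mul_ne_zero (h1 0 1 (by decide)) (h1 0 2 (by decide))) (h1 1 2 (by decide))
  refine ⟨z.primeFactors, ⟨ha.ha, ha.h0,
    fun p hp => Nat.prime_of_mem_primeFactors hp,
    Nat.mem_primeFactors.2 ⟨Nat.prime_two, ?_, hz0⟩, fun i j hij p hp hd => ?_⟩, fun p hp hd => ?_⟩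
  · rw [hz, mul_assoc]
    exact Dvd.intro _ rfl
  · refine Nat.mem_primeFactors.2 ⟨hp, ?_, hz0⟩
    have h2 : a i - a j ∣ (a 0 - a 1) * (a 0 - a 2) * (a 1 - a 2) := by
      have h3 : ∀ i : Fin 3, i = 0 ∨ i = 1 ∨ i = 2 := by decide
      rcases h3 i with rfl | rfl | rfl <;> rcases h3 j with rfl | rfl | rfl
      · exact absurd rfl hij
      · exact ⟨(a 0 - a 2) * (a 1 - a 2), by ring⟩
      · exact ⟨(a 0 - a 1) * (a 1 - a 2), by ring⟩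
      · exact ⟨-((a 0 - a 2) * (a 1 - a 2)), by ring⟩
      · exact absurd rfl hij
      · exact ⟨(a 0 - a 1) * (a 0 - a 2), by ring⟩
      · exact ⟨-((a 0 - a 1) * (a 1 - a 2)), by ring⟩
      · exact ⟨-((a 0 - a 1) * (a 0 - a 2)), by ring⟩
      · exact absurd rfl hij
    have h3 : p ∣ ((a 0 - a 1) * (a 0 - a 2) * (a 1 - a 2)).natAbs :=
      Int.natCast_dvd.1 (hd.trans h2)
    rw [hz]
    exact (h3.mul_left 2).mul_right M
  · refine Nat.mem_primeFactors.2 ⟨hp, ?_, hz0⟩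
    rw [hz]
    exact hd.mul_left _

omit H HM in
theorem ex_j {ε : ℝ} (hε : 0 < ε) : ∃ j : ℕ, 1 / ((j : ℝ) + 1) ≤ ε := by
  obtain ⟨j, hj⟩ := exists_nat_one_div_lt hε
  exact ⟨j, hj.le⟩

/-- **One set of integers.** -/
theorem one_MX : ∃ 𝒟 : ℕ → Prop, Alm (fun _ => True) 𝒟 ∧
    (∀ B : ℕ, ∀ᶠ N in atTop, 𝒟 N → B ≤ N.primeFactors.card) ∧
    (∀ a, Mz a → ∀ κ : ℝ, Kp a κ → ∀ M ≠ 0, ∀ ε : ℝ, 0 < ε → ∀ᶠ N in atTop, 𝒟 N → Bu a κ M ε N) ∧
    (∀ a, Mz a → ∀ x : ℝ, 0 ≤ x → x ^ 2 < (sqn a : ℝ) / 2 → ∀ ε : ℝ, 0 < ε →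
      ∀ᶠ N in atTop, 𝒟 N → Bl a x ε N) := by
  obtain ⟨𝒟, g1, g2, g3⟩ := one_sys H HM
  refine ⟨𝒟, g1, g2, fun a ha κ hκ M hM ε hε => ?_, fun a ha x hx hxs ε hε => ?_⟩
  · obtain ⟨T, hv, hMT⟩ := ex_T ha hM
    obtain ⟨j, hj⟩ := ex_j (half_pos hε)
    obtain ⟨B, hB⟩ := exists_nat_ge (4 * ((T.card : ℝ) + 1) / ε)
    filter_upwards [g3 ⟨a, T, j, 0⟩, g2 (8 * T.card), g2 B, eventually_ne_atTop 0] with N h3 h4 h5 hN hD
    obtain ⟨hv', L, P, h6⟩ : Gu a T κ (1 / ((j : ℝ) + 1)) (rad N) := by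
      rcases hκ with rfl | ⟨rfl, hc⟩
      · exact (h3 hD).1 hv
      · exact (h3 hD).2.1 hv hc
    refine det_U H P hM hN hMT (by positivity) h6 (h4 hD) ?_
    have h7 : (B : ℝ) ≤ N.primeFactors.card := by exact_mod_cast h5 hD
    rw [div_le_iff₀ hε] at hB
    have h8 : (B : ℝ) * ε ≤ N.primeFactors.card * ε := mul_le_mul_of_nonneg_right h7 hε.le
    have h9 := mul_le_mul_of_nonneg_right hj (Nat.cast_nonneg (α := ℝ) N.primeFactors.card)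
    linarith
  · obtain ⟨T, hv, -⟩ := ex_T ha one_ne_zero
    obtain ⟨π, hπ⟩ : ∃ π : ℝ, π = (sqn a : ℝ) / 16 := ⟨_, rfl⟩
    have hπ0 : 0 < π := by
      rw [hπ]
      nlinarith [sq_nonneg x]
    have hxπ : (x / 2) ^ 2 < 2 * π := by
      rw [hπ]
      linarith
    -- the choice of `x₁`
    obtain ⟨q, hq1, hq2, hq3⟩ : ∃ q : ℚ, x / 2 < q ∧ (q : ℝ) ^ 2 < 2 * π ∧
        (q : ℝ) ^ 2 / 2 < x ^ 2 / 8 + ε / 4 := by
      have hc : Tendsto (fun y : ℝ => y ^ 2) (𝓝[>] (x / 2)) (𝓝 ((x / 2) ^ 2)) :=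
        (continuous_pow 2).continuousAt.continuousWithinAt
      have e1 : ∀ᶠ y in 𝓝[>] (x / 2), y ^ 2 < 2 * π := hc.eventually (gt_mem_nhds hxπ)
      have e2 : ∀ᶠ y in 𝓝[>] (x / 2), y ^ 2 < (x / 2) ^ 2 + ε / 2 :=
        hc.eventually (gt_mem_nhds (by linarith))
      obtain ⟨b, hb1, hb2⟩ := mem_nhdsGT_iff_exists_Ioo_subset.1 (e1.and e2)
      obtain ⟨q, h1, h2⟩ := exists_rat_btwn (show x / 2 < b from hb1)
      obtain ⟨h3, h4⟩ := hb2 ⟨h1, h2⟩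
      refine ⟨q, h1, h3, ?_⟩
      have h4' : (q : ℝ) ^ 2 < (x / 2) ^ 2 + ε / 2 := h4
      linarith
    have hq0 : (0 : ℝ) ≤ q := by linarith
    obtain ⟨j, hj⟩ := ex_j (lt_min (show (0 : ℝ) < ε / 4 by positivity)
      (show (0 : ℝ) < (2 * π - (q : ℝ) ^ 2) / π from div_pos (by linarith) hπ0))
    obtain ⟨hj1, hj2⟩ := le_min_iff.1 hj
    have hqj : (q : ℝ) ^ 2 ≤ (2 - 1 / ((j : ℝ) + 1)) * ((sqn a : ℝ) / 16) := by
      rw [le_div_iff₀ hπ0] at hj2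
      rw [← hπ]
      linarith
    -- the thresholds
    obtain ⟨B₁, hB₁⟩ := exists_nat_ge (((2 * (q : ℝ) * T.card + 4 * ((T.card : ℝ) + 1) + 2) /
      (2 * q - x)) ^ 2)
    obtain ⟨B₂, hB₂⟩ := exists_nat_ge (4 * (π * T.card) / ε)
    filter_upwards [g3 ⟨a, T, j, q⟩, g2 T.card, g2 B₁, g2 B₂, eventually_ne_atTop 0]
      with N h3 h4 h5 h6 hN hD
    obtain ⟨hv', L, P, h7⟩ := (h3 hD).2.2 hv hq0 hqj
    obtain ⟨c1, c2⟩ := card_pS L hN (T := T)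
    refine det_L H P HM hN h7 ?_ ?_
    · have e1 : (N.primeFactors.card : ℝ) ≤ (nD T (rad N : ℤ)).primeFactors.card + T.card := by
        exact_mod_cast c2
      have e2 : √(N.primeFactors.card : ℝ) ≤
          √((nD T (rad N : ℤ)).primeFactors.card : ℝ) + T.card := by
        refine Real.sqrt_le_iff.2 ⟨by positivity, ?_⟩
        have e3 := Real.sq_sqrt (Nat.cast_nonneg (α := ℝ) (nD T (rad N : ℤ)).primeFactors.card)
        have e4 : (T.card : ℝ) ≤ (T.card : ℝ) ^ 2 := by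
          have : T.card ≤ T.card ^ 2 := Nat.le_self_pow two_ne_zero _
          exact_mod_cast this
        have e5 : 0 ≤ √((nD T (rad N : ℤ)).primeFactors.card : ℝ) * T.card := by positivity
        nlinarith
      have e3 : (2 * (q : ℝ) * T.card + 4 * ((T.card : ℝ) + 1) + 2) / (2 * q - x) ≤
          √(N.primeFactors.card : ℝ) := by
        refine Real.le_sqrt_of_sq_le (hB₁.trans ?_)
        exact_mod_cast h5 hD
      have hd : 0 < 2 * (q : ℝ) - x := by linarith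
      rw [div_le_iff₀ hd] at e3
      have e4 := mul_le_mul_of_nonneg_left e2 (show (0 : ℝ) ≤ 2 * q by positivity)
      nlinarith
    · have e1 : (N.primeFactors.card : ℝ) ≤ (nD T (rad N : ℤ)).primeFactors.card + T.card := by
        exact_mod_cast c2
      have e2 : ((nD T (rad N : ℤ)).primeFactors.card : ℝ) ≤ N.primeFactors.card := by
        exact_mod_cast c1
      have e3 : (4 * (π * T.card)) ≤ ε * N.primeFactors.card := by
        have e4 : (B₂ : ℝ) ≤ N.primeFactors.card := by exact_mod_cast h6 hD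
        rw [div_le_iff₀ hε] at hB₂
        have e5 := mul_le_mul_of_nonneg_right e4 hε.le
        linarith
      rw [← hπ]
      obtain ⟨ω, hω⟩ : ∃ ω : ℝ, ω = N.primeFactors.card := ⟨_, rfl⟩
      obtain ⟨s, hs⟩ : ∃ s : ℝ, s = (nD T (rad N : ℤ)).primeFactors.card := ⟨_, rfl⟩
      have hω0 : 0 ≤ ω := by rw [hω]; positivity
      rw [← hω, ← hs] at e1 e2
      rw [← hω] at e3 ⊢
      rw [← hs]
      have hT0 : (0 : ℝ) ≤ T.card := Nat.cast_nonneg _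
      -- `π s ≥ π ω - π #T`
      have f1 : π * ω ≤ π * s + π * T.card := by
        have := mul_le_mul_of_nonneg_left e1 hπ0.le
        linarith
      have f2 : ((q : ℝ) ^ 2 / 2 + 1 / ((j : ℝ) + 1)) * s ≤ (x ^ 2 / 8 + ε / 2) * ω := by
        refine mul_le_mul (by linarith) e2 (by rw [hs]; positivity) (by positivity)
      have f3 : (π - x ^ 2 / 8 - ε) * ω = π * ω - (x ^ 2 / 8 + ε / 2) * ω - ε / 2 * ω := by ring
      have f4 : (π - (q : ℝ) ^ 2 / 2 - 1 / ((j : ℝ) + 1)) * s =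
        π * s - ((q : ℝ) ^ 2 / 2 + 1 / ((j : ℝ) + 1)) * s := by ring
      have f5 : 0 ≤ ε * ω := by positivity
      rw [f3, f4]
      linarith

end Q44.MX
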