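import Pool.Agent.Q44.MX.StmE

/-!
# Project MX: the number of relations in a readable form, examples
-/

set_option autoImplicit false
set_option linter.unusedSectionVars false
set_option linter.unusedVariables false

namespace Q44.MX

open Finset

/-- `-1` and the differences of the roots -/
def rv (a : Fin 3 → ℤ) : Fin 4 → ℤ := ![-1, a 0 - a 1, a 0 - a 2, a 1 - a 2]

/-- the pairs -/
def rg : Fin 4 → Fin 3 × Fin 3 := ![(0, 0), (0, 1), (0, 2), (1, 2)]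

/-- the bijection -/
def rf (I : Finset (Fin 4)) : Bool × Finset (Fin 3 × Fin 3) := (decide (0 ∈ I), (I.erase 0).image rg)

theorem rg_inj : Function.Injective rg := by
  unfold Function.Injective
  decide

theorem rf_inj : Function.Injective rf := by
  intro I J h
  ext i
  by_cases hi : i = 0
  · subst hi
    have h1 : decide ((0 : Fin 4) ∈ I) = decide ((0 : Fin 4) ∈ J) := congrArg Prod.fst h
    exact decide_eq_decide.1 h1
  · have h1 : (I.erase 0).image rg = (J.erase 0).image rg := congrArg Prod.snd h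
    have h2 : ∀ K : Finset (Fin 4), rg i ∈ (K.erase 0).image rg ↔ i ∈ K := by
      intro K
      rw [rg_inj.mem_finset_image, Finset.mem_erase]
      exact ⟨fun h => h.2, fun h => ⟨hi, h⟩⟩
    rw [← h2 I, h1, h2 J]

theorem rg_ne : ∀ i : Fin 4, i ≠ 0 → (rg i).1 < (rg i).2 := by decide

theorem rg_ex : ∀ y : Fin 3 × Fin 3, y.1 < y.2 → ∃ i : Fin 4, i ≠ 0 ∧ rg i = y := by decide

theorem rf_lt (I : Finset (Fin 4)) : ∀ y ∈ (rf I).2, y.1 < y.2 := by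
  intro y hy
  obtain ⟨i, hi, rfl⟩ := Finset.mem_image.1 hy
  exact rg_ne i (Finset.ne_of_mem_erase hi)

theorem rf_surj (e : Bool) (E : Finset (Fin 3 × Fin 3)) (hE : ∀ y ∈ E, y.1 < y.2) :
    ∃ I, rf I = (e, E) := by
  refine ⟨univ.filter fun i => (i = 0 ∧ e = true) ∨ (i ≠ 0 ∧ rg i ∈ E), ?_⟩
  refine Prod.ext ?_ ?_
  · show decide _ = e
    have h1 : ((0 : Fin 4) ∈ univ.filter fun i : Fin 4 => (i = 0 ∧ e = true) ∨ (i ≠ 0 ∧ rg i ∈ E)) ↔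
        e = true := by
      rw [mem_filter]
      exact ⟨fun h => (h.2.resolve_right fun h => h.1 rfl).2, fun h => ⟨mem_univ _, Or.inl ⟨rfl, h⟩⟩⟩
    cases e
    · exact decide_eq_false fun h => Bool.false_ne_true (h1.1 h)
    · exact decide_eq_true (h1.2 rfl)
  · show Finset.image _ _ = E
    ext y
    rw [Finset.mem_image]
    constructor
    · rintro ⟨i, hi, rfl⟩
      rw [Finset.mem_erase, Finset.mem_filter] at hi
      exact (hi.2.2.resolve_left fun h => hi.1 h.1).2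
    · intro hy
      obtain ⟨i, hi, rfl⟩ := rg_ex y (hE y hy)
      exact ⟨i, Finset.mem_erase.2 ⟨hi, Finset.mem_filter.2 ⟨mem_univ _, Or.inr ⟨hi, hy⟩⟩⟩, rfl⟩

theorem rf_prod (a : Fin 3 → ℤ) (I : Finset (Fin 4)) :
    (if (rf I).1 then (-1 : ℤ) else 1) * ∏ y ∈ (rf I).2, (a y.1 - a y.2) = ∏ i ∈ I, rv a i := by
  have h1 : ∏ y ∈ (rf I).2, (a y.1 - a y.2) = ∏ i ∈ I.erase 0, rv a i := by
    unfold rf
    rw [Finset.prod_image fun x _ y _ h => rg_inj h]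
    refine Finset.prod_congr rfl fun i hi => ?_
    have hi0 : i ≠ 0 := Finset.ne_of_mem_erase hi
    have h3 : ∀ i : Fin 4, i = 0 ∨ i = 1 ∨ i = 2 ∨ i = 3 := by decide
    rcases h3 i with rfl | rfl | rfl | rfl
    · exact absurd rfl hi0
    · rfl
    · rfl
    · rfl
  rw [h1]
  by_cases h : (0 : Fin 4) ∈ I
  · have h2 : (rf I).1 = true := decide_eq_true h
    rw [if_pos h2]
    exact Finset.mul_prod_erase I (rv a) h
  · have h2 : ¬ (rf I).1 = true := by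
      unfold rf
      simpa using h
    rw [if_neg h2, one_mul, Finset.erase_eq_of_notMem h]

/-- **The number of relations.** -/
theorem rel_eq (a : Fin 3 → ℤ) : {I : Finset (Fin 4) | IsSquare (∏ i ∈ I, rv a i)}.ncard = sqn a := by
  classical
  have h1 : ({I : Finset (Fin 4) | IsSquare (∏ i ∈ I, rv a i)} : Set (Finset (Fin 4))) =
      ((univ.filter fun I : Finset (Fin 4) => IsSquare (∏ i ∈ I, rv a i) : Finset _) : Set _) := by
    ext I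
    rw [Finset.mem_coe, Finset.mem_filter]
    exact ⟨fun h => ⟨mem_univ _, h⟩, fun h => h.2⟩
  rw [h1, Set.ncard_coe_finset]
  unfold sqn
  refine Finset.card_bij (fun I _ => rf I) (fun I hI => ?_) (fun I _ J _ h => rf_inj h) fun x hx => ?_
  · rw [mem_filter] at hI ⊢
    refine ⟨mem_univ _, rf_lt I, ?_⟩
    rw [rf_prod]
    exact hI.2
  · rw [mem_filter] at hx
    obtain ⟨-, h2, h3⟩ := hx
    obtain ⟨e, E⟩ := x
    obtain ⟨I, hI⟩ := rf_surj e E h2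
    refine ⟨I, ?_, hI⟩
    rw [mem_filter]
    refine ⟨mem_univ _, ?_⟩
    rw [← rf_prod, hI]
    exact h3

/-! ### The curves `y ^ 2 = x (x - u ^ 2) (x + v ^ 2)` -/

/-- the roots of a model of the curve `y ^ 2 = x (x - u ^ 2) (x + v ^ 2)` -/
def uv (u v : ℤ) : Fin 3 → ℤ := ![3 * v ^ 2 - 3 * u ^ 2, 6 * u ^ 2 + 3 * v ^ 2, -3 * u ^ 2 - 6 * v ^ 2]

/-- signs -/
def rsn : Fin 4 → ℤ := ![-1, -1, 1, 1]

theorem rv_uv (u v : ℤ) (i : Fin 4) : rv (uv u v) i =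
    rsn i * (![1, 3 * u, 3 * v, 3] i) ^ 2 * (if i = 3 then (u ^ 2 + v ^ 2) else 1) := by
  have h3 : ∀ i : Fin 4, i = 0 ∨ i = 1 ∨ i = 2 ∨ i = 3 := by decide
  rcases h3 i with rfl | rfl | rfl | rfl
  · show (-1 : ℤ) = -1 * 1 ^ 2 * 1
    ring
  · show (3 * v ^ 2 - 3 * u ^ 2) - (6 * u ^ 2 + 3 * v ^ 2) = -1 * (3 * u) ^ 2 * 1
    ring
  · show (3 * v ^ 2 - 3 * u ^ 2) - (-3 * u ^ 2 - 6 * v ^ 2) = 1 * (3 * v) ^ 2 * 1
    ring
  · show (6 * u ^ 2 + 3 * v ^ 2) - (-3 * u ^ 2 - 6 * v ^ 2) = 1 * 3 ^ 2 * (u ^ 2 + v ^ 2)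
    ring

theorem sq_mul {z s : ℤ} (hs : s ≠ 0) : IsSquare (z * s ^ 2) ↔ IsSquare z := by
  constructor
  · rintro ⟨t, ht⟩
    have h1 : s ^ 2 ∣ t ^ 2 := ⟨z, by rw [sq t, ← ht]; ring⟩
    obtain ⟨w, rfl⟩ := (Int.pow_dvd_pow_iff two_ne_zero).1 h1
    refine ⟨w, ?_⟩
    have h2 : z * s ^ 2 = (w * w) * s ^ 2 := by rw [ht]; ring
    exact mul_right_cancel₀ (pow_ne_zero 2 hs) h2
  · rintro ⟨t, rfl⟩
    exact ⟨t * s, by ring⟩

theorem prod_rsn (I : Finset (Fin 4)) : ∏ i ∈ I, rsn i = 1 ∨ ∏ i ∈ I, rsn i = -1 := by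
  refine Finset.prod_induction rsn (fun x => x = 1 ∨ x = -1) ?_ (Or.inl rfl) ?_
  · rintro x y (rfl | rfl) (rfl | rfl) <;> simp
  · intro i _
    have h3 : ∀ i : Fin 4, rsn i = 1 ∨ rsn i = -1 := by decide
    exact h3 i

theorem sq_iff {u v : ℤ} (hu : u ≠ 0) (hv : v ≠ 0) (I : Finset (Fin 4)) :
    IsSquare (∏ i ∈ I, rv (uv u v) i) ↔
      ∏ i ∈ I, rsn i = 1 ∧ (3 ∈ I → IsSquare (u ^ 2 + v ^ 2)) := by
  have hq : 0 < u ^ 2 + v ^ 2 := by positivity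
  rw [Finset.prod_congr rfl fun i _ => rv_uv u v i, Finset.prod_mul_distrib, Finset.prod_mul_distrib,
    Finset.prod_pow, Finset.prod_ite_eq' I 3 fun _ => u ^ 2 + v ^ 2]
  have hs : ∏ i ∈ I, (![1, 3 * u, 3 * v, 3] : Fin 4 → ℤ) i ≠ 0 := by
    refine Finset.prod_ne_zero_iff.2 fun i _ => ?_
    have h3 : ∀ i : Fin 4, i = 0 ∨ i = 1 ∨ i = 2 ∨ i = 3 := by decide
    rcases h3 i with rfl | rfl | rfl | rfl
    · exact one_ne_zero
    · exact mul_ne_zero (by norm_num) hu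
    · exact mul_ne_zero (by norm_num) hv
    · show (3 : ℤ) ≠ 0
      norm_num
  rw [mul_right_comm, sq_mul hs]
  have hneg : ∀ z : ℤ, 0 < z → ¬ IsSquare (-1 * z) := by
    rintro z hz ⟨t, ht⟩
    nlinarith [mul_self_nonneg t]
  rcases prod_rsn I with h | h
  · rw [h, one_mul]
    by_cases h3 : (3 : Fin 4) ∈ I
    · rw [if_pos h3]
      exact ⟨fun h => ⟨rfl, fun _ => h⟩, fun h => h.2 h3⟩
    · rw [if_neg h3]
      exact ⟨fun _ => ⟨rfl, fun h => absurd h h3⟩, fun _ => IsSquare.one⟩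
  · rw [h]
    refine ⟨fun h1 => absurd h1 (hneg _ ?_), fun h1 => absurd h1.1 (by norm_num)⟩
    split_ifs
    · exact hq
    · exact one_pos

theorem rel_four {u v : ℤ} (hu : u ≠ 0) (hv : v ≠ 0) (h : ¬ IsSquare (u ^ 2 + v ^ 2)) :
    {I : Finset (Fin 4) | IsSquare (∏ i ∈ I, rv (uv u v) i)}.ncard = 4 := by
  have h1 : ({I : Finset (Fin 4) | IsSquare (∏ i ∈ I, rv (uv u v) i)} : Set (Finset (Fin 4))) =
      ((univ.filter fun I : Finset (Fin 4) => ∏ i ∈ I, rsn i = 1 ∧ 3 ∉ I : Finset _) : Set _) := by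
    ext I
    rw [Finset.mem_coe, Finset.mem_filter]
    show IsSquare _ ↔ _
    rw [sq_iff hu hv]
    exact ⟨fun h2 => ⟨mem_univ _, h2.1, fun h3 => h (h2.2 h3)⟩, fun h2 => ⟨h2.2.1, fun h3 => absurd h3 h2.2.2⟩⟩
  rw [h1, Set.ncard_coe_finset]
  decide

theorem rel_eight {u v : ℤ} (hu : u ≠ 0) (hv : v ≠ 0) (h : IsSquare (u ^ 2 + v ^ 2)) :
    {I : Finset (Fin 4) | IsSquare (∏ i ∈ I, rv (uv u v) i)}.ncard = 8 := by
  have h1 : ({I : Finset (Fin 4) | IsSquare (∏ i ∈ I, rv (uv u v) i)} : Set (Finset (Fin 4))) =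
      ((univ.filter fun I : Finset (Fin 4) => ∏ i ∈ I, rsn i = 1 : Finset _) : Set _) := by
    ext I
    rw [Finset.mem_coe, Finset.mem_filter]
    show IsSquare _ ↔ _
    rw [sq_iff hu hv]
    exact ⟨fun h2 => ⟨mem_univ _, h2.1⟩, fun h2 => ⟨h2.2, fun _ => h⟩⟩
  rw [h1, Set.ncard_coe_finset]
  decide

theorem uv_inj {u v : ℤ} (hu : u ≠ 0) (hv : v ≠ 0) : Function.Injective (uv u v) := by
  have h1 : 0 < u ^ 2 := by positivity
  have h2 : 0 < v ^ 2 := by positivity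
  have e0 : uv u v 0 = 3 * v ^ 2 - 3 * u ^ 2 := rfl
  have e1 : uv u v 1 = 6 * u ^ 2 + 3 * v ^ 2 := rfl
  have e2 : uv u v 2 = -3 * u ^ 2 - 6 * v ^ 2 := rfl
  intro i j hij
  have h3 : ∀ i : Fin 3, i = 0 ∨ i = 1 ∨ i = 2 := by decide
  rcases h3 i with rfl | rfl | rfl <;> rcases h3 j with rfl | rfl | rfl <;>
    first | rfl | (exfalso; simp only [e0, e1, e2] at hij; linarith)

theorem uv_sum (u v : ℤ) : uv u v 0 + uv u v 1 + uv u v 2 = 0 := by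
  show (3 * v ^ 2 - 3 * u ^ 2) + (6 * u ^ 2 + 3 * v ^ 2) + (-3 * u ^ 2 - 6 * v ^ 2) = 0
  ring

theorem uv_c4 {u v : ℤ} (hu : u ≠ 0) (hv : v ≠ 0) (h : ¬ IsSquare (u ^ 2 + v ^ 2)) :
    ∀ i j l, i ≠ j → i ≠ l → j ≠ l → ∀ s : ℤ, (uv u v i - uv u v j) * (uv u v i - uv u v l) ≠ s ^ 2 := by
  have h1 : 0 < u ^ 2 := by positivity
  have h2 : 0 < v ^ 2 := by positivity
  have e0 : uv u v 0 = 3 * v ^ 2 - 3 * u ^ 2 := rfl
  have e1 : uv u v 1 = 6 * u ^ 2 + 3 * v ^ 2 := rfl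
  have e2 : uv u v 2 = -3 * u ^ 2 - 6 * v ^ 2 := rfl
  have a1 : ∀ s : ℤ, (uv u v 0 - uv u v 1) * (uv u v 0 - uv u v 2) ≠ s ^ 2 := by
    intro s hs
    rw [e0, e1, e2] at hs
    have h5 : (3 * v ^ 2 - 3 * u ^ 2 - (6 * u ^ 2 + 3 * v ^ 2)) *
      (3 * v ^ 2 - 3 * u ^ 2 - (-3 * u ^ 2 - 6 * v ^ 2)) = -(81 * (u ^ 2 * v ^ 2)) := by ring
    rw [h5] at hs
    nlinarith [mul_pos h1 h2, sq_nonneg s]
  have a2 : ∀ s : ℤ, (uv u v 1 - uv u v 0) * (uv u v 1 - uv u v 2) ≠ s ^ 2 := by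
    intro s hs
    rw [e0, e1, e2] at hs
    have h5 : (6 * u ^ 2 + 3 * v ^ 2 - (3 * v ^ 2 - 3 * u ^ 2)) *
      (6 * u ^ 2 + 3 * v ^ 2 - (-3 * u ^ 2 - 6 * v ^ 2)) = (u ^ 2 + v ^ 2) * (9 * u) ^ 2 := by ring
    rw [h5] at hs
    have h9 : (9 : ℤ) * u ≠ 0 := mul_ne_zero (by norm_num) hu
    exact h ((sq_mul h9).1 ⟨s, by rw [hs, sq]⟩)
  have a3 : ∀ s : ℤ, (uv u v 2 - uv u v 0) * (uv u v 2 - uv u v 1) ≠ s ^ 2 := by
    intro s hs
    rw [e0, e1, e2] at hs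
    have h5 : (-3 * u ^ 2 - 6 * v ^ 2 - (3 * v ^ 2 - 3 * u ^ 2)) *
      (-3 * u ^ 2 - 6 * v ^ 2 - (6 * u ^ 2 + 3 * v ^ 2)) = (u ^ 2 + v ^ 2) * (9 * v) ^ 2 := by ring
    rw [h5] at hs
    have h9 : (9 : ℤ) * v ≠ 0 := mul_ne_zero (by norm_num) hv
    exact h ((sq_mul h9).1 ⟨s, by rw [hs, sq]⟩)
  intro i j l hij hil hjl s
  have h3 : ∀ i : Fin 3, i = 0 ∨ i = 1 ∨ i = 2 := by decide
  rcases h3 i with rfl | rfl | rfl <;> rcases h3 j with rfl | rfl | rfl <;>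
    rcases h3 l with rfl | rfl | rfl <;>
    first | exact absurd rfl hij | exact absurd rfl hil | exact absurd rfl hjl | exact a1 s | exact a2 s |
      exact a3 s | (rw [mul_comm]; exact a1 s) | (rw [mul_comm]; exact a2 s) | (rw [mul_comm]; exact a3 s)

end Q44.MX
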