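import Mathlib

/-!
# Project MX: the largest 2-Selmer rank inside almost every integer, part I (the model)

`P` is a finite linearly ordered set (the primes), `H` a finite vector space over the field with two elements
with an alternating nondegenerate form `ω`, every `p` has an operator `T p` and a sign `h p` with
`ω (T p x) y = ω x (T p y) + h p * ω x y`. A symmetric matrix with entries in the field with two elements,
diagonal included, is a function `a : Sym2 P → ZMod 2`. The system of `a` has the rows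
`∑ q, a s(p, q) • x q + ∑ q < p, (h p * h q) • x q + T p (x p) = 0`. For uniformly distributed `a` the mean
of the number of the solutions is a sum over families `z p = (x p, W p)` in `H × H` which span a totally
singular subspace for the quadratic form `ω W x`. In all the proofs
`B z z' = ω z.2 z'.1 + ω z'.2 z.1` is the polar form of `ω z.2 z.1` on `H × H`, and `m = #P`.
-/

set_option autoImplicit false
set_option linter.unusedVariables false

namespace Q44.MX

open Finset Module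
open scoped Classical

/-- the sign of an element of the field with two elements -/
noncomputable def sg (a : ZMod 2) : ℝ := if a = 0 then 1 else -1

section model

variable {P H : Type} [AddCommGroup H] [Module (ZMod 2) H]

/-- the data of the model -/
structure Md (P H : Type) [AddCommGroup H] [Module (ZMod 2) H] where
  ω : H →ₗ[ZMod 2] H →ₗ[ZMod 2] ZMod 2
  T : P → H →ₗ[ZMod 2] H
  h : P → ZMod 2

/-- the form is alternating and not degenerate, the operators are self-adjoint up to the signs -/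
structure Md.Ok (D : Md P H) : Prop where
  alt : ∀ x, D.ω x x = 0
  nd : ∀ x, (∀ y, D.ω x y = 0) → x = 0
  adj : ∀ p x y, D.ω (D.T p x) y = D.ω x (D.T p y) + D.h p * D.ω x y

variable [Fintype P] [LinearOrder P]

/-- the rows -/
noncomputable def Md.row (D : Md P H) (a : Sym2 P → ZMod 2) : (P → H) →ₗ[ZMod 2] (P → H) where
  toFun x p := ∑ q, a s(p, q) • x q + ∑ q ∈ univ.filter (fun q => q < p), (D.h p * D.h q) • x q +
    D.T p (x p)
  map_add' x y := by
    funext p
    simp only [Pi.add_apply, smul_add, sum_add_distrib, map_add]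
    abel
  map_smul' c x := by
    funext p
    simp only [Pi.smul_apply, map_smul, RingHom.id_apply, smul_add, smul_sum, smul_comm c]

/-- the solutions -/
noncomputable def Md.K (D : Md P H) (a : Sym2 P → ZMod 2) : Submodule (ZMod 2) (P → H) :=
  LinearMap.ker (D.row a)

/-- the families which span a totally singular subspace -/
def Ts (ω : H →ₗ[ZMod 2] H →ₗ[ZMod 2] ZMod 2) (z : P → H × H) : Prop :=
  (∀ p, ω (z p).2 (z p).1 = 0) ∧ ∀ p q, ω (z p).2 (z q).1 = ω (z q).2 (z p).1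

/-- the exponent -/
noncomputable def Md.Θ (D : Md P H) (z : P → H × H) : ZMod 2 :=
  ∑ p, D.ω (z p).2 (D.T p (z p).1) +
    ∑ p, ∑ q ∈ univ.filter (fun q => q < p), D.h p * D.h q * D.ω (z p).2 (z q).1

omit [Fintype P] [LinearOrder P] in
/-- the maximal totally singular subspaces -/
def Mx (ω : H →ₗ[ZMod 2] H →ₗ[ZMod 2] ZMod 2) (Λ : Submodule (ZMod 2) (H × H)) : Prop :=
  (∀ z ∈ Λ, ω z.2 z.1 = 0) ∧ Nat.card Λ = Nat.card H

/-- the part of `Λ` which is mapped to `Λ` by `T` (on both components) -/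
def core (Λ : Submodule (ZMod 2) (H × H)) (T : H →ₗ[ZMod 2] H) : Submodule (ZMod 2) (H × H) :=
  Λ ⊓ Λ.comap (T.prodMap T)

end model

/-- MX-PROB: the mean number of the solutions as a character sum. Proof: as `ω` is not degenerate, the
indicator of `row p = 0` is `#H⁻¹ * ∑ W ∈ H, sg (ω W (row p))`. So `#K a * #H ^ m` is the sum over the families
`x`, `W` of `sg (∑ p, ω (W p) (row p))`, and `∑ p, ω (W p) (row p) = Θ (x, W) +
∑ p, ∑ q, a s(p, q) * ω (W p) (x q)`; the coefficient of `a s(p, q)`, `p ≠ q`, is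
`ω (W p) (x q) + ω (W q) (x p)` and that of `a s(p, p)` is `ω (W p) (x p)`. The sum over `a` of the sign of a linear
form in `a` is `2 ^ #(Sym2 P)` if all its coefficients are zero and zero otherwise. -/
def S_PROB : Prop := ∀ (P H : Type) [Fintype P] [LinearOrder P] [AddCommGroup H] [Module (ZMod 2) H]
  [Fintype H] (D : Md P H), D.Ok →
  (∑ a : Sym2 P → ZMod 2, (Nat.card (D.K a) : ℝ)) * (Fintype.card H : ℝ) ^ Fintype.card P =
    2 ^ Fintype.card (Sym2 P) * ∑ z : P → H × H, if Ts D.ω z then sg (D.Θ z) else 0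

/-- MX-MAX: reduction to maximal totally singular subspaces. Proof: for a family `x` of elements of `H` and a
subspace `E` of `H` which contains all the `x p` let `S (x, E)` be the sum of `sg (Θ (x, W))` over the pairs
`(Λ, W)`, `Λ` maximal (`Mx`) with first projection `E`, `W` a family with `(x p, W p) ∈ Λ` for all `p`.
(1) `S (x, E) ≥ 0`. Indeed let `E' = {W | ω W e = 0 for all e ∈ E}`; a `Λ` with `Mx` and projection `E` contains `0 × E'`
(it is its own orthogonal for `B`) and for every `e ∈ E` the `W` with `(e, W) ∈ Λ` form a coset of `E'`. If some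
`(Λ₁, W₁)` has `Θ (x, W₁) = 1`, then `(Λ, W) ↦ (Λ + Λ₁, W + W₁)`, where
`Λ + Λ₁ = {(e, w + w₁) | (e, w) ∈ Λ, (e, w₁) ∈ Λ₁}`, is a permutation (an involution) of the set of the pairs, and
`Θ (x, W + W₁) = Θ (x, W) + 1` since `Θ` is linear in `W` for fixed `x`; hence `S (x, E) = 0`. If there is no such
pair all the signs are 1. (2) If `E` is the span of the `x p` then every `W` such that `(x, W)` satisfies `Ts`
belongs to exactly one `Λ`: the span of the `(x p, W p)` is totally singular and orthogonal to `0 × E'`,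
`Λ` = (this span) + `0 × E'` has first projection `E` and intersects `0 × H` in `0 × E'` (elements `(0, W)` of a totally
singular space with projection `E` are in `0 × E'`), so its order is `#E * #E' = #H`. Conversely families in a `Λ` with
`Mx` satisfy `Ts`. So the sum over the `z` with `Ts` is `∑ x, S (x, span x) ≤ ∑ x, ∑ E ⊇ span x, S (x, E) =
∑ Λ, ∑ z : P → Λ, sg (Θ z)`. -/
def S_MAX : Prop := ∀ (P H : Type) [Fintype P] [LinearOrder P] [AddCommGroup H] [Module (ZMod 2) H]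
  [Fintype H] (D : Md P H), D.Ok → ∀ 𝓜 : Finset (Submodule (ZMod 2) (H × H)), (∀ Λ, Λ ∈ 𝓜 ↔ Mx D.ω Λ) →
  (∑ z : P → H × H, if Ts D.ω z then sg (D.Θ z) else 0) ≤
    ∑ Λ ∈ 𝓜, |∑ z : P → Λ, sg (D.Θ fun p => (z p : H × H))|

/-- MX-GAU: the Gauss sums. Proof: on `Λ` put `b z z' = ω z.2 z'.1`; it is bilinear, alternating
(`ω z.2 z.1 = 0` on `Λ`), hence symmetric, and has a quadratic refinement `g : Λ → ZMod 2`,
`g (z + z') = g z + g z' + b z z'` (choose a basis). Then
`∑ q < p, h p h q b (z p) (z q) = g (∑ h p • z p) + ∑ h p g (z p)`, so that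
`Θ z = ∑ p, ψ p (z p) + g (∑ h p • z p)` with `ψ p z = ω z.2 (T p z.1) + h p * g z`. Expand `sg ∘ g` in characters
of the group `Λ`: `sg (g z) = ∑ χ, c χ * χ z`, `∑ |c χ| ^ 2 = 1` (Parseval), so `∑ |c χ| ≤ √#Λ`. Therefore the sum is at most
`∑ χ, |c χ| * ∏ p, |∑ z ∈ Λ, sg (ψ p z) * χ (h p • z)|`. The function `ψ p` is quadratic with polar form
`ω z.2 (T p z'.1) + ω z'.2 (T p z.1) + h p * ω z.2 z'.1 = B (T p z) z'` (`T p z = (T p z.1, T p z.2)`, use `adj`), so by
the usual squaring `|∑ z ∈ Λ, ...| ^ 2 ≤ #Λ * #{z ∈ Λ | B (T p z) z' = 0 for all z' ∈ Λ}`, and that set is `core Λ (T p)`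
because `Λ` is its own orthogonal for `B` (`Mx` and `nd`). Finally `#Λ = #H`. -/
def S_GAU : Prop := ∀ (P H : Type) [Fintype P] [LinearOrder P] [AddCommGroup H] [Module (ZMod 2) H]
  [Fintype H] (D : Md P H), D.Ok → ∀ Λ : Submodule (ZMod 2) (H × H), Mx D.ω Λ →
  |∑ z : P → Λ, sg (D.Θ fun p => (z p : H × H))| ≤
    √(Fintype.card H : ℝ) * (Fintype.card H : ℝ) ^ Fintype.card P *
      ∏ p, √((Nat.card (core Λ (D.T p)) : ℝ) / (Fintype.card H : ℝ))

/-! ### Counting near-stable subspaces of `V ^ j × V ^ j`, `V` of dimension 2 -/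

section counting

variable {V : Type} [AddCommGroup V] [Module (ZMod 2) V]

/-- the form on `V ^ j` -/
noncomputable def pwf (ω : V →ₗ[ZMod 2] V →ₗ[ZMod 2] ZMod 2) (j : ℕ) :
    (Fin j → V) →ₗ[ZMod 2] (Fin j → V) →ₗ[ZMod 2] ZMod 2 :=
  ∑ i : Fin j, ω.compl₁₂ (LinearMap.proj i) (LinearMap.proj i)

/-- the operator on `V ^ j` -/
def pwT (T : V →ₗ[ZMod 2] V) (j : ℕ) : (Fin j → V) →ₗ[ZMod 2] (Fin j → V) := T.compLeft (Fin j)

/-- the data on `V ^ j` -/
noncomputable def Md.pw {P : Type} (D : Md P V) (j : ℕ) : Md P (Fin j → V) where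
  ω := pwf D.ω j
  T p := pwT (D.T p) j
  h := D.h

/-- `V` is a symplectic plane -/
structure Pl (ω : V →ₗ[ZMod 2] V →ₗ[ZMod 2] ZMod 2) : Prop where
  alt : ∀ x, ω x x = 0
  nd : ∀ x, (∀ y, ω x y = 0) → x = 0
  dim : finrank (ZMod 2) V = 2

/-- the operators which are self-adjoint up to a scalar -/
def Sa (ω : V →ₗ[ZMod 2] V →ₗ[ZMod 2] ZMod 2) (X : Module.End (ZMod 2) V) : Prop :=
  ∃ e : ZMod 2, ∀ x y, ω (X x) y = ω x (X y) + e * ω x y

/-- the maximal subspaces which are stable under the operators of `S` up to codimension `i` -/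
def Nst (ω : V →ₗ[ZMod 2] V →ₗ[ZMod 2] ZMod 2) (S : Set (Module.End (ZMod 2) V)) (j i : ℕ)
    (Λ : Submodule (ZMod 2) ((Fin j → V) × (Fin j → V))) : Prop :=
  Mx (pwf ω j) Λ ∧ ∀ X ∈ S, Nat.card (Fin j → V) ≤ 2 ^ i * Nat.card (core Λ (pwT X j))

/-- the three types of sets of operators: 4 no condition, 2 one operator which is not a scalar, 1 the operators
generate all endomorphisms -/
def Ty (c : ℕ) (S : Set (Module.End (ZMod 2) V)) : Prop :=
  c = 4 ∨ (c = 2 ∧ ∃ X ∈ S, ∀ e : ZMod 2, X ≠ e • 1) ∨ (c = 1 ∧ Algebra.adjoin (ZMod 2) S = ⊤)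

end counting

/-- MX-ISO: the number of the isotropic subspaces of dimension `a` of a symplectic space of dimension `N`.
Proof: count the linearly independent `a`-tuples of pairwise orthogonal vectors: given the first `i` there are at
most `2 ^ (N - i)` possibilities for the next one (the orthogonal of their span), and every subspace of
dimension `a` has `∏ i < a, (2 ^ a - 2 ^ i)` ordered bases (`card_linearIndependent`). -/
def S_ISO : Prop := ∀ (W : Type) [AddCommGroup W] [Module (ZMod 2) W] [Finite W]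
  (B : W →ₗ[ZMod 2] W →ₗ[ZMod 2] ZMod 2), (∀ x, B x x = 0) → (∀ x, (∀ y, B x y = 0) → x = 0) →
  ∀ a : ℕ, a ≤ finrank (ZMod 2) W →
  Nat.card {Λ : Submodule (ZMod 2) W // (∀ x ∈ Λ, ∀ y ∈ Λ, B x y = 0) ∧ finrank (ZMod 2) Λ = a} *
    ∏ i ∈ range a, (2 ^ a - 2 ^ i) ≤ 2 ^ (∑ i ∈ range a, (finrank (ZMod 2) W - i))

/-- MX-CNT0: all maximal subspaces. Proof: `S_ISO` for `W = V ^ j × V ^ j`, `N = 4 j`, `a = 2 j` (`B` is the polar form),
`∏ i < a, (2 ^ a - 2 ^ i) ≥ 2 ^ (a ^ 2 - 2)` (`∏ (1 - 2 ^ (-k)) ≥ 1/4`): the number is at most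
`2 ^ (8 j ^ 2 - j (2 j - 1) - 4 j ^ 2 + 2) = 2 ^ (2 j ^ 2 + j + 2)`. -/
def S_CNT0 : Prop := ∀ (V : Type) [AddCommGroup V] [Module (ZMod 2) V] [Finite V]
  (ω : V →ₗ[ZMod 2] V →ₗ[ZMod 2] ZMod 2), Pl ω → ∃ C : ℕ, ∀ j : ℕ,
  Nat.card {Λ : Submodule (ZMod 2) ((Fin j → V) × (Fin j → V)) // Mx (pwf ω j) Λ} ^ 2 ≤
    2 ^ (4 * j ^ 2 + C * (j + 1))

/-- MX-CNT1: one operator `X` which is not a scalar. Write `T` for `X` on `𝕌 = V ^ j × V ^ j` (dimension `4 j`),
`T ^ 2 = e T + d` with `e, d ∈ {0, 1}`, and `B (T z) z' = B z (T z') + e * B z z'` (in dimension 2 the number `e` of `Sa`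
is the trace). Proof. (1) `Λ₁ = core Λ X` is `T`-stable (`T (T z) = e T z + d z ∈ Λ` for `z ∈ Λ₁`), totally isotropic,
of dimension `2 j - c`, `c ≤ i`; given `Λ₁` there are at most `2 ^ (4 j c)` possible `Λ` (add `c` vectors). So it is
enough to bound the number of the `T`-stable totally isotropic `Λ₁` of dimension `2 j - c` by `2 ^ (j ^ 2 + C (c + 1) (j + 1))`.
(2) Let `(v_1, ..., v_a)` be a sequence in `Λ₁` such that `F = ⟨v_k, T v_k : k ≤ a⟩` has dimension `2 a` and such that no `v ∈ Λ₁`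
increases the dimension by 2; `F` is `T`-stable (and free over `F_2[T]`). Then every vector of `Λ₁ / F` is an eigenvector of `T`, so `T` is a
scalar `λ ∈ {0, 1}` on `Λ₁ / F` and `Λ₁ ⊆ G := {v | v orthogonal to F, T v + λ v ∈ F}`. (3) `G` is totally isotropic, so
`dim G ≤ 2 j`: for `v, v' ∈ G`, `B (T v) v' = λ B v v'` and `B (T v) v' = B v (T v') + e B v v' = (λ + e) B v v'`, so `e B v v' = 0`, which settles
`e = 1`. If `e = 0` then `(T + d) ^ 2 = 0`; if `λ ≠ d` then `T + λ` is invertible and `G = F`; if `λ = d` put `t = T + d`,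
`t ^ 2 = 0`, `ker t = im t` on `𝕌` (as on `V`, `X` not a scalar), and `F ∩ ker t = t F` since `F` is free; for `v ∈ G`, `t v ∈ F ∩ ker t`, `t v = t f`,
`v ∈ f + ker t`; so `G = F + (ker t ∩ F^⊥)`, and `ker t = im t` is totally isotropic (`B (t u) (t u') = B u (t (t u')) = 0`).
(4) So for given `F` and `λ` there are at most `2 ^ (2 j (dim G - dim Λ₁)) ≤ 2 ^ (2 j c)` possible `Λ₁` between `F` and `G` (subspaces of `G` of
codimension at most `c`). (5) Let `a` be the largest length of a sequence in `Λ₁` with increments 2; count the pairs (`Λ₁`, sequence of length `a`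
with increments 2, `F` its span). The number of sequences is at most `∏ k < a, 2 ^ (4 j - 2 k) = 2 ^ (4 j a - a (a - 1))` (the next
vector is orthogonal to the previous `F_k`), and for a given sequence there are at most `2 * 2 ^ (2 j c)` possible `Λ₁` by (4). In
a given `Λ₁` there are at least `(#Λ₁ / 4) ^ a` sequences: at step `k < a` the forbidden vectors are those of
`A_λ = {v ∈ Λ₁ | T v + λ v ∈ F_k}`, `λ = 0, 1`, and both are proper subspaces of `Λ₁` (so at least a quarter of `Λ₁` is allowed): if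
`(T + λ) Λ₁ ⊆ F_k` and `λ` is not a root of `T ^ 2 + e T + d` then `dim Λ₁ ≤ 2 k < 2 a ≤ dim Λ₁`; if it is a root and `λ'` is the other root
then `(T + λ) Λ₁ ⊆ F_k ∩ ker (T + λ')`, of dimension `k` (one dimension in each block `⟨v, T v⟩`), whereas
`dim (T + λ) Λ₁ ≥ dim (T + λ) F_a ≥ a`. Hence the number of the `Λ₁` with given `a`, `c` is at most
`2 ^ (4 j a - a (a - 1) + 1 + 2 j c - (2 j - c - 2) a) ≤ 2 ^ (j ^ 2 + C (c + 1) (j + 1))` because `2 j a - a ^ 2 ≤ j ^ 2`, `a ≤ j`. -/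
def S_CNT1 : Prop := ∀ (V : Type) [AddCommGroup V] [Module (ZMod 2) V] [Finite V]
  (ω : V →ₗ[ZMod 2] V →ₗ[ZMod 2] ZMod 2), Pl ω → ∀ X : Module.End (ZMod 2) V, Sa ω X →
  (∀ e : ZMod 2, X ≠ e • 1) → ∃ C : ℕ, ∀ j i : ℕ,
  Nat.card {Λ : Submodule (ZMod 2) ((Fin j → V) × (Fin j → V)) // Nst ω {X} j i Λ} ^ 2 ≤
    2 ^ (2 * j ^ 2 + C * (i + 1) * (j + 1))

/-- MX-CNT2: operators which generate all endomorphisms. Proof: `End V` is spanned by the products
`X_1 X_2 ⋯ X_l`, `l ≤ 4`, `X_k ∈ S` (the spans of the products of length at most `l` increase strictly until they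
are stationary; the dimension is 4). If `codim core Λ X ≤ i` for the `X ∈ S` then the `z ∈ Λ` with `X_l z ∈ Λ`,
`X_{l-1} X_l z ∈ Λ`, ... have codimension at most `l i` in `Λ`; so the largest subspace `Λ₂` of `Λ` which is stable under
`End V` (acting diagonally) has codimension at most `C₁ i`, `C₁ = 4 * (#S + 1) ^ 4`. A subspace of `V ^ j × V ^ j = V ⊗ F ^ (2 j)` which is
stable under `End V` is `V ⊗ U` with a unique subspace `U` of `F ^ (2 j)` (`F = ZMod 2`; the set of the vectors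
with all coordinates in `V ⊗ U`; take a rank one operator of `End V` to find `U`), and
`B (v ⊗ d) (v' ⊗ d') = ω v v' * ⟨d, d'⟩` with the standard symplectic form `⟨(d₁, d₂), (d₁', d₂')⟩ = d₂ ⬝ d₁' + d₁ ⬝ d₂'` on `F ^ j × F ^ j`; so
`U` is totally isotropic, of dimension `a ≤ j`, `2 a = dim Λ₂ ≥ 2 j - C₁ i`. By `S_ISO` the number of the `U` of dimension `a` is at most
`2 ^ (2 j a - a (a - 1) / 2 - a ^ 2 + 2)`, and `2 j a - 3 a ^ 2 / 2 ≤ j ^ 2 / 2 + j (j - a)`; given `Λ₂` there are at most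
`2 ^ (4 j (2 j - 2 a))` possible `Λ`, and `2 j - 2 a ≤ C₁ i`. -/
def S_CNT2 : Prop := ∀ (V : Type) [AddCommGroup V] [Module (ZMod 2) V] [Finite V]
  (ω : V →ₗ[ZMod 2] V →ₗ[ZMod 2] ZMod 2), Pl ω → ∀ S : Set (Module.End (ZMod 2) V),
  Algebra.adjoin (ZMod 2) S = ⊤ → ∃ C : ℕ, ∀ j i : ℕ,
  Nat.card {Λ : Submodule (ZMod 2) ((Fin j → V) × (Fin j → V)) // Nst ω S j i Λ} ^ 2 ≤
    2 ^ (j ^ 2 + C * (i + 1) * (j + 1))

/-- MX-POW: `#K ^ j` is the number of the solutions for `V ^ j`, and the data on `V ^ j` satisfy the conditions.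
Proof: a solution for `V ^ j` is a `j`-tuple of solutions. -/
def S_POW : Prop := ∀ (P V : Type) [Fintype P] [LinearOrder P] [AddCommGroup V] [Module (ZMod 2) V]
  [Finite V] (D : Md P V), D.Ok → ∀ j : ℕ, (D.pw j).Ok ∧
  ∀ a : Sym2 P → ZMod 2, Nat.card ((D.pw j).K a) = Nat.card (D.K a) ^ j

/-- MX-MOM: the moments. Proof: by `S_POW`, `S_PROB`, `S_MAX`, `S_GAU` for `H = V ^ j`,
`∑ a, #K ^ j ≤ 2 ^ #(Sym2 P) * 2 ^ j * ∑ Λ, ∏ p, √(#core Λ (T p) / #Λ)`. Adding a scalar to an operator does not change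
`core`. Let `S' ⊆ S` be empty for `c = 4`, one operator which is not a scalar for `c = 2`, `S` for `c = 1` (`S` is finite). If `i` is the
smallest number with `Nst ω S' j i Λ`, then the product is at most `2 ^ (-i M / 2)`, where `M` is the smallest
multiplicity of the operators of `S'` (if `i ≥ 1` some `X ∈ S'` has codimension at least `i`, and it occurs `M` times). With the counting
lemmas and `M ≥ C (j + 1)`, `C` large (all the constants are uniform since there are finitely many `S`, `X`), the sum over `i` is a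
convergent geometric series: `∑ i, 2 ^ ((c j ^ 2 + C' (i + 1) (j + 1)) / 2 - i M / 2)`. For `c = 4` use `S_CNT0`. -/
def S_MOM : Prop := ∀ (V : Type) [AddCommGroup V] [Module (ZMod 2) V] [Finite V]
  (ω : V →ₗ[ZMod 2] V →ₗ[ZMod 2] ZMod 2), Pl ω → ∃ C : ℕ, ∀ (S : Set (Module.End (ZMod 2) V)) (c : ℕ),
  Ty c S → (∀ X ∈ S, Sa ω X) → ∀ (P : Type) [Fintype P] [LinearOrder P] (D : Md P V), D.Ok → D.ω = ω →
  ∀ j : ℕ, (∀ X ∈ S, C * (j + 1) ≤ (univ.filter fun p => ∃ e : ZMod 2, D.T p = X + e • 1).card) →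
  (∑ a : Sym2 P → ZMod 2, Nat.card (D.K a) ^ j) ^ 2 ≤
    (2 ^ Fintype.card (Sym2 P)) ^ 2 * 2 ^ (c * j ^ 2 + C * (j + 1))

/-- MX-TAIL: the probability of a large kernel. Proof: Markov's inequality with `j = k / c` (integer division) in
`S_MOM`: `#{a | k ≤ dim K a} * 2 ^ (j k) ≤ ∑ a, #K a ^ j`, and with `j = k / c - θ`, `0 ≤ θ < 1`,
`2 j k - c j ^ 2 = k ^ 2 / c - c θ ^ 2 ≥ k ^ 2 / c - c`. -/
def S_TAIL : Prop := ∀ (V : Type) [AddCommGroup V] [Module (ZMod 2) V] [Finite V]
  (ω : V →ₗ[ZMod 2] V →ₗ[ZMod 2] ZMod 2), Pl ω → ∃ C : ℕ, ∀ (S : Set (Module.End (ZMod 2) V)) (c : ℕ),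
  Ty c S → (∀ X ∈ S, Sa ω X) → ∀ (P : Type) [Fintype P] [LinearOrder P] (D : Md P V), D.Ok → D.ω = ω →
  ∀ k : ℕ, (∀ X ∈ S, C * (k + 1) ≤ (univ.filter fun p => ∃ e : ZMod 2, D.T p = X + e • 1).card) →
  (univ.filter fun a : Sym2 P → ZMod 2 => k ≤ finrank (ZMod 2) (D.K a)).card ^ 2 * 2 ^ (k ^ 2 / c) ≤
    (2 ^ Fintype.card (Sym2 P)) ^ 2 * 2 ^ (C * (k + 1))

end Q44.MX
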