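import Pool.Agent.Q44.MX.Stm
import Pool.Agent.Q44.LD.Stm

/-!
# Project MX, part II: the upper bound for blocks
-/

set_option autoImplicit false
set_option linter.unusedVariables false

namespace Q44.MX

open Finset Module
open Pool.Agent.Y703.CQ (prs ext)
open Q44.JQ (Dj Bk Sel)
open Q44.LD (sb ra)
open scoped Classical

section block

variable {s V U ι : Type} [AddCommGroup V] [Module (ZMod 2) V]

/-- the model of the large primes with the property `B`, without `i₀` -/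
def mdl (D : Dj s V) (b : Bk s U ι) (B : ι → Prop) (i₀ : ι) : Md {i : ι // B i ∧ i ≠ i₀} V where
  ω := D.ω
  T p := D.T (b.hJ p)
  h p := b.hJ p D.s₀

variable [Fintype s] [Fintype U] [Fintype ι] [LinearOrder ι]

/-- the dimension of the space of the solutions for the restricted block -/
noncomputable def rk (D : Dj s V) (b : Bk s U ι) (A : U → Prop) (B : ι → Prop)
    (α : prs (univ : Finset ι) → ZMod 2) : ℕ :=
  finrank (ZMod 2) (Sel D ((sb b A B).N D.s₀ (ra B α)) (sb b A B).h)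

/-- the same for the support of `σ` -/
noncomputable def rkB (D : Dj s V) (b : Bk s U ι) (σ : U ⊕ ι → ZMod 2)
    (α : prs (univ : Finset ι) → ZMod 2) : ℕ :=
  rk D b (fun u => σ (Sum.inl u) ≠ 0) (fun i => σ (Sum.inr i) ≠ 0) α

end block

/-- MX-UNIF: comparison with the uniform model. Proof: let `P = {i // B i ∧ i ≠ i₀}`. For `α` let `a` be the
symmetric matrix on `P` with `a s(p, q) = ext α p q` for `p ≠ q` and `a s(p, p)` = the sum of all the symbols `N p q`,
`q ≠ p`, of the restricted block (`q` runs over the `u` with `A u` and over the `i` with `B i`, `i ≠ p`, `i₀` included). The solutions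
`(δ, x)` in `Sel` with `δ = 0`, `x u = 0` for all `u` and `x i₀ = 0` are solutions of the system of `mdl D b B i₀` for `a`
(the row of `p` is `∑ q, N p q • (x q + x p) + T (h p) (x p)`), so
`finrank Sel ≤ finrank K a + finrank V * (#s + #U + 1)`. The map `α ↦ a` has fibres of the same order
`2 ^ (#prs - #Sym2 P)`: the entries `a s(p, q)` are coordinates of `α`, and `a s(p, p)` is the coordinate of `α` at the
pair `p, i₀` plus a function of the other coordinates (different `p` have different coordinates). -/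
def S_UNIF : Prop := ∀ (s V U ι : Type) [Fintype s] [AddCommGroup V] [Module (ZMod 2) V] [Finite V]
  [Fintype U] [Fintype ι] [LinearOrder ι] (D : Dj s V) (b : Bk s U ι) (A : U → Prop) (B : ι → Prop)
  (i₀ : ι), B i₀ → ∀ k : ℕ,
  (univ.filter fun α : prs (univ : Finset ι) → ZMod 2 =>
      k + finrank (ZMod 2) V * (Fintype.card s + Fintype.card U + 1) ≤ rk D b A B α).card *
      2 ^ Fintype.card (Sym2 {i : ι // B i ∧ i ≠ i₀}) ≤
    2 ^ (prs (univ : Finset ι)).card *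
      (univ.filter fun a : Sym2 {i : ι // B i ∧ i ≠ i₀} → ZMod 2 =>
        k ≤ finrank (ZMod 2) ((mdl D b B i₀).K a)).card

/-- MX-TAILB: the tail for a restricted block. Proof: if no `i` has the property `B`, then
`rk ≤ 2 (#s + #U)` and the set is empty. Otherwise `S_UNIF` for some `i₀` and `S_TAIL` for the model `mdl D b B i₀` (`Ok` follows from
`Pl` and `Sym`; the multiplicities decrease at most by 1). -/
def S_TAILB : Prop := ∀ (V : Type) [AddCommGroup V] [Module (ZMod 2) V] [Finite V]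
  (ω : V →ₗ[ZMod 2] V →ₗ[ZMod 2] ZMod 2), Pl ω → ∃ C : ℕ, ∀ (S : Set (Module.End (ZMod 2) V)) (c : ℕ),
  Ty c S → (∀ X ∈ S, Sa ω X) → ∀ (s U ι : Type) [Fintype s] [Fintype U] [Fintype ι] [LinearOrder ι]
  (D : Dj s V) (b : Bk s U ι) (A : U → Prop) (B : ι → Prop), D.Sym → D.ω = ω → ∀ k : ℕ,
  (∀ X ∈ S, C * (k + 1) ≤ (univ.filter fun i => B i ∧ ∃ e : ZMod 2, D.T (b.hJ i) = X + e • 1).card) →
  (univ.filter fun α : prs (univ : Finset ι) → ZMod 2 =>
      k + 2 * (Fintype.card s + Fintype.card U + 1) ≤ rk D b A B α).card ^ 2 * 2 ^ (k ^ 2 / c) ≤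
    (2 ^ (prs (univ : Finset ι)).card) ^ 2 * 2 ^ (C * (k + 1))

/-- MX-UB: the mean of the number of the subsets with a large space of solutions. Write `n = #ι`, `T φ = D.T φ`.
Proof: fix `k`; for `σ` let `𝒮` be the set of the labels `φ` with at least `C (k + 1)` elements `i`, `σ i ≠ 0`, `b.hJ i = φ`
(`C` of `S_TAILB`). The number of the `σ` with given `𝒮` is at most
`2 ^ #U * 2 ^ (∑ φ ∈ 𝒮, #{i | b.hJ i = φ}) * (n + 1) ^ (C (k + 1) 2 ^ #s) ≤ 2 ^ (#𝒮 / 2 ^ #s * n + ε n / 4)` for small `δ`, large `n`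
(`k ≤ 3 √n`). Three cases. (i) All the `T φ`, `φ ∈ 𝒮`, are scalars: the `φ` with `T φ` a scalar form a subspace of index at
least 4 (if the index were at most 2 all the `T φ` would commute, but they generate `End V`), so
`#𝒮 ≤ 2 ^ #s / 4`; use `S_TAILB` with `c = 4`, `S = ∅`. (ii) Not (i), and the `T φ`, `φ ∈ 𝒮`, do not generate `End V`: the `φ` with
`T φ` in the subalgebra generated by the `T φ'`, `φ' ∈ 𝒮`, form a proper subspace which contains `𝒮`, so
`#𝒮 ≤ 2 ^ #s / 2`; use `c = 2`, `S = {T φ | φ ∈ 𝒮}`. (iii) The `T φ`, `φ ∈ 𝒮`, generate: `c = 1`. In case (i), (ii), (iii) the probability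
of `k ≤ rkB` is at most `2 ^ (-k' ^ 2 / (2 c) + C (k + 1))`, `k' = k - 2 (#s + #U + 1)` (if this is negative, then `k ^ 2` is at most a
small multiple of `n` and the trivial bound `2 ^ (#U + n)` for the number of the `σ` is enough), and
`k' ^ 2 ≥ k ^ 2 - 4 k (#s + #U + 1)` with `#U ≤ √(δ n)`, `k ≤ 3 √n`. So the three contributions are at most
`2 ^ (n / c - k ^ 2 / (2 c) + ε n / 2)`, `c = 4, 2, 1`, and `(n - k ^ 2 / 2) / 2` lies between `(n - k ^ 2 / 2) / 4` and `n - k ^ 2 / 2`. (`Sa` for `T φ`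
is `D.Sym`.) -/
def S_UB : Prop := ∀ (s V : Type) [Fintype s] [AddCommGroup V] [Module (ZMod 2) V] [Finite V]
  (D : Dj s V), Pl D.ω → D.Sym →
  Algebra.adjoin (ZMod 2) (Set.range fun φ : s → ZMod 2 => (D.T φ : Module.End (ZMod 2) V)) = ⊤ →
  ∀ ε : ℝ, 0 < ε → ∃ δ : ℝ, 0 < δ ∧ ∃ n₀ : ℕ, ∀ (U ι : Type) [Fintype U] [Fintype ι] [LinearOrder ι]
    (b : Bk s U ι), n₀ ≤ Fintype.card ι → (Fintype.card U : ℝ) ^ 2 ≤ δ * Fintype.card ι →
    (∀ φ : s → ZMod 2, ((univ.filter fun i => b.hJ i = φ).card : ℝ) ≤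
      (1 / 2 ^ Fintype.card s + δ) * Fintype.card ι) → ∀ k : ℕ, k ^ 2 ≤ 9 * Fintype.card ι →
    (∑ α : prs (univ : Finset ι) → ZMod 2,
        ((univ.filter fun σ : U ⊕ ι → ZMod 2 => k ≤ rkB D b σ α).card : ℝ)) ≤
      2 ^ (prs (univ : Finset ι)).card * (2 : ℝ) ^ (ε * Fintype.card ι) *
        ((2 : ℝ) ^ ((Fintype.card ι : ℝ) - (k : ℝ) ^ 2 / 2) +
          (2 : ℝ) ^ (((Fintype.card ι : ℝ) - (k : ℝ) ^ 2 / 2) / 4))

/-- MX-UBP: almost all symbols. Proof: `S_UB` with `ε / 2`, Markov's inequality and the union over the at most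
`3 √n + 1` values of `k`: the proportion of the bad `α` is at most `(3 √n + 1) * 2 ^ (-ε n / 2)`. -/
def S_UBP : Prop := ∀ (s V : Type) [Fintype s] [AddCommGroup V] [Module (ZMod 2) V] [Finite V]
  (D : Dj s V), Pl D.ω → D.Sym →
  Algebra.adjoin (ZMod 2) (Set.range fun φ : s → ZMod 2 => (D.T φ : Module.End (ZMod 2) V)) = ⊤ →
  ∀ ε : ℝ, 0 < ε → ∃ δ : ℝ, 0 < δ ∧ ∃ n₀ : ℕ, ∀ (U ι : Type) [Fintype U] [Fintype ι] [LinearOrder ι]
    (b : Bk s U ι), n₀ ≤ Fintype.card ι → (Fintype.card U : ℝ) ^ 2 ≤ δ * Fintype.card ι →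
    (∀ φ : s → ZMod 2, ((univ.filter fun i => b.hJ i = φ).card : ℝ) ≤
      (1 / 2 ^ Fintype.card s + δ) * Fintype.card ι) →
    ((univ.filter fun α : prs (univ : Finset ι) → ZMod 2 => ∃ k : ℕ, k ^ 2 ≤ 9 * Fintype.card ι ∧
        (2 : ℝ) ^ (ε * Fintype.card ι) *
          ((2 : ℝ) ^ ((Fintype.card ι : ℝ) - (k : ℝ) ^ 2 / 2) +
            (2 : ℝ) ^ (((Fintype.card ι : ℝ) - (k : ℝ) ^ 2 / 2) / 4)) <
          ((univ.filter fun σ : U ⊕ ι → ZMod 2 => k ≤ rkB D b σ α).card : ℝ)).card : ℝ) ≤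
      ε * 2 ^ (prs (univ : Finset ι)).card

end Q44.MX
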